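import Mathlib
import Pool.Agent.Helper650.AP4

set_option autoImplicit false

namespace Pool.Agent.H279R2.Alt

open Set Pool.Agent.Helper650.AP

variable {ι : Type*}

/-! ### general facts -/

/-- weak at the left end, strict at the right end -/
lemma ch_lt'' {P Q P' Q' : ℝ × ℝ} {α β x : ℝ} (h1 : α < x) (h2 : x ≤ β)
    (hα : ch P Q α ≤ ch P' Q' α) (hβ : ch P Q β < ch P' Q' β) : ch P Q x < ch P' Q' x := by
  obtain ⟨A, B, hA⟩ := ch_affine P Q
  obtain ⟨A', B', hA'⟩ := ch_affine P' Q'
  rw [hA, hA'] at *
  by_contra hx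
  push Not at hx
  have h3 : 0 ≤ (A' - A) * α + (B' - B) := by linarith
  have h4 : (A' - A) * x + (B' - B) ≤ 0 := by linarith
  have h5 : 0 < (A' - A) * β + (B' - B) := by linarith
  rcases le_total 0 (A' - A) with h | h
  · nlinarith
  · nlinarith

lemma conns_mem_left {α : Type*} {l : List α} {c : α × α} (hc : c ∈ conns l) : c.1 ∈ l := by
  unfold conns at hc
  have := List.of_mem_zip (show (c.1, c.2) ∈ l.zip l.tail from hc)
  exact this.1

lemma conns_mem_right {α : Type*} {l : List α} {c : α × α} (hc : c ∈ conns l) : c.2 ∈ l.tail := by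
  unfold conns at hc
  have := List.of_mem_zip (show (c.1, c.2) ∈ l.zip l.tail from hc)
  exact this.2

lemma conns_mem_right' {α : Type*} {l : List α} {c : α × α} (hc : c ∈ conns l) : c.2 ∈ l :=
  List.mem_of_mem_tail (conns_mem_right hc)

variable {F : Fam ι}

lemma conns_ne {l : List (ι × Bool)} (hn : (l.map Prod.fst).Nodup)
    {c : (ι × Bool) × (ι × Bool)} (hc : c ∈ conns l) : c.1.1 ≠ c.2.1 := by
  induction l with
  | nil => simp at hc
  | cons a l ih =>
    cases l with
    | nil => simp at hc
    | cons b l =>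
      rw [conns_cons_cons, List.mem_cons] at hc
      rcases hc with rfl | hc
      · simp only
        rw [List.map_cons, List.nodup_cons] at hn
        intro h
        apply hn.1
        rw [h]
        simp
      · rw [List.map_cons, List.nodup_cons] at hn
        exact ih hn.2 hc

lemma edge_ne {a b : ι × Bool} (h : a.1 ≠ b.1) : (enp F.p a).1 ≠ (stp F.p b).1 := by
  intro e
  exact h (F.xinj _ _ _ _ e).1

lemma enp_ge (F : Fam ι) (a : ι × Bool) : (F.l a.1).1 ≤ (enp F.p a).1 := by
  have := F.lr' a.1
  rcases a with ⟨i, b⟩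
  cases b
  · exact le_rfl
  · exact this.le

lemma enp_le (F : Fam ι) (a : ι × Bool) : (enp F.p a).1 ≤ (F.r a.1).1 := by
  have := F.lr' a.1
  rcases a with ⟨i, b⟩
  cases b
  · exact this.le
  · exact le_rfl

lemma stp_ge (F : Fam ι) (a : ι × Bool) : (F.l a.1).1 ≤ (stp F.p a).1 := by
  have := F.lr' a.1
  rcases a with ⟨i, b⟩
  cases b
  · exact this.le
  · exact le_rfl

lemma stp_le (F : Fam ι) (a : ι × Bool) : (stp F.p a).1 ≤ (F.r a.1).1 := by
  have := F.lr' a.1
  rcases a with ⟨i, b⟩
  cases b
  · exact le_rfl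
  · exact this.le

/-- Good lists, one more element in front -/
lemma good_cons {a b : ι × Bool} {l : List (ι × Bool)} (hg : Good F.p (b :: l))
    (hn : ∀ s ∈ b :: l, a.1 ≠ s.1)
    (d1 : ∀ c ∈ conns (b :: l), Disjoint (cseg F.p c) (segment ℝ (F.l a.1) (F.r a.1)))
    (d2 : ∀ s ∈ l, Disjoint (cseg F.p (a, b)) (segment ℝ (F.l s.1) (F.r s.1)))
    (d3 : ∀ c ∈ conns (b :: l), Disjoint (cseg F.p (a, b)) (cseg F.p c)) :
    Good F.p (a :: b :: l) := by
  refine ⟨?_, ?_, ?_⟩
  · rw [List.map_cons, List.nodup_cons]
    refine ⟨?_, hg.nodup⟩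
    intro h
    rw [List.mem_map] at h
    obtain ⟨s, hs, hs'⟩ := h
    exact hn s hs hs'.symm
  · intro c hc s hs n1 n2
    rw [conns_cons_cons, List.mem_cons] at hc
    rw [List.mem_cons] at hs
    rcases hc with rfl | hc
    · rcases hs with rfl | hs
      · exact absurd rfl n1
      · rw [List.mem_cons] at hs
        rcases hs with rfl | hs
        · exact absurd rfl n2
        · exact d2 s hs
    · rcases hs with rfl | hs
      · exact d1 c hc
      · exact hg.cs c hc s hs n1 n2
  · rw [conns_cons_cons, List.pairwise_cons]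
    exact ⟨d3, hg.cc⟩

/-- gluing at a common element -/
lemma conns_glue {α : Type*} (X : List α) (e : α) (Y : List α) :
    conns (X ++ e :: Y) = conns (X ++ [e]) ++ conns (e :: Y) := by
  induction X with
  | nil => simp
  | cons a X ih =>
    cases X with
    | nil => simp [conns]
    | cons b X =>
      simp only [List.cons_append, conns_cons_cons] at ih ⊢
      rw [ih]

lemma glue {X Y : List (ι × Bool)} {e : ι} (hX : Good F.p (X ++ [(e, true)]))
    (hY : Good F.p ((e, true) :: Y)) (h1 : ∀ s ∈ X, (F.r s.1).1 < (F.l e).1)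
    (h2 : ∀ s ∈ Y, (F.r e).1 < (F.l s.1).1) : Good F.p (X ++ (e, true) :: Y) := by
  have hee := F.lr' e
  -- positions of connecting edges
  have c1 : ∀ c ∈ conns (X ++ [(e, true)]), (enp F.p c.1).1 ≤ (F.l e).1 ∧
      (stp F.p c.2).1 ≤ (F.l e).1 := by
    intro c hc
    constructor
    · have hm : c.1 ∈ X := by
        have : c ∈ (X ++ [(e, true)]).zip (X ++ [(e, true)]).tail := hc
        rw [List.mem_iff_getElem] at this
        obtain ⟨i, hi, hi'⟩ := this
        rw [List.getElem_zip] at hi'
        rw [← hi']
        simp only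
        rw [List.length_zip, List.length_tail, List.length_append, List.length_singleton] at hi
        rw [List.getElem_append_left (by omega)]
        exact List.getElem_mem _
      exact (enp_le F c.1).trans (h1 _ hm).le
    · have hm := conns_mem_right' hc
      rw [List.mem_append, List.mem_singleton] at hm
      rcases hm with hm | hm
      · exact (stp_le F c.2).trans (h1 _ hm).le
      · rw [hm]; exact le_rfl
  have c2 : ∀ c ∈ conns ((e, true) :: Y), (F.r e).1 ≤ (enp F.p c.1).1 ∧
      (F.r e).1 ≤ (stp F.p c.2).1 := by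
    intro c hc
    constructor
    · have hm := conns_mem_left hc
      rw [List.mem_cons] at hm
      rcases hm with hm | hm
      · rw [hm]; exact le_rfl
      · exact (h2 _ hm).le.trans (enp_ge F c.1)
    · have hm := conns_mem_right hc
      exact (h2 _ hm).le.trans (stp_ge F c.2)
  have n1 : ∀ c ∈ conns (X ++ [(e, true)]), (enp F.p c.1).1 ≠ (stp F.p c.2).1 :=
    fun c hc => edge_ne (conns_ne hX.nodup hc)
  have n2 : ∀ c ∈ conns ((e, true) :: Y), (enp F.p c.1).1 ≠ (stp F.p c.2).1 :=
    fun c hc => edge_ne (conns_ne hY.nodup hc)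
  refine ⟨?_, ?_, ?_⟩
  · rw [List.map_append, List.nodup_append]
    have a1 := hX.nodup
    rw [List.map_append, List.nodup_append] at a1
    refine ⟨a1.1, hY.nodup, ?_⟩
    intro a ha b hb hab
    subst hab
    rw [List.mem_map] at ha hb
    obtain ⟨s, hs, rfl⟩ := ha
    obtain ⟨s', hs', e'⟩ := hb
    have t1 := h1 s hs
    have t2 := F.lr' s.1
    rw [List.mem_cons] at hs'
    rcases hs' with rfl | hs'
    · simp only at e'
      rw [← e'] at t1 t2
      linarith
    · have := h2 s' hs'
      rw [e'] at this
      linarith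
  · intro c hc s hs m1 m2
    rw [conns_glue, List.mem_append] at hc
    rw [List.mem_append, List.mem_cons] at hs
    have ls := F.lr' s.1
    rcases hc with hc | hc
    · rcases hs with hs | hs
      · exact hX.cs c hc s (by simp [hs]) m1 m2
      · rcases hs with hs | hs
        · exact hX.cs c hc s (by simp [hs]) m1 m2
        · obtain ⟨t1, t2⟩ := c1 c hc
          have t3 := h2 s hs
          exact (below_of_sep (P := enp F.p c.1) (Q := stp F.p c.2) (P' := F.l s.1)
            (Q' := F.r s.1) (by linarith) (by linarith) (by linarith) (by linarith)).disjoint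
            (n1 c hc) ls.ne
    · rcases hs with hs | hs
      · obtain ⟨t1, t2⟩ := c2 c hc
        have t3 := h1 s hs
        exact (below_of_sep' (P := enp F.p c.1) (Q := stp F.p c.2) (P' := F.l s.1) (Q' := F.r s.1)
          (by linarith) (by linarith) (by linarith) (by linarith)).disjoint
            (n2 c hc) ls.ne
      · exact hY.cs c hc s (by rw [List.mem_cons]; exact hs) m1 m2
  · rw [conns_glue, List.pairwise_append]
    refine ⟨hX.cc, hY.cc, ?_⟩
    intro c hc c' hc'
    obtain ⟨t1, t2⟩ := c1 c hc
    obtain ⟨t3, t4⟩ := c2 c' hc'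
    exact (below_of_sep (P := enp F.p c.1) (Q := stp F.p c.2) (P' := enp F.p c'.1)
      (Q' := stp F.p c'.2) (by linarith) (by linarith) (by linarith) (by linarith)).disjoint
      (n1 c hc) (n2 c' hc')

/-- putting a far left segment in front -/
lemma entry {u' : List (ι × Bool)} {h w : ι} (hg : Good F.p ((h, true) :: u'))
    (hw : ∀ s ∈ (h, true) :: u', (F.r w).1 < (F.l s.1).1)
    (d2 : ∀ s ∈ u', Below (F.r w) (F.l h) (F.l s.1) (F.r s.1))
    (d3 : ∀ c ∈ conns ((h, true) :: u'), Below (F.r w) (F.l h) (enp F.p c.1) (stp F.p c.2)) :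
    Good F.p ((w, true) :: (h, true) :: u') := by
  have hww := F.lr' w
  have hwh : (F.r w).1 < (F.l h).1 := hw (h, true) (by simp)
  have e1 : cseg F.p ((w, true), (h, true)) = segment ℝ (F.r w) (F.l h) := rfl
  apply good_cons hg
  · intro s hs e
    have := hw s hs
    rw [← e] at this
    simp only at this
    linarith
  · intro c hc
    have t1 := hw _ (conns_mem_left hc)
    have t2 := hw _ (conns_mem_right' hc)
    have t3 := enp_ge F c.1
    have t4 := stp_ge F c.2
    exact (below_of_sep' (P := enp F.p c.1) (Q := stp F.p c.2) (P' := F.l w) (Q' := F.r w)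
      (by linarith) (by linarith) (by linarith) (by linarith)).disjoint
      (edge_ne (conns_ne hg.nodup hc)) hww.ne
  · intro s hs
    rw [e1]
    exact (d2 s hs).disjoint hwh.ne (F.lr' s.1).ne
  · intro c hc
    rw [e1]
    exact (d3 c hc).disjoint hwh.ne (edge_ne (conns_ne hg.nodup hc))

/-- the same if the first element is leftmost -/
lemma entry_left {u' : List (ι × Bool)} {h w : ι} (hg : Good F.p ((h, true) :: u'))
    (hw : (F.r w).1 < (F.l h).1) (hl : ∀ s ∈ u', (F.l h).1 < (F.l s.1).1) :
    Good F.p ((w, true) :: (h, true) :: u') := by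
  have hhh := F.lr' h
  apply entry hg
  · intro s hs
    rw [List.mem_cons] at hs
    rcases hs with rfl | hs
    · exact hw
    · exact hw.trans (hl s hs)
  · intro s hs
    have t1 := hl s hs
    have t2 := F.lr' s.1
    exact below_of_sep (by linarith) (by linarith) (by linarith) (by linarith)
  · intro c hc
    have t1 : (F.l h).1 < (enp F.p c.1).1 := by
      have := conns_mem_left hc
      rw [List.mem_cons] at this
      rcases this with h' | h'
      · rw [h']; exact hhh
      · exact (hl _ h').trans_le (enp_ge F c.1)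
    have t2 : (F.l h).1 < (stp F.p c.2).1 := by
      have := conns_mem_right hc
      exact (hl _ this).trans_le (stp_ge F c.2)
    exact below_of_sep (by linarith) (by linarith) (by linarith) (by linarith)

end Pool.Agent.H279R2.Alt
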