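import Mathlib
import Pool.Agent.H279R2.Alt1

set_option autoImplicit false

namespace Pool.Agent.H279R2.Alt

open Set Pool.Agent.Helper650.AP

variable {ι : Type*}

/-- the zigzag list -/
def up : List (ι × ι) → ι → List (ι × Bool) → List (ι × Bool)
  | [], t, zs => (t, true) :: zs
  | x :: P, t, zs => (x.1, true) :: (x.2, false) :: up P t zs

/-- first element -/
def hd : List (ι × ι) → ι → ι
  | [], t => t
  | x :: _, _ => x.1

/-- optional terminal -/
def ol (o : Option ι) : List (ι × Bool) := o.toList.map (fun i => (i, true))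

@[simp] lemma ol_none : ol (none : Option ι) = [] := rfl
@[simp] lemma ol_some (i : ι) : ol (some i) = [(i, true)] := rfl

lemma up_append (P : List (ι × ι)) (t : ι) (zs : List (ι × Bool)) :
    up P t zs = up P t [] ++ zs := by
  induction P with
  | nil => rfl
  | cons x P ih => simp only [up]; rw [ih]; rfl

lemma up_length (P : List (ι × ι)) (t : ι) : (up P t []).length = 2 * P.length + 1 := by
  induction P with
  | nil => rfl
  | cons x P ih => simp only [up, List.length_cons]; omega

lemma up_eq (P : List (ι × ι)) (t : ι) (zs : List (ι × Bool)) :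
    ∃ rest, up P t zs = (hd P t, true) :: rest := by
  cases P with
  | nil => exact ⟨_, rfl⟩
  | cons x P => exact ⟨_, rfl⟩

lemma mem_up {P : List (ι × ι)} {t : ι} {zs : List (ι × Bool)} {s : ι × Bool}
    (hs : s ∈ up P t zs) :
    s ∈ zs ∨ s = (t, true) ∨ ∃ x ∈ P, s = (x.1, true) ∨ s = (x.2, false) := by
  induction P with
  | nil =>
    simp only [up, List.mem_cons] at hs
    rcases hs with h | h
    · right; left; exact h
    · left; exact h
  | cons x P ih =>
    simp only [up, List.mem_cons] at hs
    rcases hs with h | h | h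
    · right; right; exact ⟨x, by simp, Or.inl h⟩
    · right; right; exact ⟨x, by simp, Or.inr h⟩
    · rcases ih h with h | h | ⟨y, hy, h⟩
      · left; exact h
      · right; left; exact h
      · right; right; exact ⟨y, List.mem_cons_of_mem _ hy, h⟩

structure UC (F : Fam ι) (ξ : ℝ) (G E : Finset ι) : Prop where
  st : ∀ k ∈ G, F.Stab ξ k
  sub : E ⊆ G
  L1 : ∀ a ∈ E, ∀ b ∈ E, ∀ k ∈ G, F.L a ξ < F.L b ξ → F.L b ξ < F.L k ξ →
    Below (F.l a) (F.l b) (F.l k) (F.r k)
  L2 : ∀ a ∈ E, ∀ b ∈ E, ∀ k ∈ G, F.L k ξ < F.L a ξ → F.L a ξ < F.L b ξ →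
    Below (F.l k) (F.r k) (F.l a) (F.l b)
  L3 : ∀ a ∈ E, ∀ b ∈ E, ∀ c ∈ E, ∀ d ∈ E, F.L a ξ < F.L b ξ → F.L b ξ < F.L c ξ →
    F.L c ξ < F.L d ξ → Below (F.l a) (F.l b) (F.l c) (F.l d)

structure PC (F : Fam ι) (ξ : ℝ) (G E : Finset ι) (P : List (ι × ι)) (t : ι) : Prop where
  tE : t ∈ E
  m1 : ∀ x ∈ P, x.1 ∈ G
  m2 : ∀ x ∈ P, x.2 ∈ E
  o1 : ∀ x ∈ P, F.L x.1 ξ < F.L x.2 ξ
  o2 : ∀ x ∈ P, F.L x.2 ξ < F.L t ξ
  bt : ∀ x ∈ P, Below (F.r x.1) (F.r x.2) (F.l t) (F.r t)
  pw : P.Pairwise (fun x y => RR F ξ x y ∧ y.1 ∈ E)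

structure ZC (F : Fam ι) (ξ : ℝ) (G : Finset ι) (P : List (ι × ι)) (t z : ι) : Prop where
  right : ∀ k ∈ G, (F.r k).1 < (F.l z).1
  seg : ∀ k ∈ G, F.L k ξ < F.L t ξ → Below (F.l k) (F.r k) (F.r t) (F.l z)
  rr : ∀ x ∈ P, Below (F.r x.1) (F.r x.2) (F.r t) (F.l z)

structure WC (F : Fam ι) (ξ : ℝ) (G E : Finset ι) (P : List (ι × ι)) (t w : ι) : Prop where
  left : ∀ k ∈ G, (F.r w).1 < (F.l k).1
  seg : ∀ k ∈ G, F.L (hd P t) ξ < F.L k ξ → Below (F.r w) (F.l (hd P t)) (F.l k) (F.r k)
  ee : ∀ a ∈ E, ∀ b ∈ E, F.L (hd P t) ξ < F.L a ξ → F.L a ξ < F.L b ξ →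
    Below (F.r w) (F.l (hd P t)) (F.l a) (F.l b)

variable {F : Fam ι} {ξ : ℝ} {G E : Finset ι} {P : List (ι × ι)} {t : ι}

lemma PC.tail {x : ι × ι} (h : PC F ξ G E (x :: P) t) : PC F ξ G E P t :=
  ⟨h.tE, fun y hy => h.m1 y (List.mem_cons_of_mem _ hy),
    fun y hy => h.m2 y (List.mem_cons_of_mem _ hy), fun y hy => h.o1 y (List.mem_cons_of_mem _ hy),
    fun y hy => h.o2 y (List.mem_cons_of_mem _ hy), fun y hy => h.bt y (List.mem_cons_of_mem _ hy),
    (List.pairwise_cons.mp h.pw).2⟩

lemma ZC.tail {x : ι × ι} {z : ι} (h : ZC F ξ G (x :: P) t z) : ZC F ξ G P t z :=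
  ⟨h.right, h.seg, fun y hy => h.rr y (List.mem_cons_of_mem _ hy)⟩

/-- relation between chords of related pairs -/
lemma rr_cc {x y : ι × ι} (h : RR F ξ x y) (hx : x.1 ≠ x.2) (hy : y.1 ≠ y.2) :
    Below (F.r x.1) (F.r x.2) (F.r y.1) (F.r y.2) := by
  apply below_of_ends (F.r_ne hx) (F.r_ne hy)
  · intro hx
    have := h.b3 _ (right_mem_uIcc) hx
    rwa [ch_right (F.lr' _).ne] at this
  · intro hx
    have := h.b4 _ (right_mem_uIcc) hx
    rwa [ch_right (F.lr' _).ne] at this
  · intro hx
    have := h.b1 _ hx (right_mem_uIcc)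
    rwa [ch_right (F.lr' _).ne] at this
  · intro hx
    have := h.b2 _ hx (right_mem_uIcc)
    rwa [ch_right (F.lr' _).ne] at this

/-- edges of the zigzag -/
lemma conns_up {zo : Option ι} (pc : PC F ξ G E P t) {c : (ι × Bool) × (ι × Bool)}
    (hc : c ∈ conns (up P t (ol zo))) :
    (∃ x ∈ P, c = ((x.1, true), (x.2, false))) ∨
    (∃ x ∈ P, ∃ b, b ∈ E ∧ F.L x.2 ξ < F.L b ξ ∧ c = ((x.2, false), (b, true))) ∨
    (∃ z, zo = some z ∧ c = ((t, true), (z, true))) := by
  induction P with
  | nil =>
    right; right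
    cases zo with
    | none => simp [up] at hc
    | some z =>
      simp only [up, ol_some, conns_cons_cons, conns_single, List.mem_singleton] at hc
      exact ⟨z, rfl, hc⟩
  | cons x P ih =>
    obtain ⟨rest, hrest⟩ := up_eq P t (ol zo)
    have hcon : conns (up (x :: P) t (ol zo)) =
        ((x.1, true), (x.2, false)) :: ((x.2, false), (hd P t, true)) ::
          conns (up P t (ol zo)) := by
      simp only [up]; rw [hrest]; rfl
    rw [hcon, List.mem_cons, List.mem_cons] at hc
    rcases hc with rfl | rfl | hc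
    · left; exact ⟨x, by simp, rfl⟩
    · right; left
      refine ⟨x, by simp, hd P t, ?_, ?_, rfl⟩
      · cases P with
        | nil => exact pc.tE
        | cons y P => exact ((List.pairwise_cons.mp pc.pw).1 y (by simp)).2
      · cases P with
        | nil => exact pc.o2 x (by simp)
        | cons y P => exact ((List.pairwise_cons.mp pc.pw).1 y (by simp)).1.lt
    · rcases ih pc.tail hc with ⟨y, hy, h⟩ | ⟨y, hy, b, h1, h2, h3⟩ | h
      · left; exact ⟨y, List.mem_cons_of_mem _ hy, h⟩
      · right; left; exact ⟨y, List.mem_cons_of_mem _ hy, b, h1, h2, h3⟩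
      · right; right; exact h

lemma hd_le (pc : PC F ξ G E P t) : (∀ x ∈ P, F.L (hd P t) ξ ≤ F.L x.1 ξ) ∧
    F.L (hd P t) ξ ≤ F.L t ξ := by
  cases P with
  | nil => exact ⟨by simp, le_rfl⟩
  | cons x P =>
    refine ⟨?_, ((pc.o1 x (by simp)).trans (pc.o2 x (by simp))).le⟩
    intro y hy
    rw [List.mem_cons] at hy
    rcases hy with rfl | hy
    · exact le_rfl
    · have h1 := ((List.pairwise_cons.mp pc.pw).1 y hy).1.lt
      have h2 := pc.o1 x (by simp)
      exact (h2.trans h1).le

lemma hd_mem (uc : UC F ξ G E) (pc : PC F ξ G E P t) : hd P t ∈ G := by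
  cases P with
  | nil => exact uc.sub pc.tE
  | cons x P => exact pc.m1 x (by simp)

/-- height comparison for all elements after the first -/
lemma rest_gt (uc : UC F ξ G E) (pc : PC F ξ G E P t) {zo : Option ι}
    {rest : List (ι × Bool)} (hrest : up P t (ol zo) = (hd P t, true) :: rest)
    (hn : (((hd P t, true) :: rest).map Prod.fst).Nodup) {s : ι × Bool} (hs : s ∈ rest) :
    (s.1 ∈ G ∧ F.L (hd P t) ξ < F.L s.1 ξ) ∨ zo = some s.1 := by
  have hne : hd P t ≠ s.1 := by
    rw [List.map_cons, List.nodup_cons] at hn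
    intro h
    apply hn.1
    rw [List.mem_map]
    exact ⟨s, hs, h.symm⟩
  have hs' : s ∈ up P t (ol zo) := by rw [hrest]; exact List.mem_cons_of_mem _ hs
  obtain ⟨g1, g2⟩ := hd_le pc
  have hG := hd_mem uc pc
  have key : s.1 ∈ G → F.L (hd P t) ξ ≤ F.L s.1 ξ → F.L (hd P t) ξ < F.L s.1 ξ := by
    intro h1 h2
    exact lt_of_le_of_ne h2 (h_ne (uc.st _ hG) (uc.st _ h1) hne)
  rcases mem_up hs' with h | h | ⟨x, hx, h | h⟩
  · right
    cases zo with
    | none => simp at h
    | some z =>
      rw [ol_some, List.mem_singleton] at h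
      rw [h]
  · left
    subst h
    have h1 : t ∈ G := uc.sub pc.tE
    exact ⟨h1, key h1 g2⟩
  · left
    subst h
    have h1 : x.1 ∈ G := pc.m1 x hx
    exact ⟨h1, key h1 (g1 x hx)⟩
  · left
    subst h
    have h1 : x.2 ∈ G := uc.sub (pc.m2 x hx)
    exact ⟨h1, key h1 ((g1 x hx).trans (pc.o1 x hx).le)⟩

lemma up_good (uc : UC F ξ G E) (pc : PC F ξ G E P t) {zo : Option ι}
    (zc : ∀ z ∈ zo, ZC F ξ G P t z) : Good F.p (up P t (ol zo)) := by
  induction P with
  | nil =>
    cases zo with
    | none => exact ⟨by simp [up], by simp [up], by simp [up]⟩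
    | some z =>
      have hz := (zc z rfl).right t (uc.sub pc.tE)
      have ht := F.lr' t
      refine ⟨?_, ?_, ?_⟩
      · simp only [up, ol_some, List.map_cons, List.map_nil, List.nodup_cons, List.mem_singleton,
          List.not_mem_nil, not_false_iff, List.nodup_nil, and_true]
        rintro rfl
        linarith
      · intro c hc s hs n1 n2
        simp only [up, ol_some, conns_cons_cons, conns_single, List.mem_singleton] at hc
        subst hc
        simp only [up, ol_some, List.mem_cons, List.not_mem_nil, or_false] at hs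
        rcases hs with rfl | rfl
        · exact absurd rfl n1
        · exact absurd rfl n2
      · simp [up]
  | cons x P ih =>
    have ih := ih pc.tail (fun z hz => (zc z hz).tail)
    have pct := pc.tail
    obtain ⟨rest, hrest⟩ := up_eq P t (ol zo)
    have hE : hd P t ∈ E := by
      cases P with
      | nil => exact pc.tE
      | cons y P => exact ((List.pairwise_cons.mp pc.pw).1 y (by simp)).2
    have hxe : F.L x.2 ξ < F.L (hd P t) ξ := by
      cases P with
      | nil => exact pc.o2 x (by simp)
      | cons y P => exact ((List.pairwise_cons.mp pc.pw).1 y (by simp)).1.lt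
    have hxx := pc.o1 x (by simp)
    have hx1G := pc.m1 x (by simp)
    have hx2E := pc.m2 x (by simp)
    have hx2G := uc.sub hx2E
    have hx1s := uc.st _ hx1G
    have hx2s := uc.st _ hx2G
    have hxt := pc.o2 x (by simp)
    have hpw := (List.pairwise_cons.mp pc.pw).1
    have htG := uc.sub pc.tE
    have hts := uc.st _ htG
    have heG := uc.sub hE
    have hes := uc.st _ heG
    have hn : (((hd P t, true) :: rest).map Prod.fst).Nodup := by
      rw [← hrest]; exact ih.nodup
    -- z edge
    have hzr : ∀ z, zo = some z → ∀ k ∈ G, (F.r k).1 < (F.l z).1 := fun z hz => (zc z hz).right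
    -- heights of everything in `up P`
    have hup : ∀ s ∈ up P t (ol zo), (s.1 ∈ G ∧ F.L x.2 ξ < F.L s.1 ξ) ∨ zo = some s.1 := by
      intro s hs
      rcases mem_up hs with h | h | ⟨y, hy, h | h⟩
      · right
        cases zo with
        | none => simp at h
        | some z =>
          rw [ol_some, List.mem_singleton] at h
          rw [h]
      · left
        subst h
        exact ⟨htG, hxt⟩
      · left
        subst h
        exact ⟨pct.m1 y hy, (hpw y hy).1.lt⟩
      · left
        subst h
        exact ⟨uc.sub (pct.m2 y hy), (hpw y hy).1.lt.trans (pct.o1 y hy)⟩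
    have n2 : ∀ s ∈ up P t (ol zo), x.2 ≠ s.1 := by
      intro s hs
      rcases hup s hs with ⟨h1, h2⟩ | h
      · exact ne_of_h h2
      · intro e
        have := hzr _ h _ hx2G
        rw [← e] at this
        have := F.lr' x.2
        linarith
    have n1 : ∀ s ∈ up P t (ol zo), x.1 ≠ s.1 := by
      intro s hs
      rcases hup s hs with ⟨h1, h2⟩ | h
      · exact ne_of_h (hxx.trans h2)
      · intro e
        have := hzr _ h _ hx1G
        rw [← e] at this
        have := F.lr' x.1
        linarith
    have nL : (F.l x.2).1 ≠ (F.l (hd P t)).1 := F.l_ne (ne_of_h hxe)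
    have nR : (F.r x.1).1 ≠ (F.r x.2).1 := F.r_ne (ne_of_h hxx)
    -- segments below edges
    have below_seg : ∀ k ∈ G, F.L k ξ ≤ F.L x.2 ξ →
        (∀ y ∈ P, Below (F.l k) (F.r k) (F.r y.1) (F.r y.2)) →
        ∀ c ∈ conns (up P t (ol zo)), Disjoint (cseg F.p c) (segment ℝ (F.l k) (F.r k)) := by
      intro k hk hkx hR c hc
      have ne := edge_ne (F := F) (conns_ne ih.nodup hc)
      have hb : Below (F.l k) (F.r k) (enp F.p c.1) (stp F.p c.2) := by
        rcases conns_up pct hc with ⟨y, hy, rfl⟩ | ⟨y, hy, b, hb, hyb, rfl⟩ | ⟨z, hz, rfl⟩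
        · exact hR y hy
        · have h1 := (hpw y hy).1.lt
          have h2 := pct.o1 y hy
          exact uc.L2 _ (pct.m2 y hy) _ hb _ hk (lt_of_le_of_lt hkx (h1.trans h2)) hyb
        · exact (zc z hz).seg k hk (lt_of_le_of_lt hkx hxt)
      exact (hb.disjoint (F.lr' k).ne ne).symm
    have hd_le' := hd_le pct
    have g2 : Good F.p ((x.2, false) :: up P t (ol zo)) := by
      rw [hrest] at ih ⊢
      apply good_cons ih
      · intro s hs
        rw [← hrest] at hs
        exact n2 s hs
      · intro c hc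
        rw [← hrest] at hc
        exact below_seg _ hx2G le_rfl (fun y hy => (hpw y hy).1.b4) c hc
      · intro s hs
        show Disjoint (segment ℝ (F.l x.2) (F.l (hd P t))) _
        refine Below.disjoint nL (F.lr' s.1).ne ?_
        rcases rest_gt uc pct hrest hn hs with ⟨h1, h2⟩ | h
        · exact uc.L1 _ hx2E _ hE _ h1 hxe h2
        · have z1 := hzr _ h _ hx2G
          have z2 := hzr _ h _ heG
          have e1 := F.lr' x.2
          have e2 := F.lr' (hd P t)
          have e3 := F.lr' s.1
          exact below_of_sep (by linarith) (by linarith) (by linarith) (by linarith)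
      · intro c hc
        rw [← hrest] at hc ih
        have ne := edge_ne (F := F) (conns_ne ih.nodup hc)
        show Disjoint (segment ℝ (F.l x.2) (F.l (hd P t))) _
        refine Below.disjoint nL ne ?_
        rcases conns_up pct hc with ⟨y, hy, rfl⟩ | ⟨y, hy, b, hb, hyb, rfl⟩ | ⟨z, hz, rfl⟩
        · have s1 := uc.st _ (pct.m1 y hy)
          have s2 := uc.st _ (uc.sub (pct.m2 y hy))
          exact below_of_sep (Stab.lr hx2s s1) (Stab.lr hx2s s2) (Stab.lr hes s1)
            (Stab.lr hes s2)
        · have h1 := hd_le'.1 y hy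
          have h2 := pct.o1 y hy
          exact uc.L3 _ hx2E _ hE _ (pct.m2 y hy) _ hb hxe (lt_of_le_of_lt h1 h2) hyb
        · have z1 := hzr _ hz _ hx2G
          have z2 := hzr _ hz _ heG
          have e1 := F.lr' x.2
          have e2 := F.lr' (hd P t)
          have a1 := Stab.lr hx2s hts
          have a2 := Stab.lr hes hts
          exact below_of_sep (P := F.l x.2) (Q := F.l (hd P t)) (P' := F.r t) (Q' := F.l z)
            a1 (by linarith) a2 (by linarith)
    have g1 : Good F.p ((x.1, true) :: (x.2, false) :: up P t (ol zo)) := by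
      apply good_cons g2
      · intro s hs
        rw [List.mem_cons] at hs
        rcases hs with rfl | hs
        · exact ne_of_h hxx
        · exact n1 s hs
      · intro c hc
        rw [hrest, conns_cons_cons, List.mem_cons, ← hrest] at hc
        rcases hc with rfl | hc
        · have := uc.L2 _ hx2E _ hE _ hx1G hxx hxe
          exact (this.disjoint (F.lr' _).ne nL).symm
        · exact below_seg _ hx1G hxx.le (fun y hy => (hpw y hy).1.b3) c hc
      · intro s hs
        show Disjoint (segment ℝ (F.r x.1) (F.r x.2)) _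
        refine Below.disjoint nR (F.lr' s.1).ne ?_
        rcases mem_up hs with h | h | ⟨y, hy, h | h⟩
        · cases zo with
          | none => simp at h
          | some z =>
            rw [ol_some, List.mem_singleton] at h
            subst h
            have z1 := hzr _ rfl _ hx1G
            have z2 := hzr _ rfl _ hx2G
            have e3 := F.lr' z
            exact below_of_sep (P := F.r x.1) (Q := F.r x.2) (P' := F.l z) (Q' := F.r z)
              (by linarith) (by linarith) (by linarith) (by linarith)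
        · subst h; exact pc.bt x (by simp)
        · subst h; exact (hpw y hy).1.b1
        · subst h; exact (hpw y hy).1.b2
      · intro c hc
        have ne := edge_ne (F := F) (conns_ne g2.nodup hc)
        show Disjoint (segment ℝ (F.r x.1) (F.r x.2)) _
        refine Below.disjoint nR ne ?_
        rw [hrest, conns_cons_cons, List.mem_cons, ← hrest] at hc
        rcases hc with rfl | hc
        · exact below_of_sep' (Stab.lr hx2s hx1s) (Stab.lr hes hx1s) (Stab.lr hx2s hx2s)
            (Stab.lr hes hx2s)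
        · rcases conns_up pct hc with ⟨y, hy, rfl⟩ | ⟨y, hy, b, hb, hyb, rfl⟩ | ⟨z, hz, rfl⟩
          · exact rr_cc (hpw y hy).1 (ne_of_h hxx) (ne_of_h (pct.o1 y hy))
          · have s2 := uc.st _ (uc.sub (pct.m2 y hy))
            have s3 := uc.st _ (uc.sub hb)
            exact below_of_sep' (Stab.lr s2 hx1s) (Stab.lr s3 hx1s) (Stab.lr s2 hx2s)
              (Stab.lr s3 hx2s)
          · exact (zc z hz).rr x (by simp)
    exact g1

theorem up_thru (uc : UC F ξ G E) (pc : PC F ξ G E P t) {wo zo : Option ι}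
    (zc : ∀ z ∈ zo, ZC F ξ G P t z) (wc : ∀ w ∈ wo, WC F ξ G E P t w) :
    Good F.p (ol wo ++ up P t [] ++ ol zo) := by
  have hg := up_good uc pc zc
  rw [List.append_assoc, ← up_append]
  cases wo with
  | none => exact hg
  | some w =>
    have wc := wc w rfl
    have hhG := hd_mem uc pc
    have htG := uc.sub pc.tE
    obtain ⟨rest, hrest⟩ := up_eq P t (ol zo)
    have hg' := hg
    rw [hrest] at hg'
    show Good F.p ((w, true) :: up P t (ol zo))
    rw [hrest]
    have hwl : ∀ s ∈ up P t (ol zo), (F.r w).1 < (F.l s.1).1 := by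
      intro s hs
      rcases mem_up hs with h | h | ⟨y, hy, h | h⟩
      · cases zo with
        | none => simp at h
        | some z =>
          rw [ol_some, List.mem_singleton] at h
          subst h
          have h1 := wc.left _ hhG
          have h2 := F.lr' (hd P t)
          have h3 := (zc z rfl).right _ hhG
          simp only
          linarith
      · subst h; exact wc.left _ htG
      · subst h; exact wc.left _ (pc.m1 y hy)
      · subst h; exact wc.left _ (uc.sub (pc.m2 y hy))
    apply entry hg'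
    · rw [← hrest]; exact hwl
    · intro s hs
      rcases rest_gt uc pc hrest hg'.nodup hs with ⟨h1, h2⟩ | h
      · exact wc.seg _ h1 h2
      · have z1 := (zc _ h).right _ hhG
        have e1 := F.lr' (hd P t)
        have e3 := F.lr' s.1
        have e4 := wc.left _ hhG
        exact below_of_sep (by linarith) (by linarith) (by linarith) (by linarith)
    · intro c hc
      rw [← hrest] at hc
      have hhs := uc.st _ hhG
      have e4 := wc.left _ hhG
      rcases conns_up pc hc with ⟨y, hy, rfl⟩ | ⟨y, hy, b, hb, hyb, rfl⟩ | ⟨z, hz, rfl⟩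
      · have s1 := Stab.lr hhs (uc.st _ (pc.m1 y hy))
        have s2 := Stab.lr hhs (uc.st _ (uc.sub (pc.m2 y hy)))
        exact below_of_sep (P := F.r w) (Q := F.l (hd P t)) (P' := F.r y.1) (Q' := F.r y.2)
          (by linarith) (by linarith) s1 s2
      · have h1 := (hd_le pc).1 y hy
        have h2 := pc.o1 y hy
        exact wc.ee _ (pc.m2 y hy) _ hb (lt_of_le_of_lt h1 h2) hyb
      · have z1 := (zc _ hz).right _ hhG
        have e1 := F.lr' (hd P t)
        have s1 := Stab.lr hhs (uc.st _ htG)
        exact below_of_sep (P := F.r w) (Q := F.l (hd P t)) (P' := F.r t) (Q' := F.l z)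
          (by linarith) (by linarith) s1 (by linarith)

lemma mem_up_G (uc : UC F ξ G E) (pc : PC F ξ G E P t) {s : ι × Bool} (hs : s ∈ up P t []) :
    s.1 ∈ G := by
  rcases mem_up hs with h | h | ⟨y, hy, h | h⟩
  · simp at h
  · subst h; exact uc.sub pc.tE
  · subst h; exact pc.m1 y hy
  · subst h; exact uc.sub (pc.m2 y hy)

end Pool.Agent.H279R2.Alt
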