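import Mathlib
import Pool.Agent.H279R2.Alt2

set_option autoImplicit false

namespace Pool.Agent.H279R2.Alt

open Set Pool.Agent.Helper650.AP

variable {ι : Type*}

/-- there is a good list through `T` with `m` elements from `w` to `z` -/
def Thru (F : Fam ι) (T : Finset ι) (m : ℕ) (w z : Option ι) : Prop :=
  ∃ A : List (ι × Bool), m ≤ A.length ∧ (∀ s ∈ A, s.1 ∈ T) ∧ Good F.p (ol w ++ A ++ ol z)

def WL (F : Fam ι) (T : Finset ι) (w : Option ι) : Prop := ∀ a ∈ w, ∀ k ∈ T, (F.r a).1 < (F.l k).1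
def ZR (F : Fam ι) (T : Finset ι) (z : Option ι) : Prop := ∀ b ∈ z, ∀ k ∈ T, (F.r k).1 < (F.l b).1

/-- `U`-chain: higher segments start further right -/
def UCh (F : Fam ι) (ξ : ℝ) (T : Finset ι) : Prop :=
  ∀ i ∈ T, ∀ j ∈ T, F.L i ξ < F.L j ξ → (F.l i).1 < (F.l j).1
/-- `D`-chain: higher segments start further left -/
def DCh (F : Fam ι) (ξ : ℝ) (T : Finset ι) : Prop :=
  ∀ i ∈ T, ∀ j ∈ T, F.L i ξ < F.L j ξ → (F.l j).1 < (F.l i).1

variable {F : Fam ι} {ξ : ℝ} {G E T : Finset ι} {P : List (ι × ι)} {t : ι} {m : ℕ}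
  {w z : Option ι}

lemma ch_le {P Q P' Q' : ℝ × ℝ} {α β x : ℝ} (h1 : α ≤ x) (h2 : x ≤ β)
    (hα : ch P Q α ≤ ch P' Q' α) (hβ : ch P Q β ≤ ch P' Q' β) : ch P Q x ≤ ch P' Q' x := by
  obtain ⟨A, B, hA⟩ := ch_affine P Q
  obtain ⟨A', B', hA'⟩ := ch_affine P' Q'
  rw [hA, hA'] at *
  by_contra hx
  push Not at hx
  rcases le_total 0 (A' - A) with h | h
  · nlinarith
  · nlinarith

lemma Thru.mono {T' : Finset ι} {m' : ℕ} (h : Thru F T m w z) (hT : T ⊆ T') (hm : m' ≤ m) :
    Thru F T' m' w z := by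
  obtain ⟨A, h1, h2, h3⟩ := h
  exact ⟨A, hm.trans h1, fun s hs => hT (h2 s hs), h3⟩

lemma thru_flip : Thru F.flip T m w z ↔ Thru F T m w z := by
  constructor
  · rintro ⟨A, h1, h2, h3⟩; exact ⟨A, h1, h2, good_flip.mp h3⟩
  · rintro ⟨A, h1, h2, h3⟩; exact ⟨A, h1, h2, good_flip.mpr h3⟩

lemma uch_flip : UCh F.flip ξ T ↔ DCh F ξ T := by
  unfold UCh DCh
  constructor
  · intro h i hi j hj hij
    exact h j hj i hi (by rw [flip_L, flip_L]; linarith)
  · intro h i hi j hj hij
    rw [flip_L, flip_L] at hij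
    exact h j hj i hi (by linarith)

lemma dch_flip : DCh F.flip ξ T ↔ UCh F ξ T := by
  unfold UCh DCh
  constructor
  · intro h i hi j hj hij
    exact h j hj i hi (by rw [flip_L, flip_L]; linarith)
  · intro h i hi j hj hij
    rw [flip_L, flip_L] at hij
    exact h j hj i hi (by linarith)

lemma UCh.mono {T' : Finset ι} (h : UCh F ξ T) (hT : T' ⊆ T) : UCh F ξ T' :=
  fun i hi j hj => h i (hT hi) j (hT hj)

lemma DCh.mono {T' : Finset ι} (h : DCh F ξ T) (hT : T' ⊆ T) : DCh F ξ T' :=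
  fun i hi j hj => h i (hT hi) j (hT hj)

lemma uc_up (hS : ∀ k ∈ T, F.Stab ξ k) (hU : UCh F ξ T) : UC F ξ T T := by
  refine ⟨hS, subset_rfl, ?_, ?_, ?_⟩
  · intro a ha b hb k hk hab hbk
    have h1 := hU a ha b hb hab
    have h2 := hU b hb k hk hbk
    have h3 := F.lr' k
    exact below_of_sep (by linarith) (by linarith) (by linarith) (by linarith)
  · intro a ha b hb k hk hka hab
    exact lchord (hS k hk) (hS a ha) (hS b hb) hka (hka.trans hab) (hU k hk a ha hka)
      (hU a ha b hb hab)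
  · intro a ha b hb c hc d hd hab hbc hcd
    have h1 := hU a ha b hb hab
    have h2 := hU b hb c hc hbc
    have h3 := hU c hc d hd hcd
    exact below_of_sep (by linarith) (by linarith) (by linarith) (by linarith)

lemma uc_down (hS : ∀ k ∈ G, F.Stab ξ k) (hsub : T ⊆ G) (hD : DCh F ξ T)
    (hG : ∀ k ∈ G, k ∈ T ∨ ∀ a ∈ T, F.L k ξ < F.L a ξ ∧ (F.l k).1 < (F.l a).1) :
    UC F ξ G T := by
  refine ⟨hS, hsub, ?_, ?_, ?_⟩
  · intro a ha b hb k hk hab hbk
    have hkT : k ∈ T := by
      rcases hG k hk with h | h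
      · exact h
      · have := (h a ha).1
        linarith
    have h1 := hD a ha b hb hab
    have h2 := hD b hb k hkT hbk
    have sa := hS a (hsub ha)
    have sb := hS b (hsub hb)
    have sk := hS k hk
    apply below_of_ends h1.ne' (F.lr' k).ne
    · intro hx
      rw [uIcc_of_le (F.lr' k).le, mem_Icc] at hx
      have := ord sa sk (hab.trans hbk) le_rfl (F.lr' a).le hx.1 hx.2
      rwa [F.L_l a] at this
    · intro hx
      rw [uIcc_of_le (F.lr' k).le, mem_Icc] at hx
      have := ord sb sk hbk le_rfl (F.lr' b).le hx.1 hx.2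
      rwa [F.L_l b] at this
    · intro hx
      rw [uIcc_of_ge h1.le, mem_Icc] at hx
      linarith
    · intro hx
      rw [uIcc_of_ge h1.le, mem_Icc] at hx
      have := Stab.lr sa sk
      linarith
  · intro a ha b hb k hk hka hab
    have h1 := hD a ha b hb hab
    have sa := hS a (hsub ha)
    have sb := hS b (hsub hb)
    have sk := hS k hk
    have e1 := F.lr' k
    rcases hG k hk with h | h
    · have h2 := hD k h a ha hka
      exact below_of_sep' (by linarith) (by linarith) (by linarith) (by linarith)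
    · have h2 := (h b hb).2
      apply below_of_ends (F.lr' k).ne h1.ne'
      · intro hx
        rw [uIcc_of_ge h1.le, mem_Icc] at hx
        linarith
      · intro hx
        rw [uIcc_of_ge h1.le, mem_Icc] at hx
        have := Stab.lr sa sk
        linarith
      · intro hx
        rw [uIcc_of_le (F.lr' k).le, mem_Icc] at hx
        have := ord sk sa hka hx.1 hx.2 le_rfl (F.lr' a).le
        rwa [F.L_l a] at this
      · intro hx
        rw [uIcc_of_le (F.lr' k).le, mem_Icc] at hx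
        have := ord sk sb (hka.trans hab) hx.1 hx.2 le_rfl (F.lr' b).le
        rwa [F.L_l b] at this
  · intro a ha b hb c hc d hd hab hbc hcd
    have h1 := hD a ha b hb hab
    have h2 := hD b hb c hc hbc
    have h3 := hD c hc d hd hcd
    exact below_of_sep' (by linarith) (by linarith) (by linarith) (by linarith)

/-- the last chord, from the chords of segments -/
lemma zc_mk {z : ι} (uc : UC F ξ G E) (pc : PC F ξ G E P t)
    (hr : ∀ k ∈ G, (F.r k).1 < (F.l z).1)
    (hs : ∀ k ∈ G, F.L k ξ < F.L t ξ → Below (F.l k) (F.r k) (F.r t) (F.l z)) :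
    ZC F ξ G P t z := by
  refine ⟨hr, hs, ?_⟩
  intro x hx
  have h1 := pc.o1 x hx
  have h2 := pc.o2 x hx
  have m1 := pc.m1 x hx
  have m2 := uc.sub (pc.m2 x hx)
  have b1 := hs _ m1 (h1.trans h2)
  have b2 := hs _ m2 h2
  have b := pc.bt x hx
  have r1 := hr _ m1
  have r2 := hr _ m2
  have rt := hr _ (uc.sub pc.tE)
  apply below_of_ends (F.r_ne (ne_of_h h1)) rt.ne
  · intro hx'
    have := b1 _ right_mem_uIcc hx'
    rwa [ch_right (F.lr' _).ne] at this
  · intro hx'
    have := b2 _ right_mem_uIcc hx'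
    rwa [ch_right (F.lr' _).ne] at this
  · intro hx'
    have := b _ hx' right_mem_uIcc
    rwa [ch_right (F.lr' _).ne] at this
  · intro hx'
    exfalso
    rw [mem_uIcc] at hx'
    rcases hx' with hx' | hx' <;> linarith

/-- the entry, first element leftmost -/
lemma wc_left {w : ι} (uc : UC F ξ G E) (pc : PC F ξ G E P t)
    (hw : ∀ k ∈ G, (F.r w).1 < (F.l k).1)
    (hl : ∀ k ∈ G, F.L (hd P t) ξ < F.L k ξ → (F.l (hd P t)).1 < (F.l k).1) :
    WC F ξ G E P t w := by
  have hG := hd_mem uc pc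
  have hwh := hw _ hG
  refine ⟨hw, ?_, ?_⟩
  · intro k hk hlt
    have h1 := hw k hk
    have h2 := hl k hk hlt
    have h3 := F.lr' k
    exact below_of_sep (by linarith) (by linarith) (by linarith) (by linarith)
  · intro a ha b hb hlt hab
    have h1 := hl a (uc.sub ha) hlt
    have h2 := hl b (uc.sub hb) (hlt.trans hab)
    exact below_of_sep (by linarith) (by linarith) (by linarith) (by linarith)

lemma thru_one (ht : t ∈ T) (hw : WL F T w) (hz : ZR F T z) : Thru F T 1 w z := by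
  have uc : UC F (F.l t).1 ({t} : Finset ι) {t} := by
    refine ⟨?_, subset_rfl, ?_, ?_, ?_⟩
    · intro k hk
      rw [Finset.mem_singleton] at hk
      subst hk
      exact ⟨le_rfl, (F.lr' k).le⟩
    · intro a ha b hb k hk hab
      rw [Finset.mem_singleton] at ha hb
      subst ha
      subst hb
      exact absurd hab (lt_irrefl _)
    · intro a ha b hb k hk hka hab
      rw [Finset.mem_singleton] at ha hb
      subst ha
      subst hb
      exact absurd hab (lt_irrefl _)
    · intro a ha b hb c hc d hd hab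
      rw [Finset.mem_singleton] at ha hb
      subst ha
      subst hb
      exact absurd hab (lt_irrefl _)
  have pc : PC F (F.l t).1 ({t} : Finset ι) {t} [] t :=
    ⟨by simp, by simp, by simp, by simp, by simp, by simp, by simp⟩
  refine ⟨[(t, true)], by simp, by simpa using ht, ?_⟩
  have hh : ∀ k ∈ ({t} : Finset ι), F.L t (F.l t).1 < F.L k (F.l t).1 → False := by
    intro k hk h
    rw [Finset.mem_singleton] at hk
    subst hk
    exact lt_irrefl _ h
  refine up_thru uc pc ?_ ?_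
  · intro z hz'
    refine zc_mk uc pc ?_ ?_
    · intro k hk
      rw [Finset.mem_singleton] at hk
      subst hk
      exact hz z hz' k ht
    · intro k hk h
      rw [Finset.mem_singleton] at hk
      subst hk
      exact absurd h (lt_irrefl _)
  · intro w hw'
    refine wc_left uc pc ?_ ?_
    · intro k hk
      rw [Finset.mem_singleton] at hk
      subst hk
      exact hw w hw' k ht
    · intro k hk h
      exact (hh k hk h).elim

lemma bt_cover {x : ι × ι} {j : ι} (s1 : F.Stab ξ x.1) (s2 : F.Stab ξ x.2) (sj : F.Stab ξ j)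
    (o : F.L x.1 ξ < F.L x.2 ξ) (oj : F.L x.2 ξ < F.L j ξ) (r1 : (F.r x.1).1 < (F.r j).1)
    (r2 : (F.r x.2).1 < (F.r j).1) : Below (F.r x.1) (F.r x.2) (F.l j) (F.r j) := by
  have a1 := Stab.lr sj s1
  have a2 := Stab.lr sj s2
  apply below_of_ends (F.r_ne (ne_of_h o)) (F.lr' j).ne
  · intro hx
    rw [uIcc_of_le (F.lr' j).le, mem_Icc] at hx
    have := ord s1 sj (o.trans oj) (F.lr' x.1).le le_rfl hx.1 hx.2
    rwa [F.L_r x.1] at this
  · intro hx
    rw [uIcc_of_le (F.lr' j).le, mem_Icc] at hx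
    have := ord s2 sj oj (F.lr' x.2).le le_rfl hx.1 hx.2
    rwa [F.L_r x.2] at this
  · intro hx
    exfalso
    rw [mem_uIcc] at hx
    rcases hx with hx | hx <;> linarith
  · intro hx
    exfalso
    rw [mem_uIcc] at hx
    rcases hx with hx | hx <;> linarith

/-- context from a list of pairs, ending inside -/
lemma pc_last (hsub : T ⊆ G) {y : ι × ι} {l : List (ι × ι)}
    (hm : ∀ x ∈ l ++ [y], x.1 ∈ T ∧ x.2 ∈ T ∧ F.L x.1 ξ < F.L x.2 ξ)
    (hp : (l ++ [y]).Pairwise (RR F ξ)) : PC F ξ G T l y.1 := by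
  rw [List.pairwise_append] at hp
  obtain ⟨hp1, hp2, hp3⟩ := hp
  have hm' : ∀ x ∈ l, x.1 ∈ T ∧ x.2 ∈ T ∧ F.L x.1 ξ < F.L x.2 ξ := fun x hx => hm x (by simp [hx])
  refine ⟨(hm y (by simp)).1, fun x hx => hsub (hm' x hx).1, fun x hx => (hm' x hx).2.1,
    fun x hx => (hm' x hx).2.2, fun x hx => (hp3 x hx y (by simp)).lt,
    fun x hx => (hp3 x hx y (by simp)).b1, ?_⟩
  exact List.Pairwise.imp_of_mem (fun {x y} hx hy h => ⟨h, (hm' y hy).1⟩) hp1

/-- context from a list of pairs, ending in an additional segment -/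
lemma pc_top [DecidableEq ι] {j : ι} {l : List (ι × ι)}
    (hS : ∀ k ∈ insert j T, F.Stab ξ k)
    (hm : ∀ x ∈ l, x.1 ∈ T ∧ x.2 ∈ T ∧ F.L x.1 ξ < F.L x.2 ξ)
    (hp : l.Pairwise (RR F ξ)) (hj : ∀ k ∈ T, F.L k ξ < F.L j ξ)
    (hr : ∀ k ∈ T, (F.r k).1 < (F.r j).1) : PC F ξ (insert j T) (insert j T) l j := by
  refine ⟨by simp, fun x hx => Finset.mem_insert_of_mem (hm x hx).1,
    fun x hx => Finset.mem_insert_of_mem (hm x hx).2.1, fun x hx => (hm x hx).2.2,
    fun x hx => hj _ (hm x hx).2.1, ?_, ?_⟩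
  · intro x hx
    obtain ⟨m1, m2, o⟩ := hm x hx
    exact bt_cover (hS _ (Finset.mem_insert_of_mem m1)) (hS _ (Finset.mem_insert_of_mem m2))
      (hS _ (Finset.mem_insert_self _ _)) o (hj _ m2) (hr _ m1) (hr _ m2)
  · exact List.Pairwise.imp_of_mem
      (fun {x y} hx hy h => ⟨h, Finset.mem_insert_of_mem (hm y hy).1⟩) hp

/-- shape A1 -/
lemma shapeA1 [DecidableEq ι] (hS : ∀ k ∈ T, F.Stab ξ k) (hU : UCh F ξ T) (hm : 1 ≤ m)
    (hc : 24 * m ≤ T.card) (hw : WL F T w) (hz : ZR F T z)
    (hz' : ∀ b ∈ z, ∀ k ∈ T, F.L k (F.l b).1 ≤ (F.l b).2) : Thru F T m w z := by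
  obtain ⟨l, h1, h2, h3⟩ := pairs F ξ T hS
  rcases l.eq_nil_or_concat with rfl | ⟨l', y, hl⟩
  · exfalso; simp at h1; omega
  · have hl' : l = l' ++ [y] := by rw [hl]; simp
    rw [hl'] at h1 h2 h3
    have uc := uc_up hS hU
    have pc := pc_last (G := T) subset_rfl h2 h3
    refine ⟨up l' y.1 [], ?_, fun s hs => mem_up_G uc pc hs, ?_⟩
    · rw [up_length]
      simp only [List.length_append, List.length_singleton] at h1
      omega
    · refine up_thru uc pc ?_ ?_
      · intro b hb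
        refine zc_mk uc pc (hz b hb) ?_
        intro k hk hkt
        exact link_seg (hS _ pc.tE) (hS k hk) hkt (hz b hb _ pc.tE) (hz b hb _ hk) (hz' b hb k hk)
      · intro a ha
        exact wc_left uc pc (hw a ha) (fun k hk h => hU _ (hd_mem uc pc) k hk h)

/-- shape A2 -/
lemma shapeA2 [DecidableEq ι] {j : ι} (hS : ∀ k ∈ insert j T, F.Stab ξ k) (hU : UCh F ξ T)
    (hc : 24 * m ≤ T.card) (hm : 1 ≤ m)
    (hj : ∀ k ∈ T, F.L k ξ < F.L j ξ) (hl : ∀ k ∈ T, (F.l k).1 < (F.l j).1)
    (hr : ∀ k ∈ T, (F.r k).1 < (F.r j).1)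
    (hw : WL F (insert j T) w) (hz : ZR F (insert j T) z) : Thru F (insert j T) m w z := by
  have hS' : ∀ k ∈ T, F.Stab ξ k := fun k hk => hS k (Finset.mem_insert_of_mem hk)
  obtain ⟨l, h1, h2, h3⟩ := pairs F ξ T hS'
  have hU' : UCh F ξ (insert j T) := by
    intro a ha b hb hab
    rw [Finset.mem_insert] at ha hb
    rcases ha with rfl | ha
    · rcases hb with rfl | hb
      · exact absurd hab (lt_irrefl _)
      · have := hj b hb; linarith
    · rcases hb with rfl | hb
      · exact hl a ha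
      · exact hU a ha b hb hab
  have uc := uc_up hS hU'
  have pc := pc_top hS h2 h3 hj hr
  refine ⟨up l j [], ?_, fun s hs => mem_up_G uc pc hs, ?_⟩
  · rw [up_length]; omega
  · refine up_thru uc pc ?_ ?_
    · intro b hb
      refine zc_mk uc pc (hz b hb) ?_
      intro k hk hkt
      rw [Finset.mem_insert] at hk
      rcases hk with rfl | hk
      · exact absurd hkt (lt_irrefl _)
      · have e1 := hr k hk
        have e2 := hz b hb j (by simp)
        have e3 := F.lr' k
        exact below_of_sep (by linarith) (by linarith) (by linarith) (by linarith)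
    · intro a ha
      exact wc_left uc pc (hw a ha) (fun k hk h => hU' _ (hd_mem uc pc) k hk h)

end Pool.Agent.H279R2.Alt
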