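import Mathlib
import Pool.Agent.H279R2.Alt3

set_option autoImplicit false

namespace Pool.Agent.H279R2.Alt

open Set Pool.Agent.Helper650.AP

variable {ι : Type*}

variable {F : Fam ι} {ξ : ℝ} {G E T : Finset ι} {P : List (ι × ι)} {t : ι} {m : ℕ}
  {w z : Option ι}

lemma uc_a3 [DecidableEq ι] {j : ι} (hS : ∀ k ∈ insert j T, F.Stab ξ k) (hU : UCh F ξ T)
    (hj : ∀ k ∈ T, F.L k ξ < F.L j ξ) (hl : ∀ k ∈ T, (F.l j).1 < (F.l k).1)
    (hab : ∀ k ∈ T, F.L k (F.l j).1 < (F.l j).2) : UC F ξ (insert j T) (insert j T) := by
  have hS' : ∀ k ∈ T, F.Stab ξ k := fun k hk => hS k (Finset.mem_insert_of_mem hk)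
  have sj : F.Stab ξ j := hS j (Finset.mem_insert_self _ _)
  have uT := uc_up hS' hU
  have low : ∀ a ∈ insert j T, ∀ b ∈ insert j T, F.L a ξ < F.L b ξ → a ∈ T := by
    intro a ha b hb hlt
    rw [Finset.mem_insert] at ha hb
    rcases ha with rfl | ha
    · exfalso
      rcases hb with rfl | hb
      · exact lt_irrefl _ hlt
      · have := hj b hb; linarith
    · exact ha
  have L2 : ∀ a ∈ insert j T, ∀ b ∈ insert j T, ∀ k ∈ insert j T, F.L k ξ < F.L a ξ →
      F.L a ξ < F.L b ξ → Below (F.l k) (F.r k) (F.l a) (F.l b) := by
    intro a ha b hb k hk hka hab'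
    have haT := low a ha b hb hab'
    have hkT := low k hk a ha hka
    have sa := hS' a haT
    have sk := hS' k hkT
    rw [Finset.mem_insert] at hb
    rcases hb with rfl | hbT
    · have la := hl a haT
      apply below_of_ends (F.lr' k).ne la.ne'
      · intro hx
        rw [uIcc_of_ge la.le, mem_Icc] at hx
        rw [← F.L_l k]
        apply ch_lt (α := (F.l b).1) (β := (F.l a).1) hx.1 hx.2
        · rw [ch_right la.ne']
          exact hab k hkT
        · rw [ch_left]
          have := ord sk sa hka (hU k hkT a haT hka).le (Stab.lr sa sk).le le_rfl (F.lr' a).le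
          rwa [F.L_l a] at this
      · intro hx
        rw [uIcc_of_ge la.le, mem_Icc] at hx
        have := Stab.lr sa sk
        linarith
      · intro hx
        rw [uIcc_of_le (F.lr' k).le, mem_Icc] at hx
        have := ord sk sa hka hx.1 hx.2 le_rfl (F.lr' a).le
        rwa [F.L_l a] at this
      · intro hx
        rw [uIcc_of_le (F.lr' k).le, mem_Icc] at hx
        have := hl k hkT
        linarith
    · exact uT.L2 a haT b hbT k hkT hka hab'
  refine ⟨hS, subset_rfl, ?_, L2, ?_⟩
  · intro a ha b hb k hk hab' hbk
    have haT := low a ha b hb hab'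
    have hbT := low b hb k hk hbk
    rw [Finset.mem_insert] at hk
    rcases hk with rfl | hk
    · have la := hl a haT
      have lb := hl b hbT
      have sa := hS' a haT
      have sb := hS' b hbT
      have a1 := Stab.lr sa sj
      have b1 := Stab.lr sb sj
      apply below_of_ends (F.l_ne (ne_of_h hab')) (F.lr' k).ne
      · intro hx
        rw [uIcc_of_le (F.lr' k).le, mem_Icc] at hx
        have := ord sa sj (hab'.trans hbk) le_rfl (F.lr' a).le hx.1 hx.2
        rwa [F.L_l a] at this
      · intro hx
        rw [uIcc_of_le (F.lr' k).le, mem_Icc] at hx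
        have := ord sb sj hbk le_rfl (F.lr' b).le hx.1 hx.2
        rwa [F.L_l b] at this
      · intro hx
        exfalso
        rw [mem_uIcc] at hx
        rcases hx with hx | hx <;> linarith
      · intro hx
        exfalso
        rw [mem_uIcc] at hx
        rcases hx with hx | hx <;> linarith
    · exact uT.L1 a haT b hbT k hk hab' hbk
  · intro a ha b hb c hc d hd hab' hbc hcd
    have haT := low a ha b hb hab'
    have hbT := low b hb c hc hbc
    have hcT := low c hc d hd hcd
    have lac := hU a haT b hbT hab'
    have lbc := hU b hbT c hcT hbc
    have la := hl a haT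
    have la2 := F.lr' a
    have lb2 := F.lr' b
    have b1 := L2 c hc d hd a ha (hab'.trans hbc) hcd
    have b2 := L2 c hc d hd b hb hbc hcd
    rw [Finset.mem_insert] at hd
    rcases hd with rfl | hd
    · have lc := hl c hcT
      apply below_of_ends lac.ne lc.ne'
      · intro hx
        have := b1 _ left_mem_uIcc hx
        rwa [ch_left] at this
      · intro hx
        have := b2 _ left_mem_uIcc hx
        rwa [ch_left] at this
      · intro hx
        exfalso
        rw [mem_uIcc] at hx
        rcases hx with hx | hx <;> linarith
      · intro hx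
        exfalso
        rw [mem_uIcc] at hx
        rcases hx with hx | hx <;> linarith
    · exact uT.L3 a haT b hbT c hcT d hd hab' hbc hcd

/-- shape A3 -/
lemma shapeA3 [DecidableEq ι] {j : ι} (hS : ∀ k ∈ insert j T, F.Stab ξ k) (hU : UCh F ξ T)
    (hc : 24 * m ≤ T.card) (hm : 1 ≤ m)
    (hj : ∀ k ∈ T, F.L k ξ < F.L j ξ) (hl : ∀ k ∈ T, (F.l j).1 < (F.l k).1)
    (hr : ∀ k ∈ T, (F.r k).1 < (F.r j).1)
    (hab : ∀ k ∈ T, F.L k (F.l j).1 < (F.l j).2)
    (hw : WL F (insert j T) w) (hz : ZR F (insert j T) z)
    (hw' : ∀ a ∈ w, ∀ k ∈ T, (F.r a).2 ≤ F.L k (F.r a).1) : Thru F (insert j T) m w z := by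
  have hS' : ∀ k ∈ T, F.Stab ξ k := fun k hk => hS k (Finset.mem_insert_of_mem hk)
  have sj : F.Stab ξ j := hS j (Finset.mem_insert_self _ _)
  obtain ⟨l, h1, h2, h3⟩ := pairs F ξ T hS'
  have uc := uc_a3 hS hU hj hl hab
  have pc := pc_top hS h2 h3 hj hr
  refine ⟨up l j [], ?_, fun s hs => mem_up_G uc pc hs, ?_⟩
  · rw [up_length]; omega
  · refine up_thru uc pc ?_ ?_
    · intro b hb
      refine zc_mk uc pc (hz b hb) ?_
      intro k hk hkt
      rw [Finset.mem_insert] at hk
      rcases hk with rfl | hk
      · exact absurd hkt (lt_irrefl _)
      · have e1 := hr k hk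
        have e2 := hz b hb j (by simp)
        have e3 := F.lr' k
        exact below_of_sep (by linarith) (by linarith) (by linarith) (by linarith)
    · intro a ha
      -- the first element is in `T`
      cases l with
      | nil => exfalso; simp at h1; omega
      | cons x l =>
        have hxT : x.1 ∈ T := (h2 x (by simp)).1
        have wx := hw a ha x.1 (Finset.mem_insert_of_mem hxT)
        have wj := hw a ha j (Finset.mem_insert_self _ _)
        have lx := hl _ hxT
        have sx := hS' _ hxT
        have hxj := hj _ hxT
        -- the entry edge is weakly below the line of the first segment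
        have key : ∀ y, (F.r a).1 ≤ y → y ≤ (F.l x.1).1 → ch (F.r a) (F.l x.1) y ≤ F.L x.1 y := by
          intro y y1 y2
          apply ch_le y1 y2
          · rw [ch_left]
            exact hw' a ha _ hxT
          · rw [ch_right wx.ne, ch_left]
        have low : ∀ b ∈ insert j T, ∀ d ∈ insert j T, F.L b ξ < F.L d ξ → b ∈ T := by
          intro b hb d hd hlt
          rw [Finset.mem_insert] at hb hd
          rcases hb with rfl | hb
          · exfalso
            rcases hd with rfl | hd
            · exact lt_irrefl _ hlt
            · have := hj d hd; linarith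
          · exact hb
        refine ⟨hw a ha, ?_, ?_⟩
        · intro k hk hlt
          simp only [hd] at hlt ⊢
          rw [Finset.mem_insert] at hk
          rcases hk with rfl | hk
          · apply below_of_ends wx.ne (F.lr' k).ne
            · intro hx
              rw [uIcc_of_le (F.lr' k).le, mem_Icc] at hx
              linarith
            · intro hx
              rw [uIcc_of_le (F.lr' k).le, mem_Icc] at hx
              have := ord sx sj hlt le_rfl (F.lr' _).le hx.1 hx.2
              rwa [F.L_l x.1] at this
            · intro hx
              rw [uIcc_of_le wx.le, mem_Icc] at hx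
              exact lt_of_le_of_lt (key _ hx.1 hx.2) (hab _ hxT)
            · intro hx
              rw [uIcc_of_le wx.le, mem_Icc] at hx
              have := Stab.lr sx sj
              linarith
          · have e1 := hU _ hxT _ hk hlt
            have e2 := F.lr' k
            exact below_of_sep (by linarith) (by linarith) (by linarith) (by linarith)
        · intro b hb d hd' hlt hbd
          simp only [hd] at hlt ⊢
          have hbT := low b hb d hd' hbd
          have e1 := hU _ hxT _ hbT hlt
          have l2 := uc.L2 b hb d hd' x.1 (Finset.mem_insert_of_mem hxT) hlt hbd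
          rw [Finset.mem_insert] at hd'
          rcases hd' with rfl | hd'
          · have lb := hl _ hbT
            apply below_of_ends wx.ne lb.ne'
            · intro hx
              rw [uIcc_of_ge lb.le, mem_Icc] at hx
              linarith
            · intro hx
              have := l2 _ left_mem_uIcc hx
              rwa [ch_left] at this
            · intro hx
              rw [uIcc_of_le wx.le, mem_Icc] at hx
              linarith
            · intro hx
              rw [uIcc_of_le wx.le, mem_Icc] at hx
              exact lt_of_le_of_lt (key _ hx.1 hx.2) (hab _ hxT)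
          · have e2 := hU _ hbT _ hd' hbd
            exact below_of_sep (by linarith) (by linarith) (by linarith) (by linarith)

/-- shape A5 (for a `D`-chain) -/
lemma shapeA5 [DecidableEq ι] (hS : ∀ k ∈ T, F.Stab ξ k) (hD : DCh F ξ T) (hm : 1 ≤ m)
    (hc : 24 * m ≤ T.card) (hw : WL F T w) (hz : ZR F T z)
    (hw' : ∀ a ∈ w, ∀ k ∈ T, (F.r a).2 ≤ F.L k (F.r a).1)
    (hz' : ∀ b ∈ z, ∀ k ∈ T, F.L k (F.l b).1 ≤ (F.l b).2) : Thru F T m w z := by
  obtain ⟨l, h1, h2, h3⟩ := pairs F ξ T hS
  rcases l.eq_nil_or_concat with rfl | ⟨l', y, hl⟩
  · exfalso; simp at h1; omega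
  · have hl' : l = l' ++ [y] := by rw [hl]; simp
    rw [hl'] at h1 h2 h3
    have uc := uc_down hS subset_rfl hD (fun k hk => Or.inl hk)
    have pc := pc_last (G := T) subset_rfl h2 h3
    refine ⟨up l' y.1 [], ?_, fun s hs => mem_up_G uc pc hs, ?_⟩
    · rw [up_length]
      simp only [List.length_append, List.length_singleton] at h1
      omega
    · refine up_thru uc pc ?_ ?_
      · intro b hb
        refine zc_mk uc pc (hz b hb) ?_
        intro k hk hkt
        exact link_seg (hS _ pc.tE) (hS k hk) hkt (hz b hb _ pc.tE) (hz b hb _ hk) (hz' b hb k hk)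
      · intro a ha
        have hhT := hd_mem uc pc
        obtain ⟨e, he⟩ : ∃ e, e = hd l' y.1 := ⟨_, rfl⟩
        have hwe := hw a ha e (he ▸ hhT)
        rw [← he] at hhT
        have se := hS _ hhT
        have key : ∀ k ∈ T, F.L e ξ < F.L k ξ → Below (F.r a) (F.l e) (F.l k) (F.r k) := by
          intro k hk hlt
          have wk := hw a ha k hk
          have dk := hD e hhT k hk hlt
          have sk := hS k hk
          apply below_of_ends hwe.ne (F.lr' k).ne
          · intro hx
            rw [uIcc_of_le (F.lr' k).le, mem_Icc] at hx
            linarith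
          · intro hx
            rw [uIcc_of_le (F.lr' k).le, mem_Icc] at hx
            have := ord se sk hlt le_rfl (F.lr' _).le hx.1 hx.2
            rwa [F.L_l e] at this
          · intro hx
            rw [← F.L_l k]
            apply ch_lt'' (α := (F.r a).1) (β := (F.l e).1) wk dk.le
            · rw [ch_left]
              exact hw' a ha k hk
            · rw [ch_right hwe.ne]
              have := ord se sk hlt le_rfl (F.lr' _).le dk.le (Stab.lr se sk).le
              rwa [F.L_l e] at this
          · intro hx
            rw [uIcc_of_le hwe.le, mem_Icc] at hx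
            have := Stab.lr se sk
            linarith
        refine ⟨hw a ha, ?_, ?_⟩
        · rw [← he]; exact key
        · rw [← he]
          intro b hb d hd' hlt hbd
          have kb := key b hb hlt
          have kd := key d hd' (hlt.trans hbd)
          have wb := hw a ha b hb
          have wd := hw a ha d hd'
          have db := hD e hhT b hb hlt
          have dd := hD b hb d hd' hbd
          apply below_of_ends hwe.ne dd.ne'
          · intro hx
            rw [uIcc_of_ge dd.le, mem_Icc] at hx
            linarith
          · intro hx
            rw [uIcc_of_ge dd.le, mem_Icc] at hx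
            linarith
          · intro hx
            have := kb _ hx left_mem_uIcc
            rwa [ch_left] at this
          · intro hx
            have := kd _ hx left_mem_uIcc
            rwa [ch_left] at this

/-- shape A4 (for a `D`-chain) -/
lemma shapeA4 [DecidableEq ι] {j : ι} (hS : ∀ k ∈ insert j T, F.Stab ξ k) (hD : DCh F ξ T)
    (hc : 24 * m ≤ T.card) (hm : 1 ≤ m)
    (hj : ∀ k ∈ T, F.L j ξ < F.L k ξ) (hl : ∀ k ∈ T, (F.l j).1 < (F.l k).1)
    (hr : (∀ k ∈ T, (F.r j).1 < (F.r k).1) ∨
      (∀ k ∈ T, (F.r k).1 < (F.r j).1 ∧ (F.r j).2 ≤ F.L k (F.r j).1))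
    (hw : WL F (insert j T) w) (hz : ZR F (insert j T) z)
    (hz' : ∀ b ∈ z, ∀ k ∈ T, F.L k (F.l b).1 < (F.l b).2) : Thru F (insert j T) m w z := by
  rcases Nat.lt_or_ge m 2 with hm2 | hm2
  · exact (thru_one (Finset.mem_insert_self j T) hw hz).mono subset_rfl (by omega)
  have hS' : ∀ k ∈ T, F.Stab ξ k := fun k hk => hS k (Finset.mem_insert_of_mem hk)
  have sj : F.Stab ξ j := hS j (Finset.mem_insert_self _ _)
  obtain ⟨l, h1, h2, h3⟩ := pairs F ξ T hS'
  have uc : UC F ξ (insert j T) T := by
    refine uc_down hS (Finset.subset_insert _ _) hD ?_
    intro k hk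
    rw [Finset.mem_insert] at hk
    rcases hk with rfl | hk
    · right; exact fun a ha => ⟨hj a ha, hl a ha⟩
    · left; exact hk
  cases l with
  | nil => exfalso; simp at h1; omega
  | cons x l =>
    rcases l.eq_nil_or_concat with rfl | ⟨l', y, hll⟩
    · exfalso; simp at h1; omega
    · have hl' : l = l' ++ [y] := by rw [hll]; simp
      rw [hl'] at h1 h2 h3
      have h2t : ∀ u ∈ l' ++ [y], u.1 ∈ T ∧ u.2 ∈ T ∧ F.L u.1 ξ < F.L u.2 ξ :=
        fun u hu => h2 u (List.mem_cons_of_mem _ hu)
      have h3t := (List.pairwise_cons.mp h3).2
      have h3x := (List.pairwise_cons.mp h3).1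
      have pc0 := pc_last (G := insert j T) (Finset.subset_insert _ _) h2t h3t
      obtain ⟨hx1, hx2, hxx⟩ := h2 x (by simp)
      have sc := hS' _ hx2
      have hjc := hj _ hx2
      -- the bottom chord
      have low : ∀ k ∈ T, F.L x.2 ξ < F.L k ξ → Below (F.r j) (F.r x.2) (F.l k) (F.r k) := by
        intro k hk hck
        have sk := hS' k hk
        have skj := Stab.lr sk sj
        have skc := Stab.lr sk sc
        rcases hr with hr | hr
        · have r1 := hr _ hx2
          have r2 := hr k hk
          apply below_of_ends r1.ne (F.lr' k).ne
          · intro hx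
            rw [uIcc_of_le (F.lr' k).le, mem_Icc] at hx
            have := ord sj sk (hjc.trans hck) (F.lr' j).le le_rfl hx.1 hx.2
            rwa [F.L_r j] at this
          · intro hx
            rw [uIcc_of_le (F.lr' k).le, mem_Icc] at hx
            have := ord sc sk hck (F.lr' x.2).le le_rfl hx.1 hx.2
            rwa [F.L_r x.2] at this
          · intro hx
            rw [uIcc_of_le r1.le, mem_Icc] at hx
            linarith
          · intro hx
            rw [uIcc_of_le r1.le, mem_Icc] at hx
            have e1 : ch (F.r j) (F.r x.2) (F.r k).1 ≤ F.L x.2 (F.r k).1 := by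
              apply ch_le hx.1 hx.2
              · rw [ch_left]
                have := ord sj sc hjc (F.lr' j).le le_rfl (Stab.lr sc sj).le r1.le
                rw [F.L_r j] at this
                exact this.le
              · rw [ch_right r1.ne, ch_right (F.lr' _).ne]
            have e2 := ord sc sk hck (Stab.lr sc sk).le hx.2 (F.lr' k).le le_rfl
            rw [F.L_r k] at e2
            exact lt_of_le_of_lt e1 e2
        · have r1 := (hr _ hx2).1
          have r2 := (hr k hk).1
          apply below_of_ends r1.ne' (F.lr' k).ne
          · intro hx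
            rw [uIcc_of_le (F.lr' k).le, mem_Icc] at hx
            linarith
          · intro hx
            rw [uIcc_of_le (F.lr' k).le, mem_Icc] at hx
            have := ord sc sk hck (F.lr' x.2).le le_rfl hx.1 hx.2
            rwa [F.L_r x.2] at this
          · intro hx
            rw [uIcc_of_ge r1.le, mem_Icc] at hx
            linarith
          · intro hx
            rw [uIcc_of_ge r1.le, mem_Icc] at hx
            rw [← F.L_r k]
            apply ch_lt' (α := (F.r x.2).1) (β := (F.r j).1) hx.1 r2
            · rw [ch_right r1.ne']
              have := ord sc sk hck (F.lr' x.2).le le_rfl skc.le hx.1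
              rwa [F.L_r x.2] at this
            · rw [ch_left]
              exact (hr k hk).2
      have low2 : ∀ u ∈ l', Below (F.l j) (F.r j) (F.r u.1) (F.r u.2) := by
        intro u hu
        obtain ⟨u1, u2, uu⟩ := h2t u (by simp [hu])
        have su1 := hS' _ u1
        have su2 := hS' _ u2
        have a1 := Stab.lr sj su1
        have a2 := Stab.lr sj su2
        rcases hr with hr | hr
        · exact below_of_sep a1 a2 (hr _ u1) (hr _ u2)
        · have b1 := (hr _ u1).1
          have b2 := (hr _ u2).1
          apply below_of_ends (F.lr' j).ne (F.r_ne (ne_of_h uu))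
          · intro hx
            exfalso
            rw [mem_uIcc] at hx
            rcases hx with hx | hx <;> linarith
          · intro hx
            exfalso
            rw [mem_uIcc] at hx
            rcases hx with hx | hx <;> linarith
          · intro hx
            rw [uIcc_of_le (F.lr' j).le, mem_Icc] at hx
            have := ord sj su1 (hj _ u1) hx.1 hx.2 (F.lr' _).le le_rfl
            rwa [F.L_r u.1] at this
          · intro hx
            rw [uIcc_of_le (F.lr' j).le, mem_Icc] at hx
            have := ord sj su2 (hj _ u2) hx.1 hx.2 (F.lr' _).le le_rfl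
            rwa [F.L_r u.2] at this
      have hlt : ∀ u ∈ l' ++ [y], RR F ξ x u := h3x
      have pc : PC F ξ (insert j T) T ((j, x.2) :: l') y.1 := by
        refine ⟨pc0.tE, ?_, ?_, ?_, ?_, ?_, ?_⟩
        · intro u hu
          rw [List.mem_cons] at hu
          rcases hu with rfl | hu
          · simp
          · exact pc0.m1 u hu
        · intro u hu
          rw [List.mem_cons] at hu
          rcases hu with rfl | hu
          · exact hx2
          · exact pc0.m2 u hu
        · intro u hu
          rw [List.mem_cons] at hu
          rcases hu with rfl | hu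
          · exact hjc
          · exact pc0.o1 u hu
        · intro u hu
          rw [List.mem_cons] at hu
          rcases hu with rfl | hu
          · exact (hlt y (by simp)).lt
          · exact pc0.o2 u hu
        · intro u hu
          rw [List.mem_cons] at hu
          rcases hu with rfl | hu
          · exact low _ (h2t y (by simp)).1 (hlt y (by simp)).lt
          · exact pc0.bt u hu
        · rw [List.pairwise_cons]
          refine ⟨?_, pc0.pw⟩
          intro u hu
          obtain ⟨u1, u2, uu⟩ := h2t u (by simp [hu])
          have hu' := hlt u (by simp [hu])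
          exact ⟨⟨hu'.lt, low _ u1 hu'.lt, low _ u2 (hu'.lt.trans uu), low2 u hu, hu'.b4⟩, u1⟩
      refine ⟨up ((j, x.2) :: l') y.1 [], ?_, fun s hs => mem_up_G uc pc hs, ?_⟩
      · rw [up_length]
        simp only [List.length_append, List.length_nil, List.length_cons] at h1 ⊢
        omega
      · refine up_thru uc pc ?_ ?_
        · intro b hb
          refine zc_mk uc pc (hz b hb) ?_
          have tT := pc.tE
          have st := hS' _ tT
          have zt := hz b hb _ (Finset.mem_insert_of_mem tT)
          intro k hk hkt
          rw [Finset.mem_insert] at hk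
          rcases hk with rfl | hk
          · have zk := hz b hb k (Finset.mem_insert_self _ _)
            rcases hr with hr | hr
            · exact below_of_sep (Stab.lr sj st) (by have := F.lr' k; linarith) (hr _ tT) zk
            · have r1 := (hr _ tT).1
              apply below_of_ends (F.lr' k).ne zt.ne
              · intro hx
                rw [uIcc_of_le zt.le, mem_Icc] at hx
                have := Stab.lr sj st
                linarith
              · intro hx
                refine lt_of_le_of_lt (hr _ tT).2 ?_
                apply ch_lt'' (α := (F.r y.1).1) (β := (F.l b).1) r1 zk.le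
                · rw [ch_left, ch_right (F.lr' _).ne]
                · rw [ch_right zt.ne]
                  exact hz' b hb _ tT
              · intro hx
                rw [uIcc_of_le (F.lr' k).le, mem_Icc] at hx
                have := ord sj st hkt hx.1 hx.2 (F.lr' _).le le_rfl
                rwa [F.L_r y.1] at this
              · intro hx
                rw [uIcc_of_le (F.lr' k).le, mem_Icc] at hx
                linarith
          · exact link_seg st (hS' k hk) hkt zt (hz b hb _ (Finset.mem_insert_of_mem hk))
              (hz' b hb k hk).le
        · intro a ha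
          refine wc_left uc pc (hw a ha) ?_
          intro k hk hlt
          simp only [hd] at hlt ⊢
          rw [Finset.mem_insert] at hk
          rcases hk with rfl | hk
          · exact absurd hlt (lt_irrefl _)
          · exact hl k hk

end Pool.Agent.H279R2.Alt
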