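import Mathlib
import Pool.Agent.H279R2.Alt4

set_option autoImplicit false

namespace Pool.Agent.H279R2.Alt

open Set Pool.Agent.Helper650.AP

variable {ι : Type*}

variable {F : Fam ι} {ξ : ℝ} {G T : Finset ι} {m : ℕ}

/-- in any context (left and right terminals) there is a good list through `T` with `m` elements -/
def V2 (F : Fam ι) (T : Finset ι) (m : ℕ) : Prop :=
  ∀ w z : Option ι, WL F T w → ZR F T z → Thru F T m w z

lemma v2_flip : V2 F.flip T m ↔ V2 F T m := by
  constructor
  · intro h w z hw hz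
    exact thru_flip.mp (h w z hw hz)
  · intro h w z hw hz
    exact thru_flip.mpr (h w z hw hz)

lemma v2_one {t : ι} (ht : t ∈ T) : V2 F T 1 := fun _ _ hw hz => thru_one ht hw hz

lemma V2.anti {m' : ℕ} (h : V2 F T m) (hm : m' ≤ m) : V2 F T m' :=
  fun w z hw hz => (h w z hw hz).mono subset_rfl hm

lemma WL.mono {T' : Finset ι} {w : Option ι} (h : WL F T w) (hT : T' ⊆ T) : WL F T' w :=
  fun a ha k hk => h a ha k (hT hk)

lemma ZR.mono {T' : Finset ι} {z : Option ι} (h : ZR F T z) (hT : T' ⊆ T) : ZR F T' z :=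
  fun a ha k hk => h a ha k (hT hk)

/-- a `U`-chain can be traversed without terminals -/
lemma thru_chain [DecidableEq ι] (hS : ∀ k ∈ T, F.Stab ξ k) (hU : UCh F ξ T) (hm : 1 ≤ m)
    (hc : 24 * m ≤ T.card) : ∃ l, Good F.p l ∧ m ≤ l.length := by
  obtain ⟨A, h1, _, h3⟩ := shapeA1 (w := none) (z := none) hS hU hm hc (fun a ha => by simp at ha)
    (fun a ha => by simp at ha) (fun a ha => by simp at ha)
  refine ⟨A, ?_, h1⟩
  simpa using h3

/-- `U`-chains of the group lie low: key configuration lemma -/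
lemma config [DecidableEq ι] {j : ι} {Γ : Finset ι} (hS : ∀ k ∈ insert j Γ, F.Stab ξ k)
    (hU : UCh F ξ Γ) (hj : ∀ k ∈ Γ, F.L k ξ < F.L j ξ)
    (hcov : ∀ k ∈ Γ, (F.l j).1 < (F.l k).1 ∨ (F.r k).1 < (F.r j).1)
    (hc : 144 * m ≤ Γ.card) (hm : 1 ≤ m) : V2 F (insert j Γ) m := by
  classical
  intro w z hw hz
  have sj := hS j (Finset.mem_insert_self _ _)
  have jn : j ∉ Γ := fun h => lt_irrefl _ (hj j h)
  -- the classes
  set C1 := Γ.filter (fun k => ∀ b ∈ z, F.L k (F.l b).1 ≤ (F.l b).2) with hC1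
  set Γ1 := Γ.filter (fun k => ¬ ∀ b ∈ z, F.L k (F.l b).1 ≤ (F.l b).2) with hΓ1
  set C2 := Γ1.filter (fun k => ∃ a ∈ w, F.L k (F.r a).1 ≤ (F.r a).2) with hC2
  set Γ2 := Γ1.filter (fun k => ¬ ∃ a ∈ w, F.L k (F.r a).1 ≤ (F.r a).2) with hΓ2
  set C3 := Γ2.filter (fun k => (F.l k).1 < (F.l j).1) with hC3
  set Γ3 := Γ2.filter (fun k => ¬ (F.l k).1 < (F.l j).1) with hΓ3
  set C4 := Γ3.filter (fun k => (F.r j).1 < (F.r k).1) with hC4
  set Γ4 := Γ3.filter (fun k => ¬ (F.r j).1 < (F.r k).1) with hΓ4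
  set C5 := Γ4.filter (fun k => F.L k (F.r j).1 ≤ (F.r j).2) with hC5
  set C6 := Γ4.filter (fun k => ¬ F.L k (F.r j).1 ≤ (F.r j).2) with hC6
  have s1 : C1.card + Γ1.card = Γ.card := Finset.card_filter_add_card_filter_not _
  have s2 : C2.card + Γ2.card = Γ1.card := Finset.card_filter_add_card_filter_not _
  have s3 : C3.card + Γ3.card = Γ2.card := Finset.card_filter_add_card_filter_not _
  have s4 : C4.card + Γ4.card = Γ3.card := Finset.card_filter_add_card_filter_not _
  have s5 : C5.card + C6.card = Γ4.card := Finset.card_filter_add_card_filter_not _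
  have hΓ1' : Γ1 ⊆ Γ := Finset.filter_subset _ _
  have hΓ2' : Γ2 ⊆ Γ := (Finset.filter_subset _ _).trans hΓ1'
  have hΓ3' : Γ3 ⊆ Γ := (Finset.filter_subset _ _).trans hΓ2'
  have hΓ4' : Γ4 ⊆ Γ := (Finset.filter_subset _ _).trans hΓ3'
  have q1 : C1 ⊆ Γ := Finset.filter_subset _ _
  have q2 : C2 ⊆ Γ := (Finset.filter_subset _ _).trans hΓ1'
  have q3 : C3 ⊆ Γ := (Finset.filter_subset _ _).trans hΓ2'
  have q4 : C4 ⊆ Γ := (Finset.filter_subset _ _).trans hΓ3'
  have q5 : C5 ⊆ Γ := (Finset.filter_subset _ _).trans hΓ4'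
  have q6 : C6 ⊆ Γ := (Finset.filter_subset _ _).trans hΓ4'
  have ins : ∀ {C : Finset ι}, C ⊆ Γ → insert j C ⊆ insert j Γ :=
    fun h => Finset.insert_subset_insert _ h
  have sub : ∀ {C : Finset ι}, C ⊆ Γ → C ⊆ insert j Γ :=
    fun h => h.trans (Finset.subset_insert _ _)
  -- facts about the classes
  have f1 : ∀ k ∈ Γ1, k ∈ Γ ∧ ∀ b ∈ z, (F.l b).2 < F.L k (F.l b).1 := by
    intro k hk
    rw [hΓ1, Finset.mem_filter] at hk
    refine ⟨hk.1, ?_⟩
    have := hk.2
    push Not at this
    obtain ⟨b, hb, h⟩ := this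
    intro b' hb'
    have : b' = b := by
      rw [Option.mem_def] at hb hb'
      rw [hb] at hb'
      exact (Option.some.inj hb').symm
    rw [this]; exact h
  have f2 : ∀ k ∈ Γ2, k ∈ Γ1 ∧ ∀ a ∈ w, (F.r a).2 < F.L k (F.r a).1 := by
    intro k hk
    rw [hΓ2, Finset.mem_filter] at hk
    refine ⟨hk.1, ?_⟩
    have := hk.2
    push Not at this
    exact this
  have f3 : ∀ k ∈ Γ3, k ∈ Γ2 ∧ (F.l j).1 < (F.l k).1 := by
    intro k hk
    rw [hΓ3, Finset.mem_filter] at hk
    refine ⟨hk.1, ?_⟩
    have h := hΓ2' hk.1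
    have hne : j ≠ k := fun e => jn (e ▸ h)
    exact lt_of_le_of_ne (not_lt.mp hk.2) (F.l_ne hne)
  have f4 : ∀ k ∈ Γ4, k ∈ Γ3 ∧ (F.r k).1 < (F.r j).1 := by
    intro k hk
    rw [hΓ4, Finset.mem_filter] at hk
    refine ⟨hk.1, ?_⟩
    have h := hΓ3' hk.1
    have hne : k ≠ j := fun e => jn (e ▸ h)
    exact lt_of_le_of_ne (not_lt.mp hk.2) (F.r_ne hne)
  -- one class is large
  have hbig : 24 * m ≤ C1.card ∨ 24 * m ≤ C2.card ∨ 24 * m ≤ C3.card ∨ 24 * m ≤ C4.card ∨
      24 * m ≤ C5.card ∨ 24 * m ≤ C6.card := by omega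
  rcases hbig with h | h | h | h | h | h
  · -- z above
    refine Thru.mono (shapeA1 (T := C1) (fun k hk => hS k (sub q1 hk)) (hU.mono q1) hm h
      (hw.mono (sub q1)) (hz.mono (sub q1)) ?_) (sub q1) le_rfl
    intro b hb k hk
    rw [hC1, Finset.mem_filter] at hk
    exact hk.2 b hb
  · -- z below, w above
    refine Thru.mono (thru_flip.mp (shapeA5 (F := F.flip) (T := C2) (ξ := ξ)
      (fun k hk => flip_stab.mpr (hS k (sub q2 hk))) (dch_flip.mpr (hU.mono q2)) hm h
      (hw.mono (sub q2)) (hz.mono (sub q2)) ?_ ?_)) (sub q2) le_rfl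
    · intro a ha k hk
      rw [hC2, Finset.mem_filter] at hk
      obtain ⟨a', ha', h'⟩ := hk.2
      have : a' = a := by
        rw [Option.mem_def] at ha ha'
        rw [ha] at ha'
        exact (Option.some.inj ha').symm
      rw [this] at h'
      rw [flip_L, flip_r, fl_fst, fl_snd]
      linarith
    · intro b hb k hk
      rw [hC2, Finset.mem_filter] at hk
      have := (f1 k hk.1).2 b hb
      rw [flip_L, flip_l, fl_fst, fl_snd]
      linarith
  · refine Thru.mono (shapeA2 (T := C3) (fun k hk => hS k (ins q3 hk)) (hU.mono q3) h hm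
      (fun k hk => hj k (q3 hk)) ?_ ?_ (hw.mono (ins q3)) (hz.mono (ins q3))) (ins q3) le_rfl
    · intro k hk
      rw [hC3, Finset.mem_filter] at hk
      exact hk.2
    · intro k hk
      have hk' := hk
      rw [hC3, Finset.mem_filter] at hk'
      rcases hcov k (q3 hk) with h' | h'
      · exact absurd h' (not_lt.mpr hk'.2.le)
      · exact h'
  · refine Thru.mono (thru_flip.mp (shapeA4 (F := F.flip) (T := C4) (ξ := ξ)
      (fun k hk => flip_stab.mpr (hS k (ins q4 hk))) (dch_flip.mpr (hU.mono q4)) h hm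
      ?_ ?_ (Or.inl ?_) (hw.mono (ins q4)) (hz.mono (ins q4)) ?_)) (ins q4) le_rfl
    · intro k hk
      rw [flip_L, flip_L]
      have := hj k (q4 hk)
      linarith
    · intro k hk
      rw [hC4, Finset.mem_filter] at hk
      exact (f3 k hk.1).2
    · intro k hk
      rw [hC4, Finset.mem_filter] at hk
      exact hk.2
    · intro b hb k hk
      rw [hC4, Finset.mem_filter] at hk
      have := (f1 k (f2 k (f3 k hk.1).1).1).2 b hb
      rw [flip_L, flip_l, fl_fst, fl_snd]
      linarith
  · refine Thru.mono (thru_flip.mp (shapeA4 (F := F.flip) (T := C5) (ξ := ξ)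
      (fun k hk => flip_stab.mpr (hS k (ins q5 hk))) (dch_flip.mpr (hU.mono q5)) h hm
      ?_ ?_ (Or.inr ?_) (hw.mono (ins q5)) (hz.mono (ins q5)) ?_)) (ins q5) le_rfl
    · intro k hk
      rw [flip_L, flip_L]
      have := hj k (q5 hk)
      linarith
    · intro k hk
      rw [hC5, Finset.mem_filter] at hk
      exact (f3 k (f4 k hk.1).1).2
    · intro k hk
      rw [hC5, Finset.mem_filter] at hk
      refine ⟨(f4 k hk.1).2, ?_⟩
      rw [flip_L, flip_r, fl_fst, fl_snd]
      have := hk.2
      linarith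
    · intro b hb k hk
      rw [hC5, Finset.mem_filter] at hk
      have := (f1 k (f2 k (f3 k (f4 k hk.1).1).1).1).2 b hb
      rw [flip_L, flip_l, fl_fst, fl_snd]
      linarith
  · have g6 : ∀ k ∈ C6, k ∈ Γ4 ∧ (F.r j).2 < F.L k (F.r j).1 := by
      intro k hk
      rw [hC6, Finset.mem_filter] at hk
      exact ⟨hk.1, not_le.mp hk.2⟩
    refine Thru.mono (shapeA3 (T := C6) (fun k hk => hS k (ins q6 hk)) (hU.mono q6) h hm
      (fun k hk => hj k (q6 hk)) ?_ ?_ ?_ (hw.mono (ins q6)) (hz.mono (ins q6)) ?_) (ins q6) le_rfl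
    · intro k hk
      exact (f3 k (f4 k (g6 k hk).1).1).2
    · intro k hk
      exact (f4 k (g6 k hk).1).2
    · intro k hk
      have h1 := hj k (q6 hk)
      have h2 := (g6 k hk).2
      have lj := sj.1
      have lr' := sj.2
      rw [← F.L_r j] at h2
      -- the difference is positive at `ξ`, negative at `r j`
      by_contra hcon
      push Not at hcon
      rw [← F.L_l j] at hcon
      have hlt : (F.l j).1 ≠ ξ := by
        intro e
        rw [e] at hcon
        linarith
      have hlt' : (F.l j).1 < ξ := lt_of_le_of_ne lj hlt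
      obtain ⟨A, B, hA⟩ := ch_affine (F.l k) (F.r k)
      obtain ⟨A', B', hA'⟩ := ch_affine (F.l j) (F.r j)
      unfold Fam.L at h1 h2 hcon
      rw [hA, hA'] at h1 h2 hcon
      rcases le_total 0 (A' - A) with h | h
      · nlinarith
      · nlinarith
    · intro a ha k hk
      exact ((f2 k (f3 k (f4 k (g6 k hk).1).1).1).2 a ha).le

/-- splitting a group -/
lemma group_split [DecidableEq ι] {B : ℕ} (hS : ∀ k ∈ G, F.Stab ξ k) (hV : ¬ V2 F G (B + 1)) :
    ∃ Gp Gm : Finset ι, Gp ∪ Gm = G ∧ (∀ T ⊆ Gp, UCh F ξ T → T.card < 24 * (B + 1)) ∧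
      (∀ T ⊆ Gm, DCh F ξ T → T.card < 24 * (B + 1)) := by
  classical
  unfold V2 at hV
  push Not at hV
  obtain ⟨w, z, hw, hz, hno⟩ := hV
  refine ⟨G.filter (fun k => ∀ b ∈ z, F.L k (F.l b).1 ≤ (F.l b).2),
    G.filter (fun k => ¬ ∀ b ∈ z, F.L k (F.l b).1 ≤ (F.l b).2), ?_, ?_, ?_⟩
  · ext k
    rw [Finset.mem_union, Finset.mem_filter, Finset.mem_filter]
    constructor
    · rintro (h | h)
      · exact h.1
      · exact h.1
    · intro h
      by_cases h' : ∀ b ∈ z, F.L k (F.l b).1 ≤ (F.l b).2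
      · exact Or.inl ⟨h, h'⟩
      · exact Or.inr ⟨h, h'⟩
  · intro T hT hU
    by_contra hcon
    push Not at hcon
    have hTG : T ⊆ G := hT.trans (Finset.filter_subset _ _)
    apply hno
    refine Thru.mono (shapeA1 (T := T) (fun k hk => hS k (hTG hk)) hU (by omega) hcon
      (hw.mono hTG) (hz.mono hTG) ?_) hTG le_rfl
    intro b hb k hk
    have := hT hk
    rw [Finset.mem_filter] at this
    exact this.2 b hb
  · intro T hT hD
    by_contra hcon
    push Not at hcon
    have hTG : T ⊆ G := hT.trans (Finset.filter_subset _ _)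
    apply hno
    refine Thru.mono (thru_flip.mp (shapeA1 (F := F.flip) (ξ := ξ) (T := T)
      (fun k hk => flip_stab.mpr (hS k (hTG hk))) (uch_flip.mpr hD) (by omega) hcon
      (hw.mono hTG) (hz.mono hTG) ?_)) hTG le_rfl
    intro b hb k hk
    have := hT hk
    rw [Finset.mem_filter] at this
    have h2 := this.2
    push Not at h2
    obtain ⟨b', hb', h⟩ := h2
    have : b' = b := by
      rw [Option.mem_def] at hb hb'
      rw [hb] at hb'
      exact (Option.some.inj hb').symm
    rw [this] at h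
    rw [flip_L, flip_l, fl_fst, fl_snd]
    linarith

/-! ### packings -/

/-- windows from left to right -/
def Sep (F : Fam ι) (l : List (Finset ι × ℕ)) : Prop :=
  l.Pairwise (fun e e' => ∀ a ∈ e.1, ∀ b ∈ e'.1, (F.r a).1 < (F.l b).1)

/-- a packing of value `m` inside `X` -/
def Pk (F : Fam ι) (X : Finset ι) (m : ℕ) : Prop :=
  ∃ l : List (Finset ι × ℕ), Sep F l ∧ (∀ e ∈ l, e.1 ⊆ X ∧ e.1.Nonempty ∧ V2 F e.1 e.2) ∧
    m = (l.map Prod.snd).sum

/-- sum of the values in even positions -/
def altsum : List (Finset ι × ℕ) → ℕ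
  | [] => 0
  | [e] => e.2
  | e :: _ :: l => e.2 + altsum l

lemma altsum_add : ∀ (l : List (Finset ι × ℕ)),
    altsum l + altsum l.tail = (l.map Prod.snd).sum
  | [] => rfl
  | [e] => by simp [altsum]
  | e :: e' :: l => by
    have h := altsum_add l
    cases l with
    | nil => simp [altsum] 
    | cons e'' l =>
      have h' := altsum_add (e' :: e'' :: l)
      simp only [altsum, List.tail_cons, List.map_cons, List.sum_cons] at *
      omega

lemma concat_aux : ∀ (N : ℕ) (l : List (Finset ι × ℕ)), l.length ≤ N → Sep F l →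
    (∀ e ∈ l, e.1.Nonempty ∧ V2 F e.1 e.2) → ∀ w : Option ι, (∀ e ∈ l, WL F e.1 w) →
    ∃ Y : List (ι × Bool), Good F.p (ol w ++ Y) ∧ altsum l ≤ Y.length ∧
      ∀ s ∈ Y, ∃ e ∈ l, s.1 ∈ e.1 := by
  intro N
  induction N with
  | zero =>
    intro l hl _ _ w _
    have : l = [] := List.length_eq_zero_iff.mp (by omega)
    subst this
    refine ⟨[], ?_, by simp [altsum], by simp⟩
    cases w with
    | none => exact ⟨by simp, by simp, by simp⟩
    | some w => exact ⟨by simp, by simp, by simp⟩
  | succ N ih =>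
    intro l hl hsep hV w hw
    match l, hl, hsep, hV, hw with
    | [], _, _, _, _ =>
      refine ⟨[], ?_, by simp [altsum], by simp⟩
      cases w with
      | none => exact ⟨by simp, by simp, by simp⟩
      | some w => exact ⟨by simp, by simp, by simp⟩
    | [e], hl, hsep, hV, hw =>
      obtain ⟨A, h1, h2, h3⟩ := (hV e (by simp)).2 w none (hw e (by simp))
        (fun a ha => by simp at ha)
      refine ⟨A, by simpa using h3, by simpa [altsum] using h1, ?_⟩
      intro s hs
      exact ⟨e, by simp, h2 s hs⟩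
    | e :: e' :: l, hl, hsep, hV, hw =>
      simp only [List.length_cons] at hl
      unfold Sep at hsep
      rw [List.pairwise_cons, List.pairwise_cons] at hsep
      obtain ⟨s1, s2, s3⟩ := hsep
      obtain ⟨c, hc⟩ := (hV e' (by simp)).1
      obtain ⟨Y, g1, g2, g3⟩ := ih l (by omega) s3
        (fun d hd => hV d (List.mem_cons_of_mem _ (List.mem_cons_of_mem _ hd))) (some c)
        (by
          intro d hd a ha k hk
          rw [Option.mem_some_iff] at ha
          subst ha
          exact s2 d hd _ hc k hk)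
      obtain ⟨A, h1, h2, h3⟩ := (hV e (by simp)).2 w (some c) (hw e (by simp))
        (by
          intro a ha k hk
          rw [Option.mem_some_iff] at ha
          subst ha
          exact s1 e' (by simp) k hk _ hc)
      refine ⟨A ++ (c, true) :: Y, ?_, ?_, ?_⟩
      · rw [← List.append_assoc]
        apply glue h3 g1
        · intro s hs
          rw [List.mem_append] at hs
          rcases hs with hs | hs
          · cases w with
            | none => simp at hs
            | some a =>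
              rw [ol_some, List.mem_singleton] at hs
              subst hs
              have q1 := hw e' (by simp) a rfl c hc
              exact q1
          · exact s1 e' (by simp) _ (h2 s hs) _ hc
        · intro s hs
          obtain ⟨d, hd, hsd⟩ := g3 s hs
          exact s2 d hd _ hc _ hsd
      · simp only [altsum, List.length_append, List.length_cons]
        omega
      · intro s hs
        rw [List.mem_append, List.mem_cons] at hs
        rcases hs with hs | rfl | hs
        · exact ⟨e, by simp, h2 s hs⟩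
        · exact ⟨e', by simp, hc⟩
        · obtain ⟨d, hd, hsd⟩ := g3 s hs
          exact ⟨d, List.mem_cons_of_mem _ (List.mem_cons_of_mem _ hd), hsd⟩

lemma pk_le {X : Finset ι} {P : ℕ} (hP : ∀ l, Good F.p l → l.length < P) (h : Pk F X m) :
    m ≤ 2 * P := by
  obtain ⟨l, h1, h2, rfl⟩ := h
  have key : ∀ l : List (Finset ι × ℕ), Sep F l →
      (∀ e ∈ l, e.1.Nonempty ∧ V2 F e.1 e.2) → altsum l ≤ P := by
    intro l hs hV
    obtain ⟨Y, g1, g2, _⟩ := concat_aux l.length l le_rfl hs hV none
      (fun e _ a ha => by simp at ha)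
    have := hP Y (by simpa using g1)
    omega
  have hV : ∀ e ∈ l, e.1.Nonempty ∧ V2 F e.1 e.2 := fun e he => (h2 e he).2
  have k1 := key l h1 hV
  have k2 := key l.tail (h1.sublist (List.tail_sublist l))
    (fun e he => hV e (List.mem_of_mem_tail he))
  have := altsum_add l
  omega

end Pool.Agent.H279R2.Alt
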