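import Mathlib
import Pool.Agent.H279R2.Alt5

set_option autoImplicit false

namespace Pool.Agent.H279R2.Alt

open Set Pool.Agent.Helper650.AP

variable {ι : Type*}

variable {F : Fam ι} {K : ℕ} {N M : ι → ℕ} {ξ : ℕ → ℝ}

/-- abstract data: `N k`, `M k` are the values of optimal packings starting at the left end of `k`
and after the right end of `k` -/
structure NM (F : Fam ι) (K : ℕ) (N M : ι → ℕ) (ξ : ℕ → ℝ) : Prop where
  lt : ∀ k, M k < N k
  le : ∀ k, N k ≤ K
  win : ∀ (T : Finset ι) (m a b : ℕ), T.Nonempty → V2 F T m → (∀ k ∈ T, N k ≤ a) →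
    (∀ k ∈ T, b ≤ M k) → m + b ≤ a
  antiN : ∀ k j, (F.l k).1 ≤ (F.l j).1 → N j ≤ N k
  antiM : ∀ k j, (F.r j).1 ≤ (F.r k).1 → M k ≤ M j
  stab : ∀ w k, M k < w → w ≤ N k → F.Stab (ξ w) k
  uch : ∀ (x : ℝ) (T : Finset ι), (∀ k ∈ T, F.Stab x k) → UCh F x T → T.card ≤ 12 * K
  dch : ∀ (x : ℝ) (T : Finset ι), (∀ k ∈ T, F.Stab x k) → DCh F x T → T.card ≤ 12 * K

lemma NM.flip (h : NM F K N M ξ) : NM F.flip K N M ξ :=
  ⟨h.lt, h.le, fun T m a b h1 h2 => h.win T m a b h1 (v2_flip.mp h2), h.antiN, h.antiM, h.stab,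
    fun x T h1 h2 => h.dch x T h1 (uch_flip.mp h2), fun x T h1 h2 => h.uch x T h1 (dch_flip.mp h2)⟩

/-- level -/
def lv (N M : ι → ℕ) (k : ι) : ℕ := Nat.log 2 (N k - M k)

/-- block -/
def bl (N M : ι → ℕ) (k : ι) : ℕ := N k / 2 ^ lv N M k

/-- bound -/
def qq (t : ℕ) : ℕ := 144 * (2 ^ (t + 2) + 1)

lemma lv_spec (h : NM F K N M ξ) (k : ι) : M k + 2 ^ lv N M k ≤ N k ∧
    N k < M k + 2 ^ (lv N M k + 1) := by
  have h1 := h.lt k
  have h2 : N k - M k ≠ 0 := by omega
  have h3 := Nat.pow_log_le_self 2 h2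
  have h4 := Nat.lt_pow_succ_log_self (b := 2) (by norm_num) (N k - M k)
  unfold lv
  rw [Nat.succ_eq_add_one] at h4
  omega

lemma group_mem (h : NM F K N M ξ) {k : ι} {t a : ℕ} (h1 : lv N M k = t) (h2 : bl N M k = a) :
    M k < a * 2 ^ t ∧ a * 2 ^ t ≤ N k ∧ N k < (a + 1) * 2 ^ t := by
  have h3 := lv_spec h k
  unfold bl at h2
  rw [h1] at h2 h3
  have h4 : 0 < 2 ^ t := by positivity
  have h5 : a * 2 ^ t ≤ N k := by rw [← h2]; exact Nat.div_mul_le_self _ _
  have h6 : N k < (a + 1) * 2 ^ t := by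
    rw [← h2]
    have := Nat.lt_div_mul_add (a := N k) h4
    rw [add_mul, one_mul]
    exact this
  refine ⟨?_, h5, h6⟩
  rw [add_mul, one_mul] at h6
  omega

lemma win_level (h : NM F K N M ξ) {w t m : ℕ} {T : Finset ι} (hne : T.Nonempty)
    (hT : ∀ c ∈ T, M c < w ∧ w ≤ N c ∧ lv N M c ≤ t) (hV : V2 F T m) : m ≤ 2 ^ (t + 2) := by
  have key : ∀ c ∈ T, N c < M c + 2 ^ (t + 1) := by
    intro c hc
    have h1 := (lv_spec h c).2
    have h2 : 2 ^ (lv N M c + 1) ≤ 2 ^ (t + 1) :=
      Nat.pow_le_pow_right (by norm_num) (by have := (hT c hc).2.2; omega)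
    omega
  have h1 := h.win T m (w + 2 ^ (t + 1)) (w - 2 ^ (t + 1)) hne hV
    (fun c hc => by have := key c hc; have := (hT c hc).1; omega)
    (fun c hc => by have := key c hc; have := (hT c hc).2.1; omega)
  have h2 : 2 ^ (t + 2) = 2 * 2 ^ (t + 1) := by ring
  omega

lemma config_level [DecidableEq ι] (h : NM F K N M ξ) {w t : ℕ} {j : ι} {Γ : Finset ι}
    (hj : M j < w ∧ w ≤ N j ∧ lv N M j ≤ t) (hΓ : ∀ c ∈ Γ, M c < w ∧ w ≤ N c ∧ lv N M c ≤ t)
    (hU : UCh F (ξ w) Γ) (hlt : ∀ k ∈ Γ, F.L k (ξ w) < F.L j (ξ w))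
    (hcov : ∀ k ∈ Γ, (F.l j).1 < (F.l k).1 ∨ (F.r k).1 < (F.r j).1) : Γ.card < qq t := by
  by_contra hcon
  push Not at hcon
  have hall : ∀ c ∈ insert j Γ, M c < w ∧ w ≤ N c ∧ lv N M c ≤ t := by
    intro c hc
    rw [Finset.mem_insert] at hc
    rcases hc with rfl | hc
    · exact hj
    · exact hΓ c hc
  have hV := config (m := 2 ^ (t + 2) + 1) (ξ := ξ w)
    (fun k hk => h.stab w k (hall k hk).1 (hall k hk).2.1) hU hlt hcov hcon (Nat.le_add_left 1 _)
  have := win_level h (Finset.insert_nonempty _ _) hall hV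
  omega

lemma cover_level (h : NM F K N M ξ) {c j : ι} (hlt : lv N M c < lv N M j) :
    (F.l j).1 < (F.l c).1 ∨ (F.r c).1 < (F.r j).1 := by
  by_contra hcon
  push Not at hcon
  have h1 := h.antiN c j hcon.1
  have h2 := h.antiM c j hcon.2
  have : lv N M j ≤ lv N M c := Nat.log_mono_right (by omega)
  omega

lemma Finset.sum_two_pow (τ : ℕ) : ∑ t ∈ Finset.range τ, 2 ^ t + 1 = 2 ^ τ := by
  induction τ with
  | zero => simp
  | succ τ ih => rw [Finset.sum_range_succ, pow_succ]; omega

/-- stacking the levels at a common position -/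
lemma stack [DecidableEq ι] (h : NM F K N M ξ) (w τ : ℕ) (Δ : ℕ → Finset ι)
    (hΔ : ∀ t, ∀ c ∈ Δ t, M c < w ∧ w ≤ N c ∧ lv N M c = t) (hU : ∀ t, UCh F (ξ w) (Δ t)) :
    ∑ t ∈ Finset.range τ, (Δ t).card ≤ 48 * K + ∑ t ∈ Finset.range τ, (12 * qq t + 3) := by
  classical
  rcases isEmpty_or_nonempty ι with hι | hι
  · have : ∀ t, (Δ t).card = 0 := by
      intro t
      rw [Finset.card_eq_zero]
      exact Finset.eq_empty_of_isEmpty _
    simp [this]
  have hst : ∀ t, ∀ c ∈ Δ t, F.Stab (ξ w) c := fun t c hc => h.stab w c (hΔ t c hc).1 (hΔ t c hc).2.1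
  have hinj : ∀ t, Set.InjOn (fun i => F.L i (ξ w)) (Δ t) := by
    intro t i hi j hj hij
    by_contra hne
    exact h_ne (hst t i hi) (hst t j hj) hne hij
  have henum : ∀ t, ∃ e : ℕ → ι, (∀ i < (Δ t).card, e i ∈ Δ t) ∧
      ∀ i j, i < j → j < (Δ t).card → F.L (e i) (ξ w) < F.L (e j) (ξ w) :=
    fun t => enum (fun i => F.L i (ξ w)) (Δ t).card (Δ t) (hinj t) rfl
  choose e he1 he2 using henum
  obtain ⟨m, hm⟩ : ∃ m : ℕ → ℕ, m = fun t => (Δ t).card / 4 := ⟨_, rfl⟩
  have hm4 : ∀ t, 4 * m t ≤ (Δ t).card ∧ (Δ t).card ≤ 4 * m t + 3 := by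
    intro t; rw [hm]; simp only; omega
  set I := (Finset.range τ).filter (fun t => qq t ≤ m t) with hI
  have hIq : ∀ t ∈ I, qq t ≤ m t := by
    intro t ht
    rw [hI, Finset.mem_filter] at ht
    exact ht.2
  have hIm : ∀ t ∈ I, 1 ≤ m t := by
    intro t ht
    have h1 := hIq t ht
    have h2 : 1 ≤ qq t := by
      unfold qq
      exact Nat.succ_le_of_lt (Nat.mul_pos (by norm_num) (Nat.succ_pos _))
    exact h2.trans h1
  have hele : ∀ t, ∀ i j, i ≤ j → j < (Δ t).card → F.L (e t i) (ξ w) ≤ F.L (e t j) (ξ w) := by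
    intro t i j hij hj
    rcases eq_or_lt_of_le hij with rfl | hij
    · exact le_rfl
    · exact (he2 t i j hij hj).le
  have hell : ∀ t, ∀ i j, i ≤ j → j < (Δ t).card → (F.l (e t i)).1 ≤ (F.l (e t j)).1 := by
    intro t i j hij hj
    rcases eq_or_lt_of_le hij with rfl | hij
    · exact le_rfl
    · exact (hU t _ (he1 t i (by omega)) _ (he1 t j hj) (he2 t i j hij hj)).le
  have himg : ∀ t a b, b ≤ (Δ t).card → ((Finset.Ico a b).image (e t)).card = b - a := by
    intro t a b hb
    rw [Finset.card_image_of_injOn, Nat.card_Ico]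
    intro i hi j hj hij
    simp only [Finset.coe_Ico, Set.mem_Ico] at hi hj
    rcases lt_trichotomy i j with h | h | h
    · have := he2 t i j h (by omega)
      rw [hij] at this
      exact absurd this (lt_irrefl _)
    · exact h
    · have := he2 t j i h (by omega)
      rw [hij] at this
      exact absurd this (lt_irrefl _)
  have hilv : ∀ t i, i < (Δ t).card → lv N M (e t i) = t := fun t i hi => (hΔ t _ (he1 t i hi)).2.2
  -- the over relation
  obtain ⟨ov, hov⟩ : ∃ ov : ℕ → ℕ → Prop, ov = fun s t =>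
    F.L (e t (3 * m t)) (ξ w) < F.L (e s (m s)) (ξ w) := ⟨_, rfl⟩
  obtain ⟨B, hB⟩ : ∃ B : ℕ → Finset ι, B = fun t => (Finset.Ico (m t) (2 * m t)).image (e t) :=
    ⟨_, rfl⟩
  have hBm : ∀ t, ∀ b ∈ B t, ∃ i, m t ≤ i ∧ i < 2 * m t ∧ b = e t i := by
    intro t b hb
    rw [hB] at hb
    simp only [Finset.mem_image, Finset.mem_Ico] at hb
    obtain ⟨i, hi, rfl⟩ := hb
    exact ⟨i, hi.1, hi.2, rfl⟩
  have hBΔ : ∀ t, B t ⊆ Δ t := by
    intro t b hb
    obtain ⟨i, h1, h2, rfl⟩ := hBm t b hb
    exact he1 t i (by have := hm4 t; omega)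
  have hBc : ∀ t, (B t).card = m t := by
    intro t
    rw [hB]
    simp only
    rw [himg t _ _ (by have := hm4 t; omega)]
    omega
  have hovs : ∀ s ∈ I, ∀ t ∈ I, s < t → ov s t → ∀ b ∈ B t, ∀ c ∈ B s,
      F.L b (ξ w) < F.L c (ξ w) ∧ (F.l b).1 < (F.l c).1 := by
    intro s hs t ht hst' hovst b hb c hc
    rw [hov] at hovst
    have ms := hm4 s
    have mt := hm4 t
    have ms1 := hIm s hs
    have mt1 := hIm t ht
    have claim : (F.l (e t (2 * m t))).1 < (F.l (e s (m s))).1 := by
      by_contra hcon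
      push Not at hcon
      have hc1 := config_level h (w := w) (t := t) (j := e s (m s))
        (Γ := (Finset.Ico (2 * m t) (3 * m t)).image (e t))
        (by
          have := hΔ s _ (he1 s (m s) (by omega))
          exact ⟨this.1, this.2.1, by omega⟩)
        (by
          intro c hc
          simp only [Finset.mem_image, Finset.mem_Ico] at hc
          obtain ⟨i, hi, rfl⟩ := hc
          have := hΔ t _ (he1 t i (by omega))
          exact ⟨this.1, this.2.1, by omega⟩)
        (by
          apply (hU t).mono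
          intro c hc
          simp only [Finset.mem_image, Finset.mem_Ico] at hc
          obtain ⟨i, hi, rfl⟩ := hc
          exact he1 t i (by omega))
        (by
          intro c hc
          simp only [Finset.mem_image, Finset.mem_Ico] at hc
          obtain ⟨i, hi, rfl⟩ := hc
          exact lt_of_le_of_lt (hele t i (3 * m t) (by omega) (by omega)) hovst)
        (by
          intro c hc
          simp only [Finset.mem_image, Finset.mem_Ico] at hc
          obtain ⟨i, hi, rfl⟩ := hc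
          left
          have hne : e s (m s) ≠ e t (2 * m t) := by
            intro h'
            have a1 := hilv s (m s) (by omega)
            have a2 := hilv t (2 * m t) (by omega)
            rw [h'] at a1
            omega
          exact lt_of_lt_of_le (lt_of_le_of_ne hcon (F.l_ne hne))
            (hell t (2 * m t) i (by omega) (by omega)))
      rw [himg t _ _ (by omega)] at hc1
      have := hIq t ht
      omega
    obtain ⟨i, i1, i2, rfl⟩ := hBm t b hb
    obtain ⟨i', i1', i2', rfl⟩ := hBm s c hc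
    constructor
    · exact (lt_of_le_of_lt (hele t i (3 * m t) (by omega) (by omega)) hovst).trans_le
        (hele s (m s) i' (by omega) (by omega))
    · exact (lt_of_le_of_lt (hell t i (2 * m t) (by omega) (by omega)) claim).trans_le
        (hell s (m s) i' (by omega) (by omega))
  have huns : ∀ s ∈ I, ∀ t ∈ I, s < t → ¬ ov s t → m s < qq t := by
    intro s hs t ht hst' hun
    rw [hov] at hun
    simp only at hun
    push Not at hun
    have ms := hm4 s
    have mt := hm4 t
    have ms1 := hIm s hs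
    have mt1 := hIm t ht
    have hc1 := config_level h (w := w) (t := t) (j := e t (3 * m t))
        (Γ := (Finset.Ico 0 (m s)).image (e s))
        (by
          have := hΔ t _ (he1 t (3 * m t) (by omega))
          exact ⟨this.1, this.2.1, by omega⟩)
        (by
          intro c hc
          simp only [Finset.mem_image, Finset.mem_Ico] at hc
          obtain ⟨i, hi, rfl⟩ := hc
          have := hΔ s _ (he1 s i (by omega))
          exact ⟨this.1, this.2.1, by omega⟩)
        (by
          apply (hU s).mono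
          intro c hc
          simp only [Finset.mem_image, Finset.mem_Ico] at hc
          obtain ⟨i, hi, rfl⟩ := hc
          exact he1 s i (by omega))
        (by
          intro c hc
          simp only [Finset.mem_image, Finset.mem_Ico] at hc
          obtain ⟨i, hi, rfl⟩ := hc
          exact lt_of_lt_of_le (he2 s i (m s) (by omega) (by omega)) hun)
        (by
          intro c hc
          simp only [Finset.mem_image, Finset.mem_Ico] at hc
          obtain ⟨i, hi, rfl⟩ := hc
          apply cover_level h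
          rw [hilv s i (by omega), hilv t (3 * m t) (by omega)]
          exact hst')
    rw [himg s _ _ (by omega)] at hc1
    omega
  -- unions of blocks
  have hun : ∀ J ⊆ I, (∀ s ∈ J, ∀ t ∈ J, s < t → ov s t) →
      UCh F (ξ w) (J.biUnion B) ∧ (J.biUnion B).card = ∑ t ∈ J, m t := by
    intro J hJ hJo
    constructor
    · intro b hb c hc hbc
      rw [Finset.mem_biUnion] at hb hc
      obtain ⟨t, ht, hb⟩ := hb
      obtain ⟨s, hs, hc⟩ := hc
      rcases lt_trichotomy s t with hlt | heq | hlt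
      · exact (hovs s (hJ hs) t (hJ ht) hlt (hJo s hs t ht hlt) b hb c hc).2
      · subst heq
        exact hU s b (hBΔ s hb) c (hBΔ s hc) hbc
      · have := (hovs t (hJ ht) s (hJ hs) hlt (hJo t ht s hs hlt) c hc b hb).1
        exact absurd this (not_lt.mpr hbc.le)
    · rw [Finset.card_biUnion]
      · exact Finset.sum_congr rfl (fun t _ => hBc t)
      · intro s _ t _ hst'
        show Disjoint (B s) (B t)
        rw [Finset.disjoint_left]
        intro b hb hb'
        have h1 := (hΔ s b (hBΔ s hb)).2.2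
        have h2 := (hΔ t b (hBΔ t hb')).2.2
        exact hst' (h1.symm.trans h2)
  -- the first class
  set I0 := I.filter (fun s => ∀ t ∈ I, s < t → ov s t) with hI0
  set I1 := I.filter (fun s => ¬ ∀ t ∈ I, s < t → ov s t) with hI1
  have hI0s : I0 ⊆ I := Finset.filter_subset _ _
  have hI1s : I1 ⊆ I := Finset.filter_subset _ _
  have b0 : ∑ t ∈ I0, m t ≤ 12 * K := by
    obtain ⟨u1, u2⟩ := hun I0 hI0s (by
      intro s hs t ht hst'
      rw [hI0, Finset.mem_filter] at hs
      exact hs.2 t (hI0s ht) hst')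
    rw [← u2]
    apply h.uch (ξ w) _ _ u1
    intro k hk
    rw [Finset.mem_biUnion] at hk
    obtain ⟨t, _, hk⟩ := hk
    exact hst t k (hBΔ t hk)
  -- the second class
  have hex : ∀ s, ∃ t, s ∈ I1 → (t ∈ I ∧ s < t ∧ ¬ ov s t ∧
      ∀ t' ∈ I, s < t' → t' < t → ov s t') := by
    intro s
    by_cases hs : s ∈ I1
    · have hs' := hs
      rw [hI1, Finset.mem_filter] at hs'
      have h2 := hs'.2
      push Not at h2
      obtain ⟨t, ht, hst', hun'⟩ := h2
      have hne : (I.filter (fun t => s < t ∧ ¬ ov s t)).Nonempty :=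
        ⟨t, by rw [Finset.mem_filter]; exact ⟨ht, hst', hun'⟩⟩
      obtain ⟨t0, ht0, hmin⟩ := Finset.exists_min_image _ (fun t => t) hne
      rw [Finset.mem_filter] at ht0
      refine ⟨t0, fun _ => ⟨ht0.1, ht0.2.1, ht0.2.2, ?_⟩⟩
      intro t' ht' hst'' htt
      by_contra hno
      have := hmin t' (by rw [Finset.mem_filter]; exact ⟨ht', hst'', hno⟩)
      omega
    · exact ⟨0, fun h' => absurd h' hs⟩
  choose t0 ht0 using hex
  have b1 : ∑ s ∈ I1, m s ≤ ∑ t ∈ I, 2 * qq t := by
    have hmaps : ∀ s ∈ I1, t0 s ∈ I := fun s hs => (ht0 s hs).1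
    rw [← Finset.sum_fiberwise_of_maps_to hmaps]
    apply Finset.sum_le_sum
    intro u hu
    set Z := I1.filter (fun s => t0 s = u) with hZ
    have hZm : ∀ s ∈ Z, s ∈ I1 ∧ t0 s = u := by
      intro s hs
      rw [hZ, Finset.mem_filter] at hs
      exact hs
    have hZov : ∀ s ∈ Z, ∀ t ∈ Z, s < t → ov s t := by
      intro s hs t ht hst'
      obtain ⟨hs1, hs2⟩ := hZm s hs
      obtain ⟨ht1, ht2⟩ := hZm t ht
      apply (ht0 s hs1).2.2.2 t (hI1s ht1) hst'
      rw [hs2, ← ht2]
      exact (ht0 t ht1).2.1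
    rcases Z.eq_empty_or_nonempty with hZe | hZne
    · rw [hZe]; simp
    · obtain ⟨s0, hs0, hmin⟩ := Finset.exists_min_image Z (fun s => s) hZne
      obtain ⟨hs01, hs02⟩ := hZm s0 hs0
      obtain ⟨g1, g2, g3, g4⟩ := ht0 s0 hs01
      rw [hs02] at g1 g2 g3 g4
      have c0 : m s0 < qq u := huns s0 (hI1s hs01) u g1 g2 g3
      have hJs : Z.erase s0 ⊆ I := fun s hs => hI1s (hZm s (Finset.mem_of_mem_erase hs)).1
      obtain ⟨u1, u2⟩ := hun (Z.erase s0) hJs (fun s hs t ht =>
        hZov s (Finset.mem_of_mem_erase hs) t (Finset.mem_of_mem_erase ht))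
      have c1 : ((Z.erase s0).biUnion B).card < qq u := by
        have hmu := hm4 u
        have hmu1 := hIm u g1
        have hms0 := hm4 s0
        have hms01 := hIm s0 (hI1s hs01)
        rw [hov] at g3
        simp only at g3
        push Not at g3
        have hmem : ∀ b ∈ (Z.erase s0).biUnion B, ∃ t ∈ I, s0 < t ∧ t < u ∧ ov s0 t ∧ b ∈ B t := by
          intro b hb
          rw [Finset.mem_biUnion] at hb
          obtain ⟨t, ht, hb⟩ := hb
          rw [Finset.mem_erase] at ht
          have h1 := hmin t ht.2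
          have hlt : s0 < t := lt_of_le_of_ne h1 (Ne.symm ht.1)
          obtain ⟨ht1, ht2⟩ := hZm t ht.2
          refine ⟨t, hI1s ht1, hlt, ?_, hZov s0 hs0 t ht.2 hlt, hb⟩
          rw [← ht2]
          exact (ht0 t ht1).2.1
        apply config_level h (w := w) (t := u) (j := e u (3 * m u))
        · have := hΔ u _ (he1 u (3 * m u) (by omega))
          exact ⟨this.1, this.2.1, by omega⟩
        · intro b hb
          obtain ⟨t, ht, h1, h2, h3, hb⟩ := hmem b hb
          have := hΔ t b (hBΔ t hb)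
          exact ⟨this.1, this.2.1, by omega⟩
        · exact u1
        · intro b hb
          obtain ⟨t, ht, h1, h2, h3, hb⟩ := hmem b hb
          have hs0B : e s0 (m s0) ∈ B s0 := by
            rw [hB]
            simp only [Finset.mem_image, Finset.mem_Ico]
            exact ⟨m s0, ⟨le_rfl, by omega⟩, rfl⟩
          exact ((hovs s0 (hI1s hs01) t ht h1 h3 b hb _ hs0B).1).trans_le g3
        · intro b hb
          obtain ⟨t, ht, h1, h2, h3, hb⟩ := hmem b hb
          apply cover_level h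
          rw [hilv u (3 * m u) (by omega), (hΔ t b (hBΔ t hb)).2.2]
          exact h2
      rw [u2] at c1
      have := Finset.sum_erase_add Z m hs0
      omega
  -- total
  have hsplit : ∑ t ∈ I0, m t + ∑ t ∈ I1, m t = ∑ t ∈ I, m t :=
    Finset.sum_filter_add_sum_filter_not I _ _
  have hIr : ∑ t ∈ I, 2 * qq t ≤ ∑ t ∈ Finset.range τ, 2 * qq t :=
    Finset.sum_le_sum_of_subset (Finset.filter_subset _ _)
  have htot : ∑ t ∈ Finset.range τ, (Δ t).card ≤
      ∑ t ∈ Finset.range τ, (4 * qq t + 3) + ∑ t ∈ I, 4 * m t := by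
    have h1 : ∑ t ∈ I, 4 * m t = ∑ t ∈ Finset.range τ, if qq t ≤ m t then 4 * m t else 0 := by
      rw [hI, Finset.sum_filter]
    rw [h1, ← Finset.sum_add_distrib]
    apply Finset.sum_le_sum
    intro t _
    have := hm4 t
    split_ifs with hq
    · omega
    · omega
  have h4 : ∑ t ∈ I, 4 * m t = 4 * ∑ t ∈ I, m t := by rw [Finset.mul_sum]
  have h5 : ∑ t ∈ Finset.range τ, (12 * qq t + 3) =
      ∑ t ∈ Finset.range τ, (4 * qq t + 3) + 4 * ∑ t ∈ Finset.range τ, 2 * qq t := by
    rw [Finset.mul_sum, ← Finset.sum_add_distrib]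
    apply Finset.sum_congr rfl
    intro t _
    ring
  rw [h5]
  omega

end Pool.Agent.H279R2.Alt
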