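import Mathlib
import Pool.Agent.H279R2.Alt6

set_option autoImplicit false

namespace Pool.Agent.H279R2.Alt

open Set Pool.Agent.Helper650.AP

variable {ι : Type*}

variable {F : Fam ι} {K : ℕ} {N M : ι → ℕ} {ξ : ℕ → ℝ}

/-- Erdős–Szekeres: large `U`-chain from a bound for `D`-chains -/
lemma es_u [DecidableEq ι] {x : ℝ} {S : Finset ι} (hS : ∀ k ∈ S, F.Stab x k) {q : ℕ}
    (hq : ∀ T ⊆ S, DCh F x T → T.card ≤ q) : ∃ T ⊆ S, UCh F x T ∧ S.card ≤ T.card * q := by
  classical
  have hinj : Set.InjOn (fun i => F.L i x) S := by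
    intro i hi j hj hij
    by_contra hne
    exact h_ne (hS i hi) (hS j hj) hne hij
  have linj : Set.InjOn (fun i => (F.l i).1) S := by
    intro i hi j hj hij
    by_contra hne
    exact F.l_ne hne hij
  have hne : (S.powerset.filter (fun T => UCh F x T)).Nonempty := by
    refine ⟨∅, ?_⟩
    rw [Finset.mem_filter]
    refine ⟨by simp, ?_⟩
    intro i hi
    simp at hi
  obtain ⟨T, hT, hmax⟩ := Finset.exists_max_image _ (fun T => T.card) hne
  rw [Finset.mem_filter, Finset.mem_powerset] at hT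
  refine ⟨T, hT.1, hT.2, ?_⟩
  by_contra hcon
  push Not at hcon
  rcases es (fun i => F.L i x) (fun i => (F.l i).1) q T.card S hinj linj hcon with
    ⟨T', hT', hc, hm⟩ | ⟨T', hT', hc, hm⟩
  · have := hmax T' (by
      rw [Finset.mem_filter, Finset.mem_powerset]
      exact ⟨hT', hm⟩)
    omega
  · have := hq T' hT' hm
    omega

/-- treatment of one group -/
lemma group_u [DecidableEq ι] (h : NM F K N M ξ) (t a : ℕ) (S : Finset ι)
    (hS : ∀ c ∈ S, lv N M c = t ∧ bl N M c = a) {q : ℕ}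
    (hq : ∀ T ⊆ S, DCh F (ξ (a * 2 ^ t)) T → T.card ≤ q) :
    ∃ Γ ⊆ S, UCh F (ξ (a * 2 ^ t)) Γ ∧ S.card ≤ (Γ.card + qq t) * q ∧
      (Γ = ∅ ∨ ∃ κ ∈ Γ, ∀ c ∈ Γ, (F.l c).1 ≤ (F.l κ).1 ∧ (F.r κ).1 ≤ (F.r c).1) := by
  classical
  have hg : ∀ c ∈ S, M c < a * 2 ^ t ∧ a * 2 ^ t ≤ N c := by
    intro c hc
    have := group_mem h (hS c hc).1 (hS c hc).2
    exact ⟨this.1, this.2.1⟩
  have hst : ∀ c ∈ S, F.Stab (ξ (a * 2 ^ t)) c := fun c hc => h.stab _ c (hg c hc).1 (hg c hc).2
  obtain ⟨T, hTS, hTU, hTc⟩ := es_u hst hq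
  rcases T.eq_empty_or_nonempty with rfl | hne
  · refine ⟨∅, by simp, hTU, ?_, Or.inl rfl⟩
    simp at hTc
    rw [hTc]; simp
  obtain ⟨κ, hκ, hmax⟩ := Finset.exists_max_image T (fun i => F.L i (ξ (a * 2 ^ t))) hne
  refine ⟨T.filter (fun c => (F.r κ).1 ≤ (F.r c).1), (Finset.filter_subset _ _).trans hTS,
    hTU.mono (Finset.filter_subset _ _), ?_, Or.inr ⟨κ, ?_, ?_⟩⟩
  · have hR : (T.filter (fun c => ¬ (F.r κ).1 ≤ (F.r c).1)).card < qq t := by
      have hsub : T.filter (fun c => ¬ (F.r κ).1 ≤ (F.r c).1) ⊆ T := Finset.filter_subset _ _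
      apply config_level h (w := a * 2 ^ t) (t := t) (j := κ)
      · exact ⟨(hg κ (hTS hκ)).1, (hg κ (hTS hκ)).2, (hS κ (hTS hκ)).1.le⟩
      · intro c hc
        have hc := hTS (hsub hc)
        exact ⟨(hg c hc).1, (hg c hc).2, (hS c hc).1.le⟩
      · exact hTU.mono hsub
      · intro c hc
        have hcT := hsub hc
        rw [Finset.mem_filter] at hc
        have hne : c ≠ κ := by
          rintro rfl
          exact hc.2 le_rfl
        exact lt_of_le_of_ne (hmax c hcT) (h_ne (hst c (hTS hcT)) (hst κ (hTS hκ)) hne)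
      · intro c hc
        rw [Finset.mem_filter] at hc
        right
        exact not_le.mp hc.2
    have hsum : (T.filter (fun c => (F.r κ).1 ≤ (F.r c).1)).card +
        (T.filter (fun c => ¬ (F.r κ).1 ≤ (F.r c).1)).card = T.card :=
      Finset.card_filter_add_card_filter_not _
    refine hTc.trans (Nat.mul_le_mul_right _ ?_)
    omega
  · rw [Finset.mem_filter]
    exact ⟨hκ, le_rfl⟩
  · intro c hc
    rw [Finset.mem_filter] at hc
    refine ⟨?_, hc.2⟩
    rcases eq_or_lt_of_le (hmax c hc.1) with he | hlt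
    · have : c = κ := by
        by_contra hne
        exact h_ne (hst c (hTS hc.1)) (hst κ (hTS hκ)) hne he
      rw [this]
    · exact (hTU c hc.1 κ hκ hlt).le

lemma sum_qq (τ : ℕ) : ∑ t ∈ Finset.range τ, qq t ≤ 720 * 2 ^ τ := by
  have h1 : ∑ t ∈ Finset.range τ, qq t ≤ ∑ t ∈ Finset.range τ, 720 * 2 ^ t := by
    apply Finset.sum_le_sum
    intro t _
    unfold qq
    have : 1 ≤ 2 ^ t := Nat.one_le_two_pow
    rw [pow_add]
    omega
  rw [← Finset.mul_sum] at h1
  have := Finset.sum_two_pow τ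
  omega

theorem bmain [Fintype ι] [DecidableEq ι] (h : NM F K N M ξ) (H : Finset ι) (Q : ℕ)
    (hD : ∀ t a, ∀ T ⊆ H, (∀ k ∈ T, lv N M k = t ∧ bl N M k = a) →
      DCh F (ξ (a * 2 ^ t)) T → T.card ≤ Q * 2 ^ t) : H.card ≤ 106884 * Q * K ^ 2 := by
  classical
  rcases H.eq_empty_or_nonempty with rfl | hne
  · simp
  obtain ⟨k0, hk0⟩ := hne
  have hK : K ≠ 0 := by
    have := h.lt k0
    have := h.le k0
    omega
  obtain ⟨S, hSdef⟩ : ∃ S : ℕ → ℕ → Finset ι, S = fun t a =>
    H.filter (fun k => lv N M k = t ∧ bl N M k = a) := ⟨_, rfl⟩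
  have hSm : ∀ t a k, k ∈ S t a ↔ k ∈ H ∧ lv N M k = t ∧ bl N M k = a := by
    intro t a k
    rw [hSdef, Finset.mem_filter]
  have hgr := fun t a => group_u h t a (S t a) (fun c hc => ((hSm t a c).mp hc).2)
    (q := Q * 2 ^ t) (fun T hT => hD t a T (fun k hk => ((hSm t a k).mp (hT hk)).1)
      (fun k hk => ((hSm t a k).mp (hT hk)).2))
  choose Γ hΓS hΓU hΓc hΓκ using hgr
  obtain ⟨τ, hτ⟩ : ∃ τ, τ = Nat.log 2 K + 1 := ⟨_, rfl⟩
  have hτK : 2 ^ τ ≤ 2 * K := by
    rw [hτ, pow_succ]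
    have := Nat.pow_log_le_self 2 hK
    omega
  have hτt : ∀ t ∈ Finset.range τ, 2 ^ t ≤ K := by
    intro t ht
    rw [Finset.mem_range] at ht
    exact (Nat.pow_le_pow_right (by norm_num) (by omega)).trans (Nat.pow_log_le_self 2 hK)
  -- decomposition
  have hdec : H.card = ∑ t ∈ Finset.range τ, ∑ a ∈ Finset.range (K / 2 ^ t + 1), (S t a).card := by
    have h1 : H.card = ∑ x ∈ (Finset.range τ).sigma (fun t => Finset.range (K / 2 ^ t + 1)),
        (H.filter (fun k => (⟨lv N M k, bl N M k⟩ : Σ _ : ℕ, ℕ) = x)).card := by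
      apply Finset.card_eq_sum_card_fiberwise
      intro k _
      simp only [Finset.coe_sigma, Set.mem_sigma_iff, Finset.coe_range, Set.mem_Iio]
      constructor
      · rw [hτ]
        have : lv N M k ≤ Nat.log 2 K := Nat.log_mono_right (by have := h.le k; omega)
        omega
      · have : bl N M k ≤ K / 2 ^ lv N M k := Nat.div_le_div_right (h.le k)
        omega
    rw [h1, Finset.sum_sigma]
    apply Finset.sum_congr rfl
    intro t _
    apply Finset.sum_congr rfl
    intro a _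
    congr 1
    ext k
    rw [hSm, Finset.mem_filter]
    constructor
    · rintro ⟨h1, h2⟩
      simp only [Sigma.mk.injEq, heq_eq_eq] at h2
      exact ⟨h1, h2⟩
    · rintro ⟨h1, h2, h3⟩
      exact ⟨h1, by rw [h2, h3]⟩
  -- bound by chains
  have hb1 : H.card ≤ Q * ∑ t ∈ Finset.range τ, ∑ a ∈ Finset.range (K / 2 ^ t + 1),
      2 ^ t * (Γ t a).card + Q * ∑ t ∈ Finset.range τ, ∑ _a ∈ Finset.range (K / 2 ^ t + 1),
      2 ^ t * qq t := by
    rw [hdec, ← mul_add, ← Finset.sum_add_distrib, Finset.mul_sum]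
    apply Finset.sum_le_sum
    intro t _
    rw [← Finset.sum_add_distrib, Finset.mul_sum]
    apply Finset.sum_le_sum
    intro a _
    refine (hΓc t a).trans (le_of_eq ?_)
    ring
  -- the second part
  have hb2 : ∑ t ∈ Finset.range τ, ∑ _a ∈ Finset.range (K / 2 ^ t + 1), 2 ^ t * qq t ≤
      2880 * K ^ 2 := by
    have h1 : ∑ t ∈ Finset.range τ, ∑ _a ∈ Finset.range (K / 2 ^ t + 1), 2 ^ t * qq t ≤
        ∑ t ∈ Finset.range τ, (2 * K) * qq t := by
      apply Finset.sum_le_sum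
      intro t ht
      rw [Finset.sum_const, Finset.card_range, smul_eq_mul, ← mul_assoc]
      apply Nat.mul_le_mul_right
      rw [add_mul, one_mul]
      have h2 := Nat.div_mul_le_self K (2 ^ t)
      have h3 := hτt t ht
      omega
    rw [← Finset.mul_sum] at h1
    have h2 := sum_qq τ
    have h3 : 2 * K * ∑ t ∈ Finset.range τ, qq t ≤ 2 * K * (720 * (2 * K)) :=
      Nat.mul_le_mul_left _ (h2.trans (Nat.mul_le_mul_left _ hτK))
    nlinarith
  -- the first part
  have hmem : ∀ t a c, c ∈ Γ t a → lv N M c = t ∧ bl N M c = a :=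
    fun t a c hc => ((hSm t a c).mp (hΓS t a hc)).2
  obtain ⟨g, hg⟩ : ∃ g : ℕ → ℕ → ℕ → ℕ, g = fun w t a =>
    if ∀ c ∈ Γ t a, M c < w ∧ w ≤ N c then (Γ t a).card else 0 := ⟨_, rfl⟩
  have hgv : ∀ w t a, g w t a = if ∀ c ∈ Γ t a, M c < w ∧ w ≤ N c then (Γ t a).card else 0 := by
    intro w t a; rw [hg]
  have hw1 : ∀ t a, 2 ^ t * (Γ t a).card ≤ ∑ w ∈ Finset.range (K + 1), g w t a := by
    intro t a
    rcases hΓκ t a with he | ⟨κ, hκ, hκ'⟩
    · rw [he]; simp
    · have hl := lv_spec h κ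
      rw [(hmem t a κ hκ).1] at hl
      have hsub : Finset.Ioc (M κ) (N κ) ⊆ Finset.range (K + 1) := by
        intro w hw
        rw [Finset.mem_Ioc] at hw
        rw [Finset.mem_range]
        have := h.le κ
        omega
      refine le_trans ?_ (Finset.sum_le_sum_of_subset hsub)
      have h1 : ∀ w ∈ Finset.Ioc (M κ) (N κ), g w t a = (Γ t a).card := by
        intro w hw
        rw [Finset.mem_Ioc] at hw
        rw [hgv, if_pos]
        intro c hc
        have e1 := h.antiN c κ (hκ' c hc).1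
        have e2 := h.antiM c κ (hκ' c hc).2
        omega
      rw [Finset.sum_congr rfl h1, Finset.sum_const, Nat.card_Ioc, smul_eq_mul]
      apply Nat.mul_le_mul_right
      omega
  have hw2 : ∀ w, ∑ t ∈ Finset.range τ, ∑ a ∈ Finset.range (K / 2 ^ t + 1), g w t a ≤
      3 * (48 * K + ∑ t ∈ Finset.range τ, (12 * qq t + 3)) := by
    intro w
    have h1 : ∀ t, ∑ a ∈ Finset.range (K / 2 ^ t + 1), g w t a ≤
        ∑ o ∈ Finset.range 3, g w t (w / 2 ^ t + o) := by
      intro t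
      have h2 : ∑ o ∈ Finset.range 3, g w t (w / 2 ^ t + o) =
          ∑ a ∈ (Finset.range 3).image (fun o => w / 2 ^ t + o), g w t a := by
        rw [Finset.sum_image]
        intro x _ y _ hxy
        simpa using hxy
      rw [h2]
      apply Finset.sum_le_sum_of_ne_zero
      intro a _ hga
      rw [hgv] at hga
      split_ifs at hga with hcond
      · have hne : (Γ t a).Nonempty := Finset.card_pos.mp (by omega)
        obtain ⟨c, hc⟩ := hne
        obtain ⟨c1, c2⟩ := hcond c hc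
        obtain ⟨m1, m2⟩ := hmem t a c hc
        obtain ⟨q1, q2, q3⟩ := group_mem h m1 m2
        have q4 := (lv_spec h c).2
        rw [m1, pow_succ] at q4
        have hp : 0 < 2 ^ t := by positivity
        rw [Finset.mem_image]
        have a1 : w / 2 ^ t ≤ a := by
          rw [← m2]
          unfold bl
          rw [m1]
          exact Nat.div_le_div_right c2
        have a2 : a ≤ w / 2 ^ t + 2 := by
          have h5 : N c ≤ w + 2 * 2 ^ t := by omega
          have h6 : a ≤ (w + 2 * 2 ^ t) / 2 ^ t := by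
            rw [← m2]
            unfold bl
            rw [m1]
            exact Nat.div_le_div_right h5
          rwa [Nat.add_mul_div_right _ _ hp] at h6
        refine ⟨a - w / 2 ^ t, ?_, ?_⟩
        · rw [Finset.mem_range]; omega
        · omega
      · exact absurd rfl hga
    refine (Finset.sum_le_sum (fun t _ => h1 t)).trans ?_
    rw [Finset.sum_comm]
    have h2 : ∀ o ∈ Finset.range 3, ∑ t ∈ Finset.range τ, g w t (w / 2 ^ t + o) ≤
        48 * K + ∑ t ∈ Finset.range τ, (12 * qq t + 3) := by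
      intro o _
      obtain ⟨Δ, hΔ⟩ : ∃ Δ : ℕ → Finset ι, Δ = fun t =>
        if ∀ c ∈ Γ t (w / 2 ^ t + o), M c < w ∧ w ≤ N c then Γ t (w / 2 ^ t + o) else ∅ := ⟨_, rfl⟩
      have hΔv : ∀ t, Δ t = if ∀ c ∈ Γ t (w / 2 ^ t + o), M c < w ∧ w ≤ N c then
          Γ t (w / 2 ^ t + o) else ∅ := by
        intro t; rw [hΔ]
      have hΔc : ∀ t, g w t (w / 2 ^ t + o) = (Δ t).card := by
        intro t
        rw [hgv, hΔv]
        split_ifs
        · rfl
        · simp
      have hΔm : ∀ t, ∀ c ∈ Δ t, M c < w ∧ w ≤ N c ∧ c ∈ Γ t (w / 2 ^ t + o) := by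
        intro t c hc
        rw [hΔv] at hc
        split_ifs at hc with hcond
        · exact ⟨(hcond c hc).1, (hcond c hc).2, hc⟩
        · simp at hc
      rw [Finset.sum_congr rfl (fun t _ => hΔc t)]
      apply stack h w τ Δ
      · intro t c hc
        obtain ⟨c1, c2, c3⟩ := hΔm t c hc
        exact ⟨c1, c2, (hmem _ _ c c3).1⟩
      · intro t b hb c hc hbc
        obtain ⟨b1, b2, b3⟩ := hΔm t b hb
        obtain ⟨c1, c2, c3⟩ := hΔm t c hc
        have gb := group_mem h (hmem _ _ b b3).1 (hmem _ _ b b3).2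
        have gc := group_mem h (hmem _ _ c c3).1 (hmem _ _ c c3).2
        have sb := h.stab w b b1 b2
        have sc := h.stab w c c1 c2
        have sb' := h.stab _ b gb.1 gb.2.1
        have sc' := h.stab _ c gc.1 gc.2.1
        exact hΓU _ _ b b3 c c3 (ord sb sc hbc sb'.1 sb'.2 sc'.1 sc'.2)
    have h3 := Finset.sum_le_card_nsmul _ _ _ h2
    rw [Finset.card_range, smul_eq_mul] at h3
    exact h3
  have hb3 : ∑ t ∈ Finset.range τ, ∑ a ∈ Finset.range (K / 2 ^ t + 1), 2 ^ t * (Γ t a).card ≤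
      (K + 1) * (3 * (48 * K + ∑ t ∈ Finset.range τ, (12 * qq t + 3))) := by
    calc ∑ t ∈ Finset.range τ, ∑ a ∈ Finset.range (K / 2 ^ t + 1), 2 ^ t * (Γ t a).card
        ≤ ∑ t ∈ Finset.range τ, ∑ a ∈ Finset.range (K / 2 ^ t + 1),
          ∑ w ∈ Finset.range (K + 1), g w t a :=
          Finset.sum_le_sum (fun t _ => Finset.sum_le_sum (fun a _ => hw1 t a))
      _ = ∑ w ∈ Finset.range (K + 1), ∑ t ∈ Finset.range τ,
          ∑ a ∈ Finset.range (K / 2 ^ t + 1), g w t a := by
          rw [Finset.sum_comm]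
          apply Finset.sum_congr rfl
          intro t _
          rw [Finset.sum_comm]
      _ ≤ ∑ w ∈ Finset.range (K + 1), 3 * (48 * K + ∑ t ∈ Finset.range τ, (12 * qq t + 3)) :=
          Finset.sum_le_sum (fun w _ => hw2 w)
      _ = _ := by rw [Finset.sum_const, Finset.card_range, smul_eq_mul]
  have hb4 : ∑ t ∈ Finset.range τ, (12 * qq t + 3) ≤ 17286 * K := by
    rw [Finset.sum_add_distrib, ← Finset.mul_sum, Finset.sum_const, Finset.card_range, smul_eq_mul]
    have h1 := sum_qq τ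
    have h2 : τ ≤ 2 ^ τ := Nat.lt_two_pow_self.le
    omega
  have hb5 : (K + 1) * (3 * (48 * K + ∑ t ∈ Finset.range τ, (12 * qq t + 3))) ≤
      (2 * K) * (3 * (48 * K + 17286 * K)) := by
    apply Nat.mul_le_mul
    · omega
    · omega
  have hfin : H.card ≤ Q * ((2 * K) * (3 * (48 * K + 17286 * K))) + Q * (2880 * K ^ 2) := by
    refine hb1.trans (Nat.add_le_add ?_ ?_)
    · exact Nat.mul_le_mul_left _ (hb3.trans hb5)
    · exact Nat.mul_le_mul_left _ hb2
  have : Q * ((2 * K) * (3 * (48 * K + 17286 * K))) + Q * (2880 * K ^ 2) = 106884 * Q * K ^ 2 := by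
    ring
  omega

end Pool.Agent.H279R2.Alt
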