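import Mathlib
import Pool.Agent.H279R2.Alt7
import Pool.Agent.Helper650.AP6

set_option autoImplicit false

namespace Pool.Agent.H279R2.Alt

open Set Pool.Agent.Helper650.AP

section
variable {ι : Type*} {F : Fam ι} {P : ℕ}

/-- value of an optimal packing -/
noncomputable def vh (F : Fam ι) (X : Finset ι) : ℕ := sSup {m | Pk F X m}

lemma vh_bdd (hP : ∀ l, Good F.p l → l.length < P) (X : Finset ι) :
    BddAbove {m | Pk F X m} := ⟨2 * P, fun _ hm => pk_le hP hm⟩

lemma vh_pk (hP : ∀ l, Good F.p l → l.length < P) (X : Finset ι) : Pk F X (vh F X) :=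
  Nat.sSup_mem (s := {m | Pk F X m})
    ⟨0, show Pk F X 0 from ⟨[], List.Pairwise.nil, by simp, by simp⟩⟩ (vh_bdd hP X)

lemma le_vh (hP : ∀ l, Good F.p l → l.length < P) {X : Finset ι} {m : ℕ} (h : Pk F X m) :
    m ≤ vh F X := le_csSup (vh_bdd hP X) h

lemma Pk.mono {X Y : Finset ι} {m : ℕ} (h : Pk F X m) (hXY : X ⊆ Y) : Pk F Y m := by
  obtain ⟨l, h1, h2, h3⟩ := h
  exact ⟨l, h1, fun e he => ⟨(h2 e he).1.trans hXY, (h2 e he).2⟩, h3⟩

lemma vh_mono (hP : ∀ l, Good F.p l → l.length < P) {X Y : Finset ι} (hXY : X ⊆ Y) :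
    vh F X ≤ vh F Y := le_vh hP ((vh_pk hP X).mono hXY)

lemma vh_cons (hP : ∀ l, Good F.p l → l.length < P) {X X' T : Finset ι} {m : ℕ}
    (hne : T.Nonempty) (hV : V2 F T m) (hT : T ⊆ X) (hX : X' ⊆ X)
    (hs : ∀ a ∈ T, ∀ b ∈ X', (F.r a).1 < (F.l b).1) : m + vh F X' ≤ vh F X := by
  obtain ⟨l, h1, h2, h3⟩ := vh_pk hP X'
  apply le_vh hP
  refine ⟨(T, m) :: l, ?_, ?_, ?_⟩
  · unfold Sep
    rw [List.pairwise_cons]
    refine ⟨?_, h1⟩
    intro e he a ha b hb
    exact hs a ha b ((h2 e he).1 hb)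
  · intro e he
    rw [List.mem_cons] at he
    rcases he with rfl | he
    · exact ⟨hT, hne, hV⟩
    · exact ⟨(h2 e he).1.trans hX, (h2 e he).2⟩
  · rw [h3]
    simp

theorem exists_nm [Fintype ι] [DecidableEq ι] (hP : ∀ l, Good F.p l → l.length < P) :
    ∃ (N M : ι → ℕ) (ξ : ℕ → ℝ), NM F (2 * P) N M ξ := by
  classical
  obtain ⟨N, hN⟩ : ∃ N : ι → ℕ, ∀ k, N k =
      vh F (Finset.univ.filter (fun j => (F.l k).1 ≤ (F.l j).1)) := ⟨_, fun _ => rfl⟩
  obtain ⟨M, hM⟩ : ∃ M : ι → ℕ, ∀ k, M k =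
      vh F (Finset.univ.filter (fun j => (F.r k).1 < (F.l j).1)) := ⟨_, fun _ => rfl⟩
  have hP0 : 0 < P := hP [] ⟨by simp, by simp, by simp⟩
  have hlt : ∀ k, M k < N k := by
    intro k
    have := vh_cons hP (X := Finset.univ.filter (fun j => (F.l k).1 ≤ (F.l j).1))
      (X' := Finset.univ.filter (fun j => (F.r k).1 < (F.l j).1)) (T := {k}) (m := 1)
      (by simp) (v2_one (Finset.mem_singleton_self k))
      (by
        intro a ha
        rw [Finset.mem_singleton] at ha
        subst ha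
        simp)
      (by
        intro a ha
        rw [Finset.mem_filter] at ha ⊢
        have := F.lr' k
        exact ⟨ha.1, by linarith [ha.2]⟩)
      (by
        intro a ha b hb
        rw [Finset.mem_singleton] at ha
        subst ha
        rw [Finset.mem_filter] at hb
        exact hb.2)
    rw [hN, hM]
    omega
  have hsep : ∀ k k', (F.r k).1 < (F.l k').1 → N k' ≤ M k := by
    intro k k' h
    rw [hN, hM]
    apply vh_mono hP
    intro a ha
    rw [Finset.mem_filter] at ha ⊢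
    exact ⟨ha.1, by linarith [ha.2]⟩
  have hstab : ∀ w : ℕ, ∃ x : ℝ, ∀ k, M k < w → w ≤ N k → F.Stab x k := by
    intro w
    rcases (Finset.univ.filter (fun k => M k < w ∧ w ≤ N k)).eq_empty_or_nonempty with he | hne
    · refine ⟨0, fun k h1 h2 => ?_⟩
      exfalso
      have : k ∈ Finset.univ.filter (fun k => M k < w ∧ w ≤ N k) := by
        rw [Finset.mem_filter]; exact ⟨Finset.mem_univ _, h1, h2⟩
      rw [he] at this
      simp at this
    · obtain ⟨k1, hk1, hmax⟩ := Finset.exists_max_image _ (fun k => (F.l k).1) hne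
      refine ⟨(F.l k1).1, fun k h1 h2 => ⟨?_, ?_⟩⟩
      · exact hmax k (by rw [Finset.mem_filter]; exact ⟨Finset.mem_univ _, h1, h2⟩)
      · by_contra hcon
        push Not at hcon
        have := hsep k k1 hcon
        rw [Finset.mem_filter] at hk1
        omega
  choose ξ hξ using hstab
  have hu : ∀ (F' : Fam ι), (∀ l, Good F'.p l → l.length < P) → ∀ (x : ℝ) (T : Finset ι),
      (∀ k ∈ T, F'.Stab x k) → UCh F' x T → T.card ≤ 12 * (2 * P) := by
    intro F' hP' x T hS hU
    by_contra hcon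
    push Not at hcon
    obtain ⟨l, h1, h2⟩ := thru_chain (m := P) hS hU hP0 (by omega)
    have := hP' l h1
    omega
  refine ⟨N, M, ξ, hlt, ?_, ?_, ?_, ?_, hξ, hu F hP, ?_⟩
  · intro k
    rw [hN]
    exact pk_le hP (vh_pk hP _)
  · intro T m a b hne hV ha hb
    obtain ⟨k0, hk0, hmin⟩ := Finset.exists_min_image T (fun k => (F.l k).1) hne
    obtain ⟨k1, hk1, hmax⟩ := Finset.exists_max_image T (fun k => (F.r k).1) hne
    have := vh_cons hP (X := Finset.univ.filter (fun j => (F.l k0).1 ≤ (F.l j).1))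
      (X' := Finset.univ.filter (fun j => (F.r k1).1 < (F.l j).1)) (T := T) (m := m) hne hV
      (by
        intro a ha
        rw [Finset.mem_filter]
        exact ⟨Finset.mem_univ _, hmin a ha⟩)
      (by
        intro a ha
        rw [Finset.mem_filter] at ha ⊢
        have h1 := F.lr' k0
        have h2 := hmax k0 hk0
        exact ⟨ha.1, by linarith [ha.2]⟩)
      (by
        intro a ha b hb
        rw [Finset.mem_filter] at hb
        exact lt_of_le_of_lt (hmax a ha) hb.2)
    rw [← hN, ← hM] at this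
    have h1 := ha k0 hk0
    have h2 := hb k1 hk1
    omega
  · intro k j h
    rw [hN, hN]
    apply vh_mono hP
    intro a ha
    rw [Finset.mem_filter] at ha ⊢
    exact ⟨ha.1, h.trans ha.2⟩
  · intro k j h
    rw [hM, hM]
    apply vh_mono hP
    intro a ha
    rw [Finset.mem_filter] at ha ⊢
    exact ⟨ha.1, lt_of_le_of_lt h ha.2⟩
  · intro x T hS hD
    exact hu F.flip (fun l hl => hP l (good_flip.mp hl)) x T (fun k hk => flip_stab.mpr (hS k hk))
      (uch_flip.mpr hD)

theorem main_fam' [Fintype ι] [DecidableEq ι] (F : Fam ι) (P : ℕ)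
    (hP : ∀ l, Good F.p l → l.length < P) : Fintype.card ι ≤ 100000000 * P ^ 2 := by
  classical
  obtain ⟨N, M, ξ, h⟩ := exists_nm hP
  have hsp : ∀ t a : ℕ, ∃ Gp Gm : Finset ι,
      Gp ∪ Gm = Finset.univ.filter (fun k => lv N M k = t ∧ bl N M k = a) ∧
      (∀ T ⊆ Gp, UCh F (ξ (a * 2 ^ t)) T → T.card ≤ 96 * 2 ^ t) ∧
      (∀ T ⊆ Gm, DCh F (ξ (a * 2 ^ t)) T → T.card ≤ 96 * 2 ^ t) := by
    intro t a
    rcases (Finset.univ.filter (fun k => lv N M k = t ∧ bl N M k = a)).eq_empty_or_nonempty with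
      he | hne
    · refine ⟨∅, ∅, by rw [he]; simp, ?_, ?_⟩
      · intro T hT _
        rw [Finset.subset_empty] at hT
        rw [hT]; simp
      · intro T hT _
        rw [Finset.subset_empty] at hT
        rw [hT]; simp
    · have hmem : ∀ k ∈ Finset.univ.filter (fun k => lv N M k = t ∧ bl N M k = a),
          M k < a * 2 ^ t ∧ a * 2 ^ t ≤ N k ∧ N k < (a + 1) * 2 ^ t ∧
            N k < M k + 2 ^ (t + 1) := by
        intro k hk
        rw [Finset.mem_filter] at hk
        obtain ⟨g1, g2, g3⟩ := group_mem h hk.2.1 hk.2.2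
        have := (lv_spec h k).2
        rw [hk.2.1] at this
        exact ⟨g1, g2, g3, this⟩
      have hst : ∀ k ∈ Finset.univ.filter (fun k => lv N M k = t ∧ bl N M k = a),
          F.Stab (ξ (a * 2 ^ t)) k := fun k hk => h.stab _ k (hmem k hk).1 (hmem k hk).2.1
      have hV : ¬ V2 F (Finset.univ.filter (fun k => lv N M k = t ∧ bl N M k = a))
          (3 * 2 ^ t + 1) := by
        intro hV
        have h1 := h.win _ _ ((a + 1) * 2 ^ t) (a * 2 ^ t - 2 ^ (t + 1)) hne hV
          (fun k hk => (hmem k hk).2.2.1.le)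
          (fun k hk => by have := hmem k hk; omega)
        have h2 : (a + 1) * 2 ^ t = a * 2 ^ t + 2 ^ t := by ring
        have h3 : 2 ^ (t + 1) = 2 * 2 ^ t := by ring
        have h4 : 0 < 2 ^ t := by positivity
        omega
      obtain ⟨Gp, Gm, g1, g2, g3⟩ := group_split hst hV
      have h4 : 0 < 2 ^ t := by positivity
      refine ⟨Gp, Gm, g1, ?_, ?_⟩
      · intro T hT hU
        have := g2 T hT hU
        omega
      · intro T hT hU
        have := g3 T hT hU
        omega
  choose Gp Gm hun hpU hmD using hsp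
  have hp : (Finset.univ.filter (fun k => k ∈ Gp (lv N M k) (bl N M k))).card ≤
      106884 * 96 * (2 * P) ^ 2 := by
    apply bmain (F := F.flip) h.flip
    intro t a T hT hTk hD
    apply hpU t a T
    · intro k hk
      have h1 := hT hk
      rw [Finset.mem_filter] at h1
      have h2 := h1.2
      rw [(hTk k hk).1, (hTk k hk).2] at h2
      exact h2
    · exact dch_flip.mp hD
  have hm : (Finset.univ.filter (fun k => k ∈ Gm (lv N M k) (bl N M k))).card ≤
      106884 * 96 * (2 * P) ^ 2 := by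
    apply bmain (F := F) h
    intro t a T hT hTk hD
    apply hmD t a T
    · intro k hk
      have h1 := hT hk
      rw [Finset.mem_filter] at h1
      have h2 := h1.2
      rw [(hTk k hk).1, (hTk k hk).2] at h2
      exact h2
    · exact hD
  have hall : (Finset.univ : Finset ι) ⊆
      (Finset.univ.filter (fun k => k ∈ Gp (lv N M k) (bl N M k))) ∪
      (Finset.univ.filter (fun k => k ∈ Gm (lv N M k) (bl N M k))) := by
    intro k _
    have : k ∈ Gp (lv N M k) (bl N M k) ∪ Gm (lv N M k) (bl N M k) := by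
      rw [hun, Finset.mem_filter]
      exact ⟨Finset.mem_univ _, rfl, rfl⟩
    rw [Finset.mem_union] at this
    rw [Finset.mem_union, Finset.mem_filter, Finset.mem_filter]
    rcases this with h | h
    · left; exact ⟨Finset.mem_univ _, h⟩
    · right; exact ⟨Finset.mem_univ _, h⟩
  have hc := (Finset.card_le_card hall).trans (Finset.card_union_le _ _)
  rw [Finset.card_univ] at hc
  nlinarith [sq_nonneg P]

end

open Pool.Agent.Helper650.AltPath

/-- the core statement for general collections -/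
theorem main_genpos' {n : ℕ} {p : Fin n → Bool → ℝ × ℝ} (hp : DisjointGenPos p) (P : ℕ)
    (hP : ∀ ℓ v, IsAltPath p ℓ v → ℓ < P) : n ≤ 100000000 * P ^ 2 := by
  classical
  obtain ⟨ε, hε⟩ := exists_shear (fun u : Fin n × Bool => p u.1 u.2)
    (fun u v h => hp.distinct u v h)
  have hx : ∀ i b c, b ≠ c → (sh ε (p i b)).1 ≠ (sh ε (p i c)).1 := by
    intro i b c hbc h
    have := hε (i, b) (i, c) h
    rw [Prod.mk.injEq] at this
    exact hbc this.2
  let σ : Fin n → Bool := fun i => decide ((sh ε (p i true)).1 < (sh ε (p i false)).1)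
  have hlr : ∀ i, (sh ε (p i (xor false (σ i)))).1 < (sh ε (p i (xor true (σ i)))).1 := by
    intro i
    by_cases h : (sh ε (p i true)).1 < (sh ε (p i false)).1
    · have : σ i = true := decide_eq_true h
      rw [this]; exact h
    · have : σ i = false := decide_eq_false h
      rw [this]
      exact lt_of_le_of_ne (not_lt.mp h) (hx i false true (by decide))
  let F : Fam (Fin n) :=
    { p := fun i b => sh ε (p i (xor b (σ i)))
      lr := hlr
      xinj := by
        intro i j a b h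
        have := hε (i, xor a (σ i)) (j, xor b (σ j)) h
        rw [Prod.mk.injEq] at this
        obtain ⟨h1, h2⟩ := this
        subst h1
        exact ⟨rfl, by simpa using h2⟩
      disj := by
        intro i j h
        have hd := hp.disjoint i j h
        have hs : ∀ i, segment ℝ (p i (xor false (σ i))) (p i (xor true (σ i))) = seg p i := by
          intro i
          unfold seg
          cases σ i
          · rfl
          · exact segment_symm ℝ _ _
        rw [← hs i, ← hs j] at hd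
        exact disjoint_sh.mpr hd }
  have hF : ∀ l, Good F.p l → l.length < P := by
    intro l hl
    have h1 : Good (fun i b => p i (xor b (σ i))) l := good_sh (ε := ε) hl
    obtain ⟨v, hv⟩ := isAltPath_of_good hp σ h1
    exact hP _ v hv
  have := main_fam' F P hF
  simpa using this

theorem long_path' {n : ℕ} {p : Fin n → Bool → ℝ × ℝ} (hp : DisjointGenPos p) :
    ∃ ℓ v, IsAltPath p ℓ v ∧ 1 / 40000 * Real.sqrt n ≤ (ℓ : ℝ) := by
  by_contra hcon
  push Not at hcon
  rcases Nat.eq_zero_or_pos n with rfl | hn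
  · have hg : Good (fun i b => p i (xor b false)) [] := ⟨by simp, by simp, by simp⟩
    obtain ⟨v, hv⟩ := isAltPath_of_good hp (fun _ => false) hg
    have := hcon _ v hv
    simp at this
  obtain ⟨x, hx⟩ : ∃ x, x = Real.sqrt n := ⟨_, rfl⟩
  rw [← hx] at hcon
  have hx0 : 0 ≤ x := by rw [hx]; exact Real.sqrt_nonneg _
  have hx2 : x ^ 2 = n := by
    rw [hx]; exact Real.sq_sqrt (by positivity)
  -- a path of length one
  have h1 : 1 < 1 / 40000 * x := by
    have hg : Good (fun i b => p i (xor b false)) [((⟨0, by omega⟩ : Fin n), true)] :=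
      ⟨by simp, by simp, by simp⟩
    obtain ⟨v, hv⟩ := isAltPath_of_good hp (fun _ => false) hg
    have := hcon _ v hv
    simpa using this
  obtain ⟨P, hP⟩ : ∃ P, P = ⌈1 / 40000 * x⌉₊ := ⟨_, rfl⟩
  have hPlt : (P : ℝ) < 1 / 40000 * x + 1 := by
    rw [hP]; exact Nat.ceil_lt_add_one (by linarith)
  have hPle : (P : ℝ) ≤ 1 / 20000 * x := by linarith
  have hall : ∀ ℓ v, IsAltPath p ℓ v → ℓ < P := by
    intro ℓ v hv
    rw [hP, Nat.lt_ceil]
    exact hcon ℓ v hv
  have hmain := main_genpos' hp P hall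
  have hmain' : (n : ℝ) ≤ 100000000 * (P : ℝ) ^ 2 := by exact_mod_cast hmain
  have hP0 : (0 : ℝ) ≤ P := Nat.cast_nonneg P
  have hn0 : (0 : ℝ) < n := by exact_mod_cast hn
  have hPP : (P : ℝ) ^ 2 ≤ (1 / 20000 * x) ^ 2 := pow_le_pow_left₀ hP0 hPle 2
  have e : (1 / 20000 * x) ^ 2 = 1 / 400000000 * (n : ℝ) := by
    rw [mul_pow, hx2]; ring
  rw [e] at hPP
  linarith

theorem lower' (n : ℕ) : 1 / 40000 * Real.sqrt n ≤ (f n : ℝ) := by
  obtain ⟨ℓ, hℓ⟩ : ∃ ℓ, ℓ = ⌈1 / 40000 * Real.sqrt n⌉₊ := ⟨_, rfl⟩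
  have hmem : ℓ ∈ {ℓ | ∀ p : Fin n → Bool → ℝ × ℝ, DisjointGenPos p →
      ∃ ℓ' v, ℓ ≤ ℓ' ∧ IsAltPath p ℓ' v} := by
    intro p hp
    obtain ⟨ℓ', v, hv, hle⟩ := long_path' hp
    refine ⟨ℓ', v, ?_, hv⟩
    rw [hℓ]
    exact Nat.ceil_le.mpr hle
  have hbdd : BddAbove {ℓ | ∀ p : Fin n → Bool → ℝ × ℝ, DisjointGenPos p →
      ∃ ℓ' v, ℓ ≤ ℓ' ∧ IsAltPath p ℓ' v} := by
    refine ⟨n, ?_⟩
    intro ℓ hℓ
    obtain ⟨p, hp⟩ := exists_genpos n
    obtain ⟨ℓ', v, h1, h2⟩ := hℓ p hp
    exact h1.trans (altpath_le h2)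
  have h1 : ℓ ≤ f n := le_csSup hbdd hmem
  have h2 : 1 / 40000 * Real.sqrt n ≤ (ℓ : ℝ) := by
    rw [hℓ]; exact Nat.le_ceil _
  exact h2.trans (by exact_mod_cast h1)

end Pool.Agent.H279R2.Alt
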