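import Mathlib
import Pool.Agent.Helper650.AP6

set_option autoImplicit false

namespace Pool.Agent.H279R2.Alt

open Set Pool.Agent.Helper650.AP Pool.Agent.Helper650.AltPath

/-! ### the upper bound: nested chords of a parabola -/

lemma ch_par {a b : ℝ} (h : a ≠ b) (x : ℝ) : ch (par a) (par b) x = x ^ 2 + (x - a) * (b - x) := by
  have : b - a ≠ 0 := sub_ne_zero.mpr (Ne.symm h)
  unfold ch par
  simp only
  field_simp
  ring

lemma open_par {a b x : ℝ} (h1 : a < x) (h2 : x < b) :
    ((x, x ^ 2 + (x - a) * (b - x)) : ℝ × ℝ) ∈ openSegment ℝ (par a) (par b) := by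
  have hab : 0 < b - a := by linarith
  refine ⟨(b - x) / (b - a), (x - a) / (b - a), ?_, ?_, ?_, ?_⟩
  · apply div_pos <;> linarith
  · apply div_pos <;> linarith
  · field_simp; ring
  · unfold par
    ext
    · simp only [Prod.fst_add, Prod.smul_fst, smul_eq_mul]
      field_simp
      ring
    · simp only [Prod.snd_add, Prod.smul_snd, smul_eq_mul]
      field_simp
      ring

/-- crossing chords -/
lemma cross_par {a b s t : ℝ} (h1 : a < s) (h2 : s < b) (h3 : t < a ∨ b < t) :
    ∃ X : ℝ × ℝ, X ∈ openSegment ℝ (par a) (par b) ∧ X ∈ openSegment ℝ (par s) (par t) := by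
  rcases h3 with h3 | h3
  · have hd : 0 < a + b - s - t := by linarith
    obtain ⟨x, hx⟩ : ∃ x, x = (a * b - s * t) / (a + b - s - t) := ⟨_, rfl⟩
    have hx' : x * (a + b - s - t) = a * b - s * t := by rw [hx]; field_simp
    have x1 : a < x := by
      by_contra hc
      push Not at hc
      nlinarith [mul_pos (sub_pos.mpr h1) (sub_pos.mpr h3)]
    have x2 : x < s := by
      by_contra hc
      push Not at hc
      nlinarith [mul_pos (sub_pos.mpr h1) (sub_pos.mpr h2)]
    refine ⟨(x, x ^ 2 + (x - a) * (b - x)), open_par x1 (x2.trans h2), ?_⟩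
    rw [openSegment_symm]
    have e : x ^ 2 + (x - a) * (b - x) = x ^ 2 + (x - t) * (s - x) := by linear_combination hx'
    rw [e]
    exact open_par (h3.trans x1) x2
  · have hd : 0 < s + t - a - b := by linarith
    obtain ⟨x, hx⟩ : ∃ x, x = (s * t - a * b) / (s + t - a - b) := ⟨_, rfl⟩
    have hx' : x * (s + t - a - b) = s * t - a * b := by rw [hx]; field_simp
    have x1 : s < x := by
      by_contra hc
      push Not at hc
      nlinarith [mul_pos (sub_pos.mpr h1) (sub_pos.mpr h2)]
    have x2 : x < b := by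
      by_contra hc
      push Not at hc
      nlinarith [mul_pos (sub_pos.mpr h2) (sub_pos.mpr h3)]
    refine ⟨(x, x ^ 2 + (x - a) * (b - x)), open_par (h1.trans x1) x2, ?_⟩
    have e : x ^ 2 + (x - a) * (b - x) = x ^ 2 + (x - s) * (t - x) := by linear_combination -hx'
    rw [e]
    exact open_par x1 (x2.trans h3)

/-- a segment equal to a chord of the parabola has its endpoints -/
lemma ends_par {A B : ℝ × ℝ} {a b : ℝ} (hab : a < b)
    (h : segment ℝ A B = segment ℝ (par a) (par b)) :
    (A = par a ∧ B = par b) ∨ (A = par b ∧ B = par a) := by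
  have hA : A ∈ segment ℝ (par a) (par b) := by rw [← h]; exact left_mem_segment ℝ A B
  have hB : B ∈ segment ℝ (par a) (par b) := by rw [← h]; exact right_mem_segment ℝ A B
  have ha : par a ∈ segment ℝ A B := by rw [h]; exact left_mem_segment ℝ _ _
  have hb : par b ∈ segment ℝ A B := by rw [h]; exact right_mem_segment ℝ _ _
  have hne : (par a).1 ≠ (par b).1 := hab.ne
  obtain ⟨a1, a2⟩ := seg_mem_ch hne hA
  obtain ⟨b1, b2⟩ := seg_mem_ch hne hB
  have e1 : (par a).1 = a := rfl
  have e2 : (par b).1 = b := rfl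
  rw [e1, e2, uIcc_of_le hab.le, mem_Icc] at a1 b1
  rw [ch_par hab.ne] at a2 b2
  have key : ∀ {X : ℝ × ℝ}, X ∈ segment ℝ A B → (A.1 ≤ X.1 ∧ X.1 ≤ B.1) ∨ (B.1 ≤ X.1 ∧ X.1 ≤ A.1) := by
    intro X hX
    rw [segment_eq_image_lineMap] at hX
    obtain ⟨t, ht, rfl⟩ := hX
    have h1 : (AffineMap.lineMap A B t : ℝ × ℝ).1 = A.1 + t * (B.1 - A.1) := by
      simp [AffineMap.lineMap_apply]; ring
    rw [h1]
    rcases le_total A.1 B.1 with hh | hh
    · left; constructor <;> nlinarith [ht.1, ht.2]
    · right; constructor <;> nlinarith [ht.1, ht.2]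
  have k1 := key ha
  have k2 := key hb
  rw [e1] at k1
  rw [e2] at k2
  have pt : ∀ {X : ℝ × ℝ}, X.2 = X.1 ^ 2 + (X.1 - a) * (b - X.1) → X.1 = a → X = par a := by
    intro X h1 h2
    ext
    · exact h2
    · show X.2 = a ^ 2
      rw [h1, h2]; ring
  have pt' : ∀ {X : ℝ × ℝ}, X.2 = X.1 ^ 2 + (X.1 - a) * (b - X.1) → X.1 = b → X = par b := by
    intro X h1 h2
    ext
    · exact h2
    · show X.2 = b ^ 2
      rw [h1, h2]; ring
  rcases le_total A.1 B.1 with hh | hh
  · left
    constructor
    · apply pt a2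
      rcases k1 with k1 | k1 <;> linarith
    · apply pt' b2
      rcases k2 with k2 | k2 <;> linarith
  · right
    constructor
    · apply pt' a2
      rcases k2 with k2 | k2 <;> linarith
    · apply pt b2
      rcases k1 with k1 | k1 <;> linarith

/-- parameters: group `i / m`, position `i % m` -/
def qn (m i : ℕ) (b : Bool) : ℕ :=
  3 * m * (i / m) + (if b then 3 * m - 1 - 2 * (i % m) else i % m)

/-- the construction -/
def cp (m n : ℕ) (i : Fin n) (b : Bool) : ℝ × ℝ := par (qn m i b)

section
variable {m : ℕ}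

lemma qn_bounds (hm : 0 < m) (i : ℕ) :
    3 * m * (i / m) ≤ qn m i false ∧ qn m i false < qn m i true ∧
      qn m i true < 3 * m * (i / m) + 3 * m ∧ i % m < m := by
  have h := Nat.mod_lt i hm
  unfold qn
  simp only [Bool.false_eq_true, if_false, if_true]
  omega

lemma qn_range (hm : 0 < m) (i : ℕ) (b : Bool) :
    3 * m * (i / m) ≤ qn m i b ∧ qn m i b < 3 * m * (i / m) + 3 * m := by
  have h := qn_bounds hm i
  cases b
  · omega
  · omega

lemma group_eq (hm : 0 < m) {g g' x : ℕ} (h1 : 3 * m * g ≤ x) (h2 : x < 3 * m * g + 3 * m)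
    (h3 : 3 * m * g' ≤ x) (h4 : x < 3 * m * g' + 3 * m) : g = g' := by
  rcases lt_trichotomy g g' with h | h | h
  · have : 3 * m * (g + 1) ≤ 3 * m * g' := Nat.mul_le_mul_left _ h
    rw [mul_add, mul_one] at this
    omega
  · exact h
  · have : 3 * m * (g' + 1) ≤ 3 * m * g := Nat.mul_le_mul_left _ h
    rw [mul_add, mul_one] at this
    omega

lemma eq_of_div_mod {i j : ℕ} (h1 : i / m = j / m) (h2 : i % m = j % m) : i = j := by
  rw [← Nat.div_add_mod i m, ← Nat.div_add_mod j m, h1, h2]

lemma qn_inj (hm : 0 < m) {i j : ℕ} {b c : Bool} (h : qn m i b = qn m j c) : i = j ∧ b = c := by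
  have r1 := qn_range hm i b
  have r2 := qn_range hm j c
  rw [← h] at r2
  have hg := group_eq hm r1.1 r1.2 r2.1 r2.2
  have m1 := Nat.mod_lt i hm
  have m2 := Nat.mod_lt j hm
  unfold qn at h
  rw [hg] at h
  have h := Nat.add_left_cancel h
  cases b <;> cases c
  · simp only [Bool.false_eq_true, if_false] at h
    exact ⟨eq_of_div_mod hg h, rfl⟩
  · exfalso
    simp only [Bool.false_eq_true, if_false, if_true] at h
    omega
  · exfalso
    simp only [Bool.false_eq_true, if_false, if_true] at h
    omega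
  · simp only [if_true] at h
    exact ⟨eq_of_div_mod hg (by omega), rfl⟩

lemma qn_sum (hm : 0 < m) {i j : ℕ} (h : qn m i false + qn m i true = qn m j false + qn m j true) :
    i = j := by
  have m1 := Nat.mod_lt i hm
  have m2 := Nat.mod_lt j hm
  unfold qn at h
  simp only [Bool.false_eq_true, if_false, if_true] at h
  have hg : i / m = j / m := by
    rcases lt_trichotomy (i / m) (j / m) with hh | hh | hh
    · have : 3 * m * (i / m + 1) ≤ 3 * m * (j / m) := Nat.mul_le_mul_left _ hh
      rw [mul_add, mul_one] at this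
      omega
    · exact hh
    · have : 3 * m * (j / m + 1) ≤ 3 * m * (i / m) := Nat.mul_le_mul_left _ hh
      rw [mul_add, mul_one] at this
      omega
  rw [hg] at h
  exact eq_of_div_mod hg (by omega)

/-- two different chords are separated or nested -/
lemma qn_cases (hm : 0 < m) {i j : ℕ} (hij : i ≠ j) :
    (qn m i true < qn m j false) ∨ (qn m j true < qn m i false) ∨
    (qn m i false < qn m j false ∧ qn m j true < qn m i true) ∨
    (qn m j false < qn m i false ∧ qn m i true < qn m j true) := by
  have b1 := qn_bounds hm i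
  have b2 := qn_bounds hm j
  rcases lt_trichotomy (i / m) (j / m) with hh | hh | hh
  · left
    have : 3 * m * (i / m + 1) ≤ 3 * m * (j / m) := Nat.mul_le_mul_left _ hh
    rw [mul_add, mul_one] at this
    omega
  · right; right
    have hne : i % m ≠ j % m := fun h => hij (eq_of_div_mod hh h)
    unfold qn
    simp only [Bool.false_eq_true, if_false, if_true, hh]
    omega
  · right; left
    have : 3 * m * (j / m + 1) ≤ 3 * m * (i / m) := Nat.mul_le_mul_left _ hh
    rw [mul_add, mul_one] at this
    omega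

lemma nested_disjoint {a b a' b' : ℝ} (h1 : a < a') (h2 : a' < b') (h3 : b' < b) :
    Disjoint (segment ℝ (par a') (par b')) (segment ℝ (par a) (par b)) := by
  have hab : a < b := by linarith
  apply Below.disjoint (P := par a') (Q := par b') (P' := par a) (Q' := par b) h2.ne hab.ne
  apply below_of_ends (P := par a') (Q := par b') (P' := par a) (Q' := par b) h2.ne hab.ne
  · intro _
    rw [ch_par hab.ne]
    show a' ^ 2 < a' ^ 2 + (a' - a) * (b - a')
    nlinarith [mul_pos (sub_pos.mpr h1) (sub_pos.mpr (h2.trans h3))]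
  · intro _
    rw [ch_par hab.ne]
    show b' ^ 2 < b' ^ 2 + (b' - a) * (b - b')
    nlinarith [mul_pos (sub_pos.mpr (h1.trans h2)) (sub_pos.mpr h3)]
  · intro hx
    exfalso
    have : a ∈ uIcc a' b' := hx
    rw [uIcc_of_le h2.le, mem_Icc] at this
    linarith
  · intro hx
    exfalso
    have : b ∈ uIcc a' b' := hx
    rw [uIcc_of_le h2.le, mem_Icc] at this
    linarith

lemma sep_disjoint {a b a' b' : ℝ} (h1 : a < b) (h2 : b < a') (h3 : a' < b') :
    Disjoint (segment ℝ (par a) (par b)) (segment ℝ (par a') (par b')) := by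
  apply (below_of_sep (P := par a) (Q := par b) (P' := par a') (Q' := par b') ?_ ?_ ?_ ?_).disjoint
  · exact h1.ne
  · exact h3.ne
  · show a < a'; linarith
  · show a < b'; linarith
  · show b < a'; linarith
  · show b < b'; linarith

lemma cp_genpos (hm : 0 < m) (n : ℕ) : DisjointGenPos (cp m n) := by
  refine ⟨?_, ?_, ?_, ?_⟩
  · intro i j hij
    have hij' : (i : ℕ) ≠ (j : ℕ) := fun h => hij (Fin.ext h)
    have b1 := qn_bounds hm i
    have b2 := qn_bounds hm j
    have c1 : (qn m i false : ℝ) < qn m i true := by exact_mod_cast b1.2.1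
    have c2 : (qn m j false : ℝ) < qn m j true := by exact_mod_cast b2.2.1
    unfold seg cp
    rcases qn_cases hm hij' with h | h | h | h
    · exact sep_disjoint c1 (by exact_mod_cast h) c2
    · exact (sep_disjoint c2 (by exact_mod_cast h) c1).symm
    · exact (nested_disjoint (by exact_mod_cast h.1) c2 (by exact_mod_cast h.2)).symm
    · exact nested_disjoint (by exact_mod_cast h.1) c1 (by exact_mod_cast h.2)
  · intro i j hij h
    apply hij
    have b1 := qn_bounds hm i
    have b2 := qn_bounds hm j
    have c1 : (qn m i false : ℝ) < qn m i true := by exact_mod_cast b1.2.1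
    have c2 : (qn m j false : ℝ) < qn m j true := by exact_mod_cast b2.2.1
    unfold cp par at h
    simp only at h
    have e : ((qn m i true : ℝ) - qn m i false) * ((qn m j true : ℝ) - qn m j false) *
        (((qn m i false : ℝ) + qn m i true) - ((qn m j false : ℝ) + qn m j true)) = 0 := by
      linear_combination -h
    rcases mul_eq_zero.mp e with e | e
    · exfalso
      rcases mul_eq_zero.mp e with e | e <;> linarith
    · have e' : (qn m i false : ℝ) + qn m i true = (qn m j false : ℝ) + qn m j true := by linarith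
      have e'' : qn m i false + qn m i true = qn m j false + qn m j true := by exact_mod_cast e'
      exact Fin.ext (qn_sum hm e'')
  · intro u v h
    have h1 : ((qn m u.1 u.2 : ℕ) : ℝ) = ((qn m v.1 v.2 : ℕ) : ℝ) := congrArg Prod.fst h
    have h2 : qn m u.1 u.2 = qn m v.1 v.2 := by exact_mod_cast h1
    obtain ⟨e1, e2⟩ := qn_inj hm h2
    exact Prod.ext (Fin.ext e1) e2
  · intro u v w h1 h2 h3
    have key : ∀ u v : Fin n × Bool, u ≠ v →
        ((qn m u.1 u.2 : ℕ) : ℝ) ≠ ((qn m v.1 v.2 : ℕ) : ℝ) := by
      intro u v huv h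
      have h2 : qn m u.1 u.2 = qn m v.1 v.2 := by exact_mod_cast h
      obtain ⟨e1, e2⟩ := qn_inj hm h2
      exact huv (Prod.ext (Fin.ext e1) e2)
    exact par_coll (key _ _ h1) (key _ _ h2) (key _ _ h3)

/-- every alternating path is short -/
lemma cp_short (hm : 0 < m) {n : ℕ} (hn : n ≤ m * m) {ℓ : ℕ} {v : ℕ → ℝ × ℝ}
    (h : IsAltPath (cp m n) ℓ v) : ℓ ≤ 3 * m := by
  classical
  rcases Nat.eq_zero_or_pos ℓ with h0 | hℓ
  · omega
  have hch : ∀ k, ∃ i : ℕ, k < ℓ → (i < n ∧
      ((v (2 * k) = par (qn m i false) ∧ v (2 * k + 1) = par (qn m i true)) ∨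
       (v (2 * k) = par (qn m i true) ∧ v (2 * k + 1) = par (qn m i false)))) := by
    intro k
    by_cases hk : k < ℓ
    · obtain ⟨i, hi⟩ := h.alternating k hk
      refine ⟨i, fun _ => ⟨i.2, ?_⟩⟩
      have c1 : (qn m i false : ℝ) < qn m i true := by exact_mod_cast (qn_bounds hm i).2.1
      exact ends_par c1 hi
    · exact ⟨0, fun h => absurd h hk⟩
  choose g hg using hch
  -- coordinates of the vertices
  have hvert : ∀ j, j < 2 * ℓ → ∃ c, v j = par (qn m (g (j / 2)) c) := by
    intro j hj
    obtain ⟨j', hj'⟩ := Nat.even_or_odd' j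
    rcases hj' with rfl | rfl
    · rw [show 2 * j' / 2 = j' by omega]
      rcases (hg j' (by omega)).2 with h1 | h1
      · exact ⟨false, h1.1⟩
      · exact ⟨true, h1.1⟩
    · rw [show (2 * j' + 1) / 2 = j' by omega]
      rcases (hg j' (by omega)).2 with h1 | h1
      · exact ⟨true, h1.2⟩
      · exact ⟨false, h1.2⟩
  have hpar : ∀ j, j < 2 * ℓ → v j = par (v j).1 := by
    intro j hj
    obtain ⟨c, hc⟩ := hvert j hj
    rw [hc]; rfl
  obtain ⟨ins, hins⟩ : ∃ ins : ℕ → ℕ → Prop, ins = fun k j =>
    (qn m (g k) false : ℝ) < (v j).1 ∧ (v j).1 < qn m (g k) true := ⟨_, rfl⟩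
  have hinsv : ∀ k j, ins k j ↔
      ((qn m (g k) false : ℝ) < (v j).1 ∧ (v j).1 < qn m (g k) true) := by
    intro k j; rw [hins]
  have hopen : ∀ k, k < ℓ → openSegment ℝ (v (2 * k)) (v (2 * k + 1)) =
      openSegment ℝ (par (qn m (g k) false)) (par (qn m (g k) true)) := by
    intro k hk
    rcases (hg k hk).2 with h1 | h1
    · rw [h1.1, h1.2]
    · rw [h1.1, h1.2, openSegment_symm]
  -- the endpoints of the chord
  have hne : ∀ k, k < ℓ → ∀ j, j < 2 * ℓ → j ≠ 2 * k → j ≠ 2 * k + 1 →
      (v j).1 ≠ qn m (g k) false ∧ (v j).1 ≠ qn m (g k) true := by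
    intro k hk j hj h1 h2
    have hv := hpar j hj
    constructor
    · intro e
      rw [e] at hv
      rcases (hg k hk).2 with h3 | h3
      · exact h1 (h.simple j (2 * k) hj (by omega) (hv.trans h3.1.symm))
      · exact h2 (h.simple j (2 * k + 1) hj (by omega) (hv.trans h3.2.symm))
    · intro e
      rw [e] at hv
      rcases (hg k hk).2 with h3 | h3
      · exact h2 (h.simple j (2 * k + 1) hj (by omega) (hv.trans h3.2.symm))
      · exact h1 (h.simple j (2 * k) hj (by omega) (hv.trans h3.1.symm))
  -- no crossing: consecutive vertices are on the same side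
  have hstep : ∀ k, k < ℓ → ∀ j, j + 1 < 2 * ℓ → j ≠ 2 * k → j ≠ 2 * k + 1 → j + 1 ≠ 2 * k →
      (ins k j ↔ ins k (j + 1)) := by
    intro k hk j hj h1 h2 h3
    have e1 := hne k hk j (by omega) h1 h2
    have e2 := hne k hk (j + 1) hj h3 (by omega)
    have v1 := hpar j (by omega)
    have v2 := hpar (j + 1) hj
    have nc : ∀ X : ℝ × ℝ, X ∈ openSegment ℝ (par (qn m (g k) false)) (par (qn m (g k) true)) →
        X ∈ openSegment ℝ (v j) (v (j + 1)) → False := by
      intro X hX hX'
      rw [← hopen k hk] at hX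
      exact (h.noncrossing j (2 * k) hj (by omega) h1 X (openSegment_subset_segment ℝ _ _ hX')
        (openSegment_subset_segment ℝ _ _ hX)).1 hX'
    rw [hinsv, hinsv]
    constructor
    · rintro ⟨a1, a2⟩
      by_contra hcon
      have : (v (j + 1)).1 < qn m (g k) false ∨ (qn m (g k) true : ℝ) < (v (j + 1)).1 := by
        by_contra hcon2
        push Not at hcon2
        exact hcon ⟨lt_of_le_of_ne hcon2.1 (Ne.symm e2.1), lt_of_le_of_ne hcon2.2 e2.2⟩
      obtain ⟨X, x1, x2⟩ := cross_par a1 a2 this
      rw [← v1, ← v2] at x2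
      exact nc X x1 x2
    · rintro ⟨a1, a2⟩
      by_contra hcon
      have : (v j).1 < qn m (g k) false ∨ (qn m (g k) true : ℝ) < (v j).1 := by
        by_contra hcon2
        push Not at hcon2
        exact hcon ⟨lt_of_le_of_ne hcon2.1 (Ne.symm e1.1), lt_of_le_of_ne hcon2.2 e1.2⟩
      obtain ⟨X, x1, x2⟩ := cross_par a1 a2 this
      rw [← v1, ← v2, openSegment_symm] at x2
      exact nc X x1 x2
  have hafter : ∀ k, k < ℓ → ∀ d, 2 * k + 2 + d < 2 * ℓ →
      (ins k (2 * k + 2) ↔ ins k (2 * k + 2 + d)) := by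
    intro k hk d
    induction d with
    | zero => intro _; exact Iff.rfl
    | succ d ih =>
      intro hd
      rw [ih (by omega)]
      exact hstep k hk (2 * k + 2 + d) (by omega) (by omega) (by omega) (by omega)
  have hbefore : ∀ k, k < ℓ → ∀ d, d < 2 * k → (ins k 0 ↔ ins k d) := by
    intro k hk d
    induction d with
    | zero => intro _; exact Iff.rfl
    | succ d ih =>
      intro hd
      rw [ih (by omega)]
      exact hstep k hk d (by omega) (by omega) (by omega) (by omega)
  -- inside vertices belong to the same group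
  have hgrp : ∀ k, k < ℓ → ∀ j, j < 2 * ℓ → ins k j → g (j / 2) / m = g k / m := by
    intro k hk j hj hi
    obtain ⟨c, hc⟩ := hvert j hj
    rw [hinsv, hc] at hi
    have i1 : qn m (g k) false < qn m (g (j / 2)) c := by
      have : (qn m (g k) false : ℝ) < (qn m (g (j / 2)) c : ℝ) := hi.1
      exact_mod_cast this
    have i2 : qn m (g (j / 2)) c < qn m (g k) true := by
      have : (qn m (g (j / 2)) c : ℝ) < (qn m (g k) true : ℝ) := hi.2
      exact_mod_cast this
    have r1 := qn_range hm (g (j / 2)) c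
    have r2 := qn_bounds hm (g k)
    exact group_eq hm r1.1 r1.2 (by omega) (by omega)
  -- injectivity
  have ginj : ∀ k k', k < ℓ → k' < ℓ → g k = g k' → k = k' := by
    intro k k' hk hk' e
    by_contra hne'
    have h1 := (hg k hk).2
    have h2 := (hg k' hk').2
    rw [← e] at h2
    have s1 : ∀ j j', j < 2 * ℓ → j' < 2 * ℓ → v j = v j' → j = j' := fun j j' => h.simple j j'
    rcases h1 with h1 | h1 <;> rcases h2 with h2 | h2
    · have := s1 (2 * k) (2 * k') (by omega) (by omega) (h1.1.trans h2.1.symm); omega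
    · have := s1 (2 * k) (2 * k' + 1) (by omega) (by omega) (h1.1.trans h2.2.symm); omega
    · have := s1 (2 * k + 1) (2 * k') (by omega) (by omega) (h1.2.trans h2.1.symm); omega
    · have := s1 (2 * k) (2 * k') (by omega) (by omega) (h1.1.trans h2.1.symm); omega
  -- two used chords of one group
  have hpair : ∀ k k', k < ℓ → k' < ℓ → g k / m = g k' / m → g k % m < g k' % m →
      g 0 / m = g k / m ∨ g (ℓ - 1) / m = g k / m := by
    intro k k' hk hk' e1 e2
    have hkk : k ≠ k' := by
      rintro rfl
      exact lt_irrefl _ e2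
    have hin : ins k (2 * k') := by
      rw [hinsv]
      have q1 := qn_bounds hm (g k)
      have q2 := qn_bounds hm (g k')
      have hin1 : qn m (g k) false < qn m (g k') false ∧ qn m (g k') true < qn m (g k) true := by
        unfold qn
        simp only [Bool.false_eq_true, if_false, if_true, e1]
        omega
      rcases (hg k' hk').2 with h3 | h3
      · rw [h3.1]
        constructor
        · show (qn m (g k) false : ℝ) < (qn m (g k') false : ℝ)
          exact_mod_cast hin1.1
        · show (qn m (g k') false : ℝ) < (qn m (g k) true : ℝ)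
          have : qn m (g k') false < qn m (g k) true := by omega
          exact_mod_cast this
      · rw [h3.1]
        constructor
        · show (qn m (g k) false : ℝ) < (qn m (g k') true : ℝ)
          have : qn m (g k) false < qn m (g k') true := by omega
          exact_mod_cast this
        · show (qn m (g k') true : ℝ) < (qn m (g k) true : ℝ)
          exact_mod_cast hin1.2
    rcases lt_or_gt_of_ne hkk with hlt | hlt
    · right
      have h1 := hafter k hk (2 * k' - (2 * k + 2)) (by omega)
      rw [show 2 * k + 2 + (2 * k' - (2 * k + 2)) = 2 * k' by omega] at h1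
      have h2 := hafter k hk (2 * (ℓ - 1) - (2 * k + 2)) (by omega)
      rw [show 2 * k + 2 + (2 * (ℓ - 1) - (2 * k + 2)) = 2 * (ℓ - 1) by omega] at h2
      have h3 := hgrp k hk (2 * (ℓ - 1)) (by omega) (h2.mp (h1.mpr hin))
      rwa [show 2 * (ℓ - 1) / 2 = ℓ - 1 by omega] at h3
    · left
      have h1 := hbefore k hk (2 * k') (by omega)
      have h3 := hgrp k hk 0 (by omega) (h1.mpr hin)
      rwa [show 0 / 2 = 0 by omega] at h3
  have hpair' : ∀ k k', k < ℓ → k' < ℓ → k ≠ k' → g k / m = g k' / m →
      g 0 / m = g k / m ∨ g (ℓ - 1) / m = g k / m := by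
    intro k k' hk hk' hne' e
    have hmod : g k % m ≠ g k' % m := fun h' => hne' (ginj k k' hk hk' (eq_of_div_mod e h'))
    rcases lt_or_gt_of_ne hmod with h' | h'
    · exact hpair k k' hk hk' e h'
    · rw [e]; exact hpair k' k hk' hk e.symm h'
  -- counting
  have hone : ∀ x, ((Finset.range ℓ).filter (fun k => g k / m = x)).card ≤ m := by
    intro x
    have := Finset.card_le_card_of_injOn (s := (Finset.range ℓ).filter (fun k => g k / m = x))
      (t := Finset.range m) (fun k => g k % m)
      (by
        intro k _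
        simp only [Finset.coe_range, Set.mem_Iio]
        exact Nat.mod_lt _ hm)
      (by
        intro k hk k' hk' e
        simp only [Finset.coe_filter, Finset.mem_range, Set.mem_ofPred_eq] at hk hk'
        exact ginj k k' hk.1 hk'.1 (eq_of_div_mod (hk.2.trans hk'.2.symm) e))
    simpa using this
  have hrest : ((Finset.range ℓ).filter (fun k => ¬ g k / m = g 0 / m ∧
      ¬ g k / m = g (ℓ - 1) / m)).card ≤ m := by
    have := Finset.card_le_card_of_injOn (s := (Finset.range ℓ).filter (fun k =>
      ¬ g k / m = g 0 / m ∧ ¬ g k / m = g (ℓ - 1) / m)) (t := Finset.range m) (fun k => g k / m)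
      (by
        intro k hk
        simp only [Finset.coe_filter, Finset.mem_range, Set.mem_ofPred_eq] at hk
        simp only [Finset.coe_range, Set.mem_Iio]
        have := (hg k hk.1).1
        exact Nat.div_lt_of_lt_mul (by omega))
      (by
        intro k hk k' hk' e
        simp only [Finset.coe_filter, Finset.mem_range, Set.mem_ofPred_eq] at hk hk'
        by_contra hne'
        rcases hpair' k k' hk.1 hk'.1 hne' e with h' | h'
        · exact hk.2.1 h'.symm
        · exact hk.2.2 h'.symm)
    simpa using this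
  have hcov : Finset.range ℓ ⊆ ((Finset.range ℓ).filter (fun k => g k / m = g 0 / m) ∪
      (Finset.range ℓ).filter (fun k => g k / m = g (ℓ - 1) / m)) ∪
      (Finset.range ℓ).filter (fun k => ¬ g k / m = g 0 / m ∧ ¬ g k / m = g (ℓ - 1) / m) := by
    intro k hk
    rw [Finset.mem_union, Finset.mem_union, Finset.mem_filter, Finset.mem_filter, Finset.mem_filter]
    tauto
  have h1 := Finset.card_le_card hcov
  have h2 := Finset.card_union_le ((Finset.range ℓ).filter (fun k => g k / m = g 0 / m) ∪
      (Finset.range ℓ).filter (fun k => g k / m = g (ℓ - 1) / m))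
      ((Finset.range ℓ).filter (fun k => ¬ g k / m = g 0 / m ∧ ¬ g k / m = g (ℓ - 1) / m))
  have h3 := Finset.card_union_le ((Finset.range ℓ).filter (fun k => g k / m = g 0 / m))
      ((Finset.range ℓ).filter (fun k => g k / m = g (ℓ - 1) / m))
  have h4 := hone (g 0 / m)
  have h5 := hone (g (ℓ - 1) / m)
  rw [Finset.card_range] at h1
  omega

end

theorem upper' (n : ℕ) (hn : 1 ≤ n) : (f n : ℝ) ≤ 6 * Real.sqrt n := by
  obtain ⟨m, hm⟩ : ∃ m, m = Nat.sqrt n + 1 := ⟨_, rfl⟩
  have hm0 : 0 < m := by omega
  have hnm : n ≤ m * m := by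
    rw [hm]
    exact (Nat.lt_succ_sqrt n).le
  have hf : f n ≤ 3 * m := by
    apply csSup_le
    · refine ⟨0, ?_⟩
      intro p _
      exact ⟨0, fun _ => 0, le_rfl, ⟨by simp, by simp, by simp⟩⟩
    · intro ℓ hℓ
      obtain ⟨ℓ', v, h1, h2⟩ := hℓ (cp m n) (cp_genpos hm0 n)
      exact h1.trans (cp_short hm0 hnm h2)
  have h1 : (1 : ℝ) ≤ Real.sqrt n := by
    rw [Real.one_le_sqrt]; exact_mod_cast hn
  have h2 : (Nat.sqrt n : ℝ) ≤ Real.sqrt n := Real.nat_sqrt_le_real_sqrt
  have h3 : (m : ℝ) = (Nat.sqrt n : ℝ) + 1 := by rw [hm]; push_cast; ring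
  have h4 : (f n : ℝ) ≤ 3 * (m : ℝ) := by exact_mod_cast hf
  rw [h3] at h4
  linarith

end Pool.Agent.H279R2.Alt
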